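import Pool.Agent.KZ.Sec
import Pool.Agent.V7.TrM
import Pool.Agent.V7.ST.Step

/-!
# KZ4: trace and residual, with secant fillers

As `V7/Tr`, `V7/TrM` (`gd_tr`, `gM_tr`, `gd_A0_le`, `A1_Ex`, `sg_facts`), the block `j` = `0` resp. `1`
is made special.  Objects on `L_j`: trace of the same kind in `n - c` variables, residual `Kd.add j`.
`y` pairs of plain triple points are moved to `pr j I` (`q + q'` on `L_j`): the trace contains the double
point `q + q'` (`fat_add2`), `r` triples to `tr j ∅`: the trace contains the simple point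
`q + q' + q''` (`fat_add3`).
-/

set_option autoImplicit false
set_option linter.unusedSectionVars false
set_option linter.unusedVariables false

namespace Pool.Agent.KZ

open Finset MvPolynomial Pool.Agent.H51.TB Pool.Agent.H54.V7 Pool.Agent.V7.ST
open Pool.Agent.V7 (msk Ex blk Bj A0 A1 rs mem_Bj Fat_trace Fat_resid xtE xt sg)

/-- Pull back of a general statement along a surjective polynomial substitution. -/
theorem gn_sub {κ κ' ν ν' : Type} (Φ : κ → ν → MvPolynomial (κ' × ν') ℂ)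
    (hs : ∀ p : κ → ν → ℂ, ∃ p' : κ' → ν' → ℂ, ∀ i s, eval (fun x => p' x.1 x.2) (Φ i s) = p i s)
    {P : (κ → ν → ℂ) → Prop} (h : Gn κ ν P) :
    Gn κ' ν' fun p' => P fun i s => eval (fun x => p' x.1 x.2) (Φ i s) := by
  obtain ⟨G, hG0, hG⟩ := h
  have hev : ∀ p' : κ' → ν' → ℂ, eval (fun x => p' x.1 x.2) (aeval (fun x => Φ x.1 x.2) G) =
      eval (fun x : κ × ν => eval (fun x => p' x.1 x.2) (Φ x.1 x.2)) G := by
    intro p'
    have h1 : eval (fun x => p' x.1 x.2) (aeval (fun x => Φ x.1 x.2) G) =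
        ((aeval (fun x => p' x.1 x.2) : MvPolynomial (κ' × ν') ℂ →ₐ[ℂ] ℂ).comp
          (aeval fun x : κ × ν => Φ x.1 x.2)) G := by
      rw [AlgHom.comp_apply, aeval_eq_eval]
    rw [h1, comp_aeval, aeval_eq_eval]
    rfl
  refine ⟨aeval (fun x => Φ x.1 x.2) G, ?_, ?_⟩
  · intro h0
    obtain ⟨a, ha⟩ : ∃ a : κ × ν → ℂ, eval a G ≠ 0 := by
      by_contra hcon
      push Not at hcon
      exact hG0 (MvPolynomial.funext fun a => by rw [hcon a, map_zero])
    obtain ⟨p', hp'⟩ := hs fun i s => a (i, s)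
    have h1 := hev p'
    rw [h0, map_zero] at h1
    have h2 : (fun x : κ × ν => eval (fun x => p' x.1 x.2) (Φ x.1 x.2)) = a := by
      funext x
      exact hp' x.1 x.2
    rw [h2] at h1
    exact ha h1.symm
  · intro p' hp'
    apply hG
    rw [hev] at hp'
    exact hp'

section

variable {ν : Type} [Fintype ν] [DecidableEq ν]

/-- The position on the subspace of the block `j`. -/
def mq (β : ν → ℕ) (j : ℕ) (q : ν × Fin 3 → ℂ) : ν × Fin 3 → ℂ :=
  fun x => if β x.1 = j then 0 else q x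

theorem mu_add (j : ℕ) (k : Kd) (x : Fin 3) : mu (k.add j) x = mu k x := by
  rcases k with ⟨μ, I⟩ | ⟨i, I⟩ | ⟨i, I⟩ <;> rfl

theorem msk_add (β : ν → ℕ) (j : ℕ) (I : Finset ℕ) (g g' : ν → ℂ)
    (h : ∀ s, β s ≠ j → g s = g' s) (h0 : ∀ s, β s = j → g s = 0) :
    msk β I g = msk β (insert j I) g' := by
  funext s
  unfold msk
  by_cases h2 : β s ∈ I
  · rw [if_pos h2, if_pos (mem_insert_of_mem h2)]
  · rw [if_neg h2]
    by_cases h3 : β s = j
    · rw [if_pos (mem_insert.2 (Or.inl h3)), h0 s h3]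
    · rw [if_neg, h s h3]
      intro h4
      rcases mem_insert.1 h4 with h4 | h4
      · exact h3 h4
      · exact h2 h4

/-- The points of an object on the subspace. -/
theorem pt_add (β : ν → ℕ) (j : ℕ) (k : Kd) (x : Fin 3) (q : ν × Fin 3 → ℂ) :
    pt β k x (mq β j q) = pt β (k.add j) x q := by
  rcases k with ⟨μ, I⟩ | ⟨i, I⟩ | ⟨i, I⟩
  · refine msk_add β j I _ _ ?_ ?_
    · intro s hs
      simp [mq, hs]
    · intro s hs
      simp [mq, hs]
  · refine msk_add β j I _ _ ?_ ?_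
    · intro s hs
      simp [mq, hs]
    · intro s hs
      simp [mq, hs]
  · refine msk_add β j I _ _ ?_ ?_
    · intro s hs
      simp [mq, hs]
    · intro s hs
      simp [mq, hs]

theorem pt_off (β : ν → ℕ) (j : ℕ) (k : Kd) (x : Fin 3) (q : ν × Fin 3 → ℂ) (s : ν)
    (hs : s ∉ Bj β j) : pt β k x q s = pt β k x (mq β j q) s := by
  rw [mem_Bj] at hs
  rcases k with ⟨μ, I⟩ | ⟨i, I⟩ | ⟨i, I⟩ <;> simp [pt, msk, mq, hs]

theorem pt_on (β : ν → ℕ) (j : ℕ) (k : Kd) (x : Fin 3) (q : ν × Fin 3 → ℂ) (s : ν)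
    (hs : s ∈ Bj β j) : pt β k x (mq β j q) s = 0 := by
  rw [mem_Bj] at hs
  rcases k with ⟨μ, I⟩ | ⟨i, I⟩ | ⟨i, I⟩ <;> simp [pt, msk, mq, hs]

/-- The vectors of the points of an object. -/
def pv (β : ν → ℕ) (k : Kd) (x : Fin 3) (q : ν × Fin 3 → ℂ) : ν × Fin 3 → ℂ :=
  fun z => pt β k x q z.1

theorem pt_ord_pv (β : ν → ℕ) (μ j : ℕ) (I : Finset ℕ) (x : Fin 3) (q : ν × Fin 3 → ℂ) :
    pt β (.ord μ I) 0 (pv β (.pr j I) x q) = pt β (.pr j I) x q := by
  funext s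
  simp only [pt, msk, pv]
  split_ifs <;> rfl

theorem pt_ord_tv (β : ν → ℕ) (μ j : ℕ) (I : Finset ℕ) (x : Fin 3) (q : ν × Fin 3 → ℂ) :
    pt β (.ord μ I) 0 (pv β (.tr j I) x q) = pt β (.tr j I) x q := by
  funext s
  simp only [pt, msk, pv]
  split_ifs <;> rfl

theorem SatK_trace (β : ν → ℕ) (j : ℕ) (A : Finset (ν → ℕ)) (k : Kd) (q : ν × Fin 3 → ℂ)
    (f : {a // a ∈ A} → ℂ) (h : SatK β k (mq β j q) f) :
    SatK β k q (rs (filter_subset (fun a : ν → ℕ => ∀ s ∈ Bj β j, a s = 0) A) f) := fun x =>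
  Fat_trace β j A (mu k x) f _ _ (pt_on β j k x q) (pt_off β j k x q) (h x)

theorem SatK_resid_add (β : ν → ℕ) (j : ℕ) (A : Finset (ν → ℕ)) (k : Kd)
    (q : ν × Fin 3 → ℂ) (f : {a // a ∈ A} → ℂ)
    (hf : ∀ e : {a // a ∈ A}, (∀ s ∈ Bj β j, e.1 s = 0) → f e = 0)
    (h : SatK β k (mq β j q) f) :
    SatK β (k.add j) q (rs (filter_subset (fun a : ν → ℕ => ¬ ∀ s ∈ Bj β j, a s = 0) A) f) := by
  intro x
  rw [mu_add, ← pt_add]
  exact Fat_resid β j A (mu k x) f hf _ (h x)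

theorem SatK_resid (β : ν → ℕ) (j : ℕ) (A : Finset (ν → ℕ)) (k : Kd)
    (q : ν × Fin 3 → ℂ) (f : {a // a ∈ A} → ℂ)
    (hf : ∀ e : {a // a ∈ A}, (∀ s ∈ Bj β j, e.1 s = 0) → f e = 0)
    (h : SatK β k q f) :
    SatK β k q (rs (filter_subset (fun a : ν → ℕ => ¬ ∀ s ∈ Bj β j, a s = 0) A) f) := fun x =>
  Fat_resid β j A (mu k x) f hf _ (h x)

/-- The trace inequality for families. -/
theorem gd_trK (β : ν → ℕ) (j : ℕ) (A : Finset (ν → ℕ)) (hA : ∀ a ∈ A, ∑ s, a s = 4)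
    {κL κO κY κR : Type} [Fintype κL] [Fintype κO] [Fintype κY] [Fintype κR]
    (mL : κL → Kd) (mO : κO → Kd) (I J : Finset ℕ) :
    (LSA β A).gd (Sum.elim (Sum.elim mL mO) (Sum.elim (fun _ : κY × Fin 2 => Kd.ord 3 I)
      fun _ : κR × Fin 3 => Kd.ord 3 J)) ≤
      (LSA β (A0 β j A)).gd (Sum.elim mL (Sum.elim (fun _ : κY => Kd.ord 2 I)
        fun _ : κR => Kd.ord 1 J)) +
      (LSA β (A1 β j A)).gd (Sum.elim (Sum.elim (fun x => (mL x).add j) mO)
        (Sum.elim (fun _ : κY => Kd.pr j I) fun _ : κR => Kd.tr j J)) := by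
  classical
  -- the positions of the trace
  let Φ : κL ⊕ (κY ⊕ κR) → ν × Fin 3 →
      MvPolynomial (((κL ⊕ κO) ⊕ (κY ⊕ κR)) × (ν × Fin 3)) ℂ :=
    Sum.elim (fun i z => X (Sum.inl (Sum.inl i), z)) (Sum.elim
      (fun i z => if z.2 = 0 then X (Sum.inr (Sum.inl i), (z.1, 0)) + X (Sum.inr (Sum.inl i), (z.1, 1))
        else X (Sum.inr (Sum.inl i), z))
      (fun i z => if z.2 = 0 then X (Sum.inr (Sum.inr i), (z.1, 0)) + X (Sum.inr (Sum.inr i), (z.1, 1)) +
        X (Sum.inr (Sum.inr i), (z.1, 2)) else X (Sum.inr (Sum.inr i), z)))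
  have hΦ : ∀ p : κL ⊕ (κY ⊕ κR) → ν × Fin 3 → ℂ,
      ∃ p' : (κL ⊕ κO) ⊕ (κY ⊕ κR) → ν × Fin 3 → ℂ, ∀ i z,
        eval (fun x => p' x.1 x.2) (Φ i z) = p i z := by
    intro p
    refine ⟨Sum.elim (Sum.elim (fun i => p (Sum.inl i)) fun _ => 0) (Sum.elim
      (fun i z => if z.2 = 0 then p (Sum.inr (Sum.inl i)) (z.1, 0) - p (Sum.inr (Sum.inl i)) (z.1, 1)
        else p (Sum.inr (Sum.inl i)) z)
      (fun i z => if z.2 = 0 then p (Sum.inr (Sum.inr i)) (z.1, 0) - p (Sum.inr (Sum.inr i)) (z.1, 1) -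
        p (Sum.inr (Sum.inr i)) (z.1, 2) else p (Sum.inr (Sum.inr i)) z)), ?_⟩
    rintro (i | i | i) ⟨s, t⟩
    · simp [Φ]
    · by_cases ht : t = 0
      · subst ht
        simp [Φ]
      · simp [Φ, ht]
    · by_cases ht : t = 0
      · subst ht
        simp [Φ]
        ring
      · simp [Φ, ht]
  obtain ⟨P, hP1, hP2⟩ := ((gn_sub Φ hΦ (gn_gd (LSA β (A0 β j A)) (Sum.elim mL
    (Sum.elim (fun _ : κY => Kd.ord 2 I) fun _ : κR => Kd.ord 1 J)))).and
    (gn_gd (LSA β (A1 β j A)) (Sum.elim (Sum.elim (fun x => (mL x).add j) mO)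
      (Sum.elim (fun _ : κY => Kd.pr j I) fun _ : κR => Kd.tr j J)))).exists
  rw [← hP1, ← hP2]
  set Q : (κL ⊕ κO) ⊕ (κY × Fin 2 ⊕ κR × Fin 3) → ν × Fin 3 → ℂ :=
    Sum.elim (Sum.elim (fun i => mq β j (P (Sum.inl (Sum.inl i)))) fun i => P (Sum.inl (Sum.inr i)))
      (Sum.elim (fun i => pv β (Kd.pr j I) (if i.2 = 0 then 0 else 1) (P (Sum.inr (Sum.inl i.1))))
        fun i => pv β (Kd.tr j J) i.2 (P (Sum.inr (Sum.inr i.1)))) with hQ
  have hexA : ∀ e : {a // a ∈ A}, ∑ s, e.1 s = 4 := fun e => hA e.1 e.2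
  -- the conditions of the pairs and of the triples
  have hY : ∀ f ∈ (LSA β A).V (Sum.elim (Sum.elim mL mO) (Sum.elim
      (fun _ : κY × Fin 2 => Kd.ord 3 I) fun _ : κR × Fin 3 => Kd.ord 3 J)) Q, ∀ i : κY,
      Fat (fun e : {a // a ∈ A} => e.1) 3 (pt β (Kd.pr j I) 0 (P (Sum.inr (Sum.inl i)))) f ∧
      Fat (fun e : {a // a ∈ A} => e.1) 3 (pt β (Kd.pr j I) 1 (P (Sum.inr (Sum.inl i)))) f := by
    intro f hf i
    rw [mem_LSA] at hf
    have h1 := hf (Sum.inr (Sum.inl (i, 0))) 0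
    have h2 := hf (Sum.inr (Sum.inl (i, 1))) 0
    constructor
    · have h3 : pt β (Kd.ord 3 I) 0 (Q (Sum.inr (Sum.inl (i, 0)))) =
          pt β (Kd.pr j I) 0 (P (Sum.inr (Sum.inl i))) := by
        rw [hQ]
        exact pt_ord_pv β 3 j I 0 _
      have h4 : Fat (fun e : {a // a ∈ A} => e.1) 3
        (pt β (Kd.ord 3 I) 0 (Q (Sum.inr (Sum.inl (i, 0))))) f := h1
      rwa [h3] at h4
    · have h3 : pt β (Kd.ord 3 I) 0 (Q (Sum.inr (Sum.inl (i, 1)))) =
          pt β (Kd.pr j I) 1 (P (Sum.inr (Sum.inl i))) := by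
        rw [hQ]
        exact pt_ord_pv β 3 j I 1 _
      have h4 : Fat (fun e : {a // a ∈ A} => e.1) 3
        (pt β (Kd.ord 3 I) 0 (Q (Sum.inr (Sum.inl (i, 1))))) f := h2
      rwa [h3] at h4
  have hR : ∀ f ∈ (LSA β A).V (Sum.elim (Sum.elim mL mO) (Sum.elim
      (fun _ : κY × Fin 2 => Kd.ord 3 I) fun _ : κR × Fin 3 => Kd.ord 3 J)) Q, ∀ (i : κR) (x : Fin 3),
      Fat (fun e : {a // a ∈ A} => e.1) 3 (pt β (Kd.tr j J) x (P (Sum.inr (Sum.inr i)))) f := by
    intro f hf i x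
    rw [mem_LSA] at hf
    have h1 := hf (Sum.inr (Sum.inr (i, x))) 0
    have h3 : pt β (Kd.ord 3 J) 0 (Q (Sum.inr (Sum.inr (i, x)))) =
        pt β (Kd.tr j J) x (P (Sum.inr (Sum.inr i))) := by
      rw [hQ]
      exact pt_ord_tv β 3 j J x _
    have h4 : Fat (fun e : {a // a ∈ A} => e.1) 3
      (pt β (Kd.ord 3 J) 0 (Q (Sum.inr (Sum.inr (i, x))))) f := h1
    rwa [h3] at h4
  refine (gd_le _ _ Q).trans ?_
  refine finrank_split (fun e : {a // a ∈ A0 β j A} => (⟨e.1, (mem_filter.1 e.2).1⟩ : {a // a ∈ A}))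
    (fun e : {a // a ∈ A1 β j A} => (⟨e.1, (mem_filter.1 e.2).1⟩ : {a // a ∈ A})) ?_ _ _ _ ?_ ?_
  · intro e
    by_cases he : ∀ s ∈ Bj β j, e.1 s = 0
    · exact Or.inl ⟨⟨e.1, mem_filter.2 ⟨e.2, he⟩⟩, rfl⟩
    · exact Or.inr ⟨⟨e.1, mem_filter.2 ⟨e.2, he⟩⟩, rfl⟩
  · intro f hf
    have hY' := hY f hf
    have hR' := hR f hf
    rw [mem_LSA] at hf ⊢
    rintro (i | i | i)
    · have h1 : (fun z => eval (fun x : ((κL ⊕ κO) ⊕ (κY ⊕ κR)) × (ν × Fin 3) => P x.1 x.2)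
          (Φ (Sum.inl i) z)) = P (Sum.inl (Sum.inl i)) := by
        funext z
        simp [Φ]
      rw [h1]
      exact SatK_trace β j A (mL i) (P (Sum.inl (Sum.inl i))) f (hf (Sum.inl (Sum.inl i)))
    · obtain ⟨h1, h2⟩ := hY' i
      have h3 := fat_add2 _ hexA f _ _ h1 h2
      intro x
      by_cases hx : x = 0
      · subst hx
        refine Fat_trace β j A 2 f _ _ ?_ ?_ h3
        · intro s hs
          rw [mem_Bj] at hs
          simp [pt, msk, hs]
          split_ifs <;> ring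
        · intro s hs
          rw [mem_Bj] at hs
          simp [pt, msk, hs, Φ]
          split_ifs <;> ring
      · intro b hb
        exfalso
        have h4 : mu (Kd.ord 2 I) x = 0 := by simp [mu, hx]
        have h5 : ∑ s, b s < mu (Kd.ord 2 I) x := hb
        omega
    · have h3 := fat_add3 _ hexA f _ _ _ (hR' i 0) (hR' i 1) (hR' i 2)
      intro x
      by_cases hx : x = 0
      · subst hx
        refine Fat_trace β j A 1 f _ _ ?_ ?_ h3
        · intro s hs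
          rw [mem_Bj] at hs
          simp [pt, msk, hs]
          split_ifs <;> ring
        · intro s hs
          rw [mem_Bj] at hs
          simp [pt, msk, hs, Φ]
          split_ifs <;> ring
      · intro b hb
        exfalso
        have h4 : mu (Kd.ord 1 J) x = 0 := by simp [mu, hx]
        have h5 : ∑ s, b s < mu (Kd.ord 1 J) x := hb
        omega
  · intro f hf hf0
    have hf1 : ∀ e : {a // a ∈ A}, (∀ s ∈ Bj β j, e.1 s = 0) → f e = 0 :=
      fun e he => hf0 ⟨e.1, mem_filter.2 ⟨e.2, he⟩⟩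
    have hY' := hY f hf
    have hR' := hR f hf
    rw [mem_LSA] at hf ⊢
    rintro ((i | i) | i | i)
    · exact SatK_resid_add β j A (mL i) (P (Sum.inl (Sum.inl i))) f hf1 (hf (Sum.inl (Sum.inl i)))
    · exact SatK_resid β j A (mO i) (P (Sum.inl (Sum.inr i))) f hf1 (hf (Sum.inl (Sum.inr i)))
    · refine SatK_resid β j A (Kd.pr j I) (P (Sum.inr (Sum.inl i))) f hf1 ?_
      intro x
      rcases (by omega : x = 0 ∨ x = 1 ∨ x = 2) with h | h | h
      · subst h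
        exact (hY' i).1
      · subst h
        exact (hY' i).2
      · subst h
        intro b hb
        have h5 : ∑ s, b s < 0 := hb
        omega
    · exact SatK_resid β j A (Kd.tr j J) (P (Sum.inr (Sum.inr i))) f hf1 fun x => hR' i x

end

/-- The kind involves only the blocks `< l`. -/
def KOk (l : ℕ) : Kd → Prop
  | .ord _ I => ∀ x ∈ I, x < l
  | .pr i I => i < l ∧ ∀ x ∈ I, x < l
  | .tr i I => i < l ∧ ∀ x ∈ I, x < l

section

variable {ν ν' : Type} [Fintype ν] [DecidableEq ν] [Fintype ν'] [DecidableEq ν']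

theorem pt_xt {β : ν → ℕ} {β' : ν' → ℕ} {j : ℕ} {σ : ν' → ν}
    (hβ : ∀ x, ∀ i < j, β (σ x) = i ↔ β' x = i) (k : Kd) (hk : KOk j k) (x : Fin 3)
    (Q : ν × Fin 3 → ℂ) (q : ν' × Fin 3 → ℂ) (hQ : ∀ s t, Q (σ s, t) = q (s, t)) :
    (fun s => pt β k x Q (σ s)) = pt β' k x q := by
  have hm : ∀ (I : Finset ℕ), (∀ i ∈ I, i < j) → ∀ s, (β (σ s) ∈ I ↔ β' s ∈ I) := by
    intro I hI s
    constructor
    · intro h
      rwa [← (hβ s _ (hI _ h)).1 rfl] at h
    · intro h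
      rwa [← (hβ s _ (hI _ h)).2 rfl] at h
  funext s
  rcases k with ⟨μ, I⟩ | ⟨i, I⟩ | ⟨i, I⟩
  · have h1 := hm I hk s
    simp only [pt, msk, hQ, h1]
  · have h1 := hm I hk.2 s
    have h2 := hβ s i hk.1
    simp only [pt, msk, hQ, h1, h2]
  · have h1 := hm I hk.2 s
    have h2 := hβ s i hk.1
    simp only [pt, msk, hQ, h1, h2]

/-- The trace system in the remaining variables. -/
theorem gd_A0_leK {β : ν → ℕ} {β' : ν' → ℕ} {j : ℕ} {σ : ν' → ν}
    (hσ : Function.Injective σ) (him : ∀ s, (∃ x, σ x = s) ↔ β s ≠ j)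
    (hβ : ∀ x, ∀ i < j, β (σ x) = i ↔ β' x = i) {κ : Type} (m : κ → Kd)
    (hm : ∀ i, KOk j (m i)) :
    (LSA β (A0 β j (Ex β 4 j))).gd m ≤ (LS β' j).gd m := by
  obtain ⟨q, hq⟩ := gd_attained (LS β' j) m
  set Q : κ → ν × Fin 3 → ℂ := fun i z => Function.extend σ (fun x => q i (x, z.2)) 0 z.1 with hQ
  refine (gd_le _ _ Q).trans ?_
  rw [← hq]
  have e1 : ∀ i s t, Q i (σ s, t) = q i (s, t) := by
    intro i s t
    show Function.extend σ (fun x => q i (x, t)) 0 (σ s) = q i (s, t)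
    exact hσ.extend_apply _ _ s
  have key : ∀ (i : κ) (k : Kd) (f : {a // a ∈ A0 β j (Ex β 4 j)} → ℂ), KOk j k →
      SatK β k (Q i) f → SatK β' k (q i) fun a => f (xtE hσ him hβ a) := by
    intro i k f h2 h1 x
    have h4 := Pool.Agent.V7.Fat_xt hσ him hβ f _ (mu k x) (h1 x)
    rw [pt_xt hβ k h2 x (Q i) (q i) (e1 i)] at h4
    exact h4
  let L : (LSA β (A0 β j (Ex β 4 j))).V m Q →ₗ[ℂ] (LS β' j).V m q :=
    { toFun := fun f => ⟨fun a => f.1 (xtE hσ him hβ a), by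
        obtain ⟨f, hf⟩ := f
        rw [mem_LSA] at hf
        rw [mem_LSA]
        intro i
        exact key i (m i) f (hm i) (hf i)⟩
      map_add' := fun _ _ => rfl
      map_smul' := fun _ _ => rfl }
  refine LinearMap.finrank_le_finrank_of_injective (f := L) ?_
  intro f f' hff
  apply Subtype.ext
  funext e
  have h1 : xt σ (fun x => e.1 (σ x)) = e.1 := by
    refine Pool.Agent.V7.xt_comp hσ e.1 fun s hs => ?_
    refine (mem_filter.1 e.2).2 s (mem_Bj.2 ?_)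
    by_contra h2
    exact hs ((him s).2 h2)
  have h2 : (fun x => e.1 (σ x)) ∈ Ex β' 4 j :=
    (Pool.Agent.V7.mem_xt hσ him hβ _).1 (by rw [h1]; exact e.2)
  have h3 : f.1 (xtE hσ him hβ ⟨fun x => e.1 (σ x), h2⟩) =
      f'.1 (xtE hσ him hβ ⟨fun x => e.1 (σ x), h2⟩) :=
    congrFun (congrArg Subtype.val hff) ⟨fun x => e.1 (σ x), h2⟩
  have h4 : xtE hσ him hβ ⟨fun x => e.1 (σ x), h2⟩ = e := Subtype.ext h1
  rwa [h4] at h3

end

/-- The trace inequality for multisets. -/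
theorem gM_trK (c l n : ℕ) (hc : 1 ≤ c) (hn : (l + 1) * c ≤ n) (sL sO : Multiset Kd)
    (I J : Finset ℕ) (y r : ℕ) (hL : ∀ k ∈ sL, KOk l k) (hI : ∀ x ∈ I, x < l)
    (hJ : ∀ x ∈ J, x < l) :
    gM (LS (blk c n) l) ((sL + sO) + (Multiset.replicate (2 * y) (Kd.ord 3 I) +
      Multiset.replicate (3 * r) (Kd.ord 3 J))) ≤
      gM (LS (blk c (n - c)) l) (sL + (Multiset.replicate y (Kd.ord 2 I) +
        Multiset.replicate r (Kd.ord 1 J))) +
      gM (LS (blk c n) (l + 1)) ((sL.map (Kd.add l) + sO) + (Multiset.replicate y (Kd.pr l I) +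
        Multiset.replicate r (Kd.tr l J))) := by
  classical
  have hcn : c ≤ n := by nlinarith
  obtain ⟨mL, hmL, -⟩ := exists_conf (LS (blk c (n - c)) l) sL
  obtain ⟨mO, hmO, -⟩ := exists_conf (LS (blk c n) l) sO
  obtain ⟨hinj, him, hβ⟩ := Pool.Agent.V7.sg_facts c l n hc hn hcn
  have hLm : ∀ i, KOk l (mL i) := by
    intro i
    refine hL _ ?_
    rw [← hmL]
    exact Multiset.mem_map_of_mem _ (mem_univ i)
  have h1 := gd_A0_leK hinj him hβ (Sum.elim mL (Sum.elim (fun _ : Fin y => Kd.ord 2 I)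
    fun _ : Fin r => Kd.ord 1 J)) (by
      rintro (i | i | i)
      · exact hLm i
      · exact hI
      · exact hJ)
  have h2 := gd_trK (blk c n) l (Ex (blk c n) 4 l) (fun a ha => (Pool.Agent.V7.mem_Ex.1 ha).1)
    (κY := Fin y) (κR := Fin r) mL mO I J
  rw [Pool.Agent.V7.A1_Ex] at h2
  have c1 : Fintype.card (Fin y × Fin 2) = 2 * y := by
    rw [Fintype.card_prod, Fintype.card_fin, Fintype.card_fin, mul_comm]
  have c2 : Fintype.card (Fin r × Fin 3) = 3 * r := by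
    rw [Fintype.card_prod, Fintype.card_fin, Fintype.card_fin, mul_comm]
  rw [gd_eq_gM _ (Sum.elim (Sum.elim mL mO) _),
    gd_eq_gM _ (Sum.elim (Sum.elim (fun x => (mL x).add l) mO) _)] at h2
  simp only [map_elim, Pool.Agent.V7.ST.map_const, hmL, hmO, c1, c2, Fintype.card_fin] at h2
  have h3 : (univ : Finset (Fin sL.toList.length)).val.map (fun x => (mL x).add l) =
      sL.map (Kd.add l) := by
    have h4 := congrArg (Multiset.map (Kd.add l)) hmL
    rw [Multiset.map_map] at h4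
    exact h4
  rw [h3] at h2
  rw [gd_eq_gM (LS (blk c (n - c)) l)] at h1
  simp only [map_elim, Pool.Agent.V7.ST.map_const, hmL, Fintype.card_fin] at h1
  exact h2.trans (Nat.add_le_add_right h1 _)

/-- Fewer objects, a larger dimension. -/
theorem gM_anti {E ν T : Type} [Fintype E] (S : Sys E ν T) (s t : Multiset T) :
    gM S (s + t) ≤ gM S s := by
  induction t using Multiset.induction_on with
  | empty => rw [add_zero]
  | cons a t ih =>
    rw [Multiset.add_cons]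
    exact (gM_cons_le S _ a).trans ih

theorem step01 (c n : ℕ) (hc : 1 ≤ c) (hn : c ≤ n) (t' t'' y r d s : ℕ) :
    H0 c n (t' + t'' + 2 * y + 3 * r) d s ≤
      H0 c (n - c) t' y (s + r) + H1 c n ⟨t'', y, r, t', d, 0, 0⟩ := by
  have h := gM_trK c 0 n hc (by omega)
    (Multiset.replicate t' (Kd.ord 3 ∅) + Multiset.replicate s (Kd.ord 1 ∅))
    (Multiset.replicate t'' (Kd.ord 3 ∅) + Multiset.replicate d (Kd.ord 2 ∅)) ∅ ∅ y r
    (by
      intro k hk
      rw [Multiset.mem_add] at hk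
      rcases hk with hk | hk <;> rw [Multiset.eq_of_mem_replicate hk] <;>
        exact fun x hx => absurd hx (notMem_empty x))
    (fun x hx => absurd hx (notMem_empty x)) (fun x hx => absurd hx (notMem_empty x))
  have e1 : ms0 (t' + t'' + 2 * y + 3 * r) d s =
      ((Multiset.replicate t' (Kd.ord 3 ∅) + Multiset.replicate s (Kd.ord 1 ∅)) +
        (Multiset.replicate t'' (Kd.ord 3 ∅) + Multiset.replicate d (Kd.ord 2 ∅))) +
        (Multiset.replicate (2 * y) (Kd.ord 3 ∅) + Multiset.replicate (3 * r) (Kd.ord 3 ∅)) := by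
    unfold ms0
    rw [Multiset.replicate_add, Multiset.replicate_add, Multiset.replicate_add]
    ac_rfl
  have e2 : ms0 t' y (s + r) =
      (Multiset.replicate t' (Kd.ord 3 ∅) + Multiset.replicate s (Kd.ord 1 ∅)) +
        (Multiset.replicate y (Kd.ord 2 ∅) + Multiset.replicate r (Kd.ord 1 ∅)) := by
    unfold ms0
    rw [Multiset.replicate_add]
    ac_rfl
  unfold H0
  rw [e1, e2]
  refine h.trans (Nat.add_le_add_left ?_ _)
  unfold H1
  have e3 : ((Multiset.replicate t' (Kd.ord 3 ∅) + Multiset.replicate s (Kd.ord 1 ∅)).map (Kd.add 0) +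
      (Multiset.replicate t'' (Kd.ord 3 ∅) + Multiset.replicate d (Kd.ord 2 ∅))) +
        (Multiset.replicate y (Kd.pr 0 ∅) + Multiset.replicate r (Kd.tr 0 ∅)) =
      L1.ms ⟨t'', y, r, t', d, 0, 0⟩ + Multiset.replicate s (Kd.ord 1 {0}) := by
    have k1 : Kd.add 0 (Kd.ord 3 ∅) = Kd.ord 3 {0} := rfl
    have k2 : Kd.add 0 (Kd.ord 1 ∅) = Kd.ord 1 {0} := rfl
    rw [Multiset.map_add, Multiset.map_replicate, Multiset.map_replicate, k1, k2]
    unfold L1.ms
    simp only [Multiset.replicate_zero, add_zero]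
    ac_rfl
  rw [e3]
  exact gM_anti _ _ _

theorem step12 (c n : ℕ) (hc : 1 ≤ c) (hn : 2 * c ≤ n)
    (t' t'' p' p'' q' q'' u' u'' d' d'' w s y r : ℕ) :
    H1 c n ⟨t' + t'' + 3 * r, p' + p'', q' + q'', u' + u'' + 2 * y, d' + d'', w, s⟩ ≤
      H1 c (n - c) ⟨t', p', q', u', d', y, s + r⟩ +
        H2 c n ⟨t'', p'', q'', r, u'', y, t', p', q', u', d'', w, d'⟩ := by
  have h := gM_trK c 1 n hc (by omega)
    (Multiset.replicate t' (Kd.ord 3 ∅) + Multiset.replicate p' (Kd.pr 0 ∅) +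
      Multiset.replicate q' (Kd.tr 0 ∅) + Multiset.replicate u' (Kd.ord 3 {0}) +
      Multiset.replicate d' (Kd.ord 2 ∅) + Multiset.replicate s (Kd.ord 1 ∅))
    (Multiset.replicate t'' (Kd.ord 3 ∅) + Multiset.replicate p'' (Kd.pr 0 ∅) +
      Multiset.replicate q'' (Kd.tr 0 ∅) + Multiset.replicate u'' (Kd.ord 3 {0}) +
      Multiset.replicate d'' (Kd.ord 2 ∅) + Multiset.replicate w (Kd.ord 2 {0})) {0} ∅ y r
    (by
      have k0 : ∀ x ∈ (∅ : Finset ℕ), x < 1 := fun x hx => absurd hx (notMem_empty x)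
      have k1 : ∀ x ∈ ({0} : Finset ℕ), x < 1 := fun x hx => by
        rw [mem_singleton] at hx
        omega
      intro k hk
      simp only [Multiset.mem_add] at hk
      rcases hk with ((((hk | hk) | hk) | hk) | hk) | hk <;>
        rw [Multiset.eq_of_mem_replicate hk]
      · exact k0
      · exact ⟨by norm_num, k0⟩
      · exact ⟨by norm_num, k0⟩
      · exact k1
      · exact k0
      · exact k0)
    (fun x hx => by
      rw [mem_singleton] at hx
      omega) (fun x hx => absurd hx (notMem_empty x))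
  unfold H1
  have e1 : L1.ms ⟨t' + t'' + 3 * r, p' + p'', q' + q'', u' + u'' + 2 * y, d' + d'', w, s⟩ =
      ((Multiset.replicate t' (Kd.ord 3 ∅) + Multiset.replicate p' (Kd.pr 0 ∅) +
      Multiset.replicate q' (Kd.tr 0 ∅) + Multiset.replicate u' (Kd.ord 3 {0}) +
      Multiset.replicate d' (Kd.ord 2 ∅) + Multiset.replicate s (Kd.ord 1 ∅)) +
      (Multiset.replicate t'' (Kd.ord 3 ∅) + Multiset.replicate p'' (Kd.pr 0 ∅) +
      Multiset.replicate q'' (Kd.tr 0 ∅) + Multiset.replicate u'' (Kd.ord 3 {0}) +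
      Multiset.replicate d'' (Kd.ord 2 ∅) + Multiset.replicate w (Kd.ord 2 {0}))) +
      (Multiset.replicate (2 * y) (Kd.ord 3 {0}) + Multiset.replicate (3 * r) (Kd.ord 3 ∅)) := by
    unfold L1.ms
    simp only [Multiset.replicate_add]
    ac_rfl
  have e2 : L1.ms ⟨t', p', q', u', d', y, s + r⟩ =
      (Multiset.replicate t' (Kd.ord 3 ∅) + Multiset.replicate p' (Kd.pr 0 ∅) +
      Multiset.replicate q' (Kd.tr 0 ∅) + Multiset.replicate u' (Kd.ord 3 {0}) +
      Multiset.replicate d' (Kd.ord 2 ∅) + Multiset.replicate s (Kd.ord 1 ∅)) +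
      (Multiset.replicate y (Kd.ord 2 {0}) + Multiset.replicate r (Kd.ord 1 ∅)) := by
    unfold L1.ms
    simp only [Multiset.replicate_add]
    ac_rfl
  rw [e1, e2]
  refine h.trans (Nat.add_le_add_left ?_ _)
  unfold H2
  have k5 : (insert 1 {0} : Finset ℕ) = {0, 1} := by decide
  have e3 : ((Multiset.replicate t' (Kd.ord 3 ∅) + Multiset.replicate p' (Kd.pr 0 ∅) +
      Multiset.replicate q' (Kd.tr 0 ∅) + Multiset.replicate u' (Kd.ord 3 {0}) +
      Multiset.replicate d' (Kd.ord 2 ∅) + Multiset.replicate s (Kd.ord 1 ∅)).map (Kd.add 1) +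
      (Multiset.replicate t'' (Kd.ord 3 ∅) + Multiset.replicate p'' (Kd.pr 0 ∅) +
      Multiset.replicate q'' (Kd.tr 0 ∅) + Multiset.replicate u'' (Kd.ord 3 {0}) +
      Multiset.replicate d'' (Kd.ord 2 ∅) + Multiset.replicate w (Kd.ord 2 {0}))) +
        (Multiset.replicate y (Kd.pr 1 {0}) + Multiset.replicate r (Kd.tr 1 ∅)) =
      L2.ms ⟨t'', p'', q'', r, u'', y, t', p', q', u', d'', w, d'⟩ +
        Multiset.replicate s (Kd.ord 1 {1}) := by
    have k1 : Kd.add 1 (Kd.ord 3 ∅) = Kd.ord 3 {1} := rfl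
    have k2 : Kd.add 1 (Kd.ord 1 ∅) = Kd.ord 1 {1} := rfl
    have k3 : Kd.add 1 (Kd.ord 2 ∅) = Kd.ord 2 {1} := rfl
    have k4 : Kd.add 1 (Kd.pr 0 ∅) = Kd.pr 0 {1} := rfl
    have k6 : Kd.add 1 (Kd.tr 0 ∅) = Kd.tr 0 {1} := rfl
    have k7 : Kd.add 1 (Kd.ord 3 {0}) = Kd.ord 3 {0, 1} := by
      show Kd.ord 3 (insert 1 {0}) = Kd.ord 3 {0, 1}
      rw [k5]
    simp only [Multiset.map_add, Multiset.map_replicate, k1, k2, k3, k4, k6, k7]
    unfold L2.ms
    simp only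
    ac_rfl
  rw [e3]
  exact gM_anti _ _ _

end Pool.Agent.KZ
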