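import Pool.Agent.V7.Defs
import Pool.Agent.V7.ST.Ms
import Pool.Agent.V7.Top.Inp

/-!
# KZ4: definitions (triple points in degree 4)

Notes 4009, 4010, 4011, 4015.  Quartic forms, level `j` = all monomials meet the blocks `0, …, j - 1`
of variables (blocks of size `c`, `blk c n`).  Kinds of objects, `I` = set of the blocks on which the
points vanish:

* `ord μ I`: a point of multiplicity `μ`;
* `pr i I`: two triple points `q, q'` with `q + q' = 0` on the block `i`;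
* `tr i I`: three triple points `q, q', q''` with `q + q' + q'' = 0` on the block `i`.

A position of an object is a function on `ν × Fin 3` (three vectors).
`L1`, `L2` are configurations on the levels `1`, `2`, `v0`, `v1`, `v2` the virtual dimensions
(with the relations of the pairs of triple points), `H0`, `H1`, `H2` the general dimensions.
-/

set_option autoImplicit false
set_option linter.unusedSectionVars false

namespace Pool.Agent.KZ

open Finset MvPolynomial Pool.Agent.H51.TB Pool.Agent.H54.V7 Pool.Agent.V7.ST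
open Pool.Agent.H18.Ex (tcr)
open Pool.Agent.V7 (msk Ex blk)

/-- The kinds of objects. -/
inductive Kd : Type
  | ord (μ : ℕ) (I : Finset ℕ) : Kd
  | pr (i : ℕ) (I : Finset ℕ) : Kd
  | tr (i : ℕ) (I : Finset ℕ) : Kd
  deriving DecidableEq

/-- The kind of an object which lies on the subspace `L_j` too. -/
def Kd.add (j : ℕ) : Kd → Kd
  | .ord μ I => .ord μ (insert j I)
  | .pr i I => .pr i (insert j I)
  | .tr i I => .tr i (insert j I)

/-- The multiplicities of the (at most three) points of an object. -/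
def mu : Kd → Fin 3 → ℕ
  | .ord μ _, x => if x = 0 then μ else 0
  | .pr _ _, x => if x = 2 then 0 else 3
  | .tr _ _, _ => 3

section

variable {ν : Type} [Fintype ν] [DecidableEq ν]

/-- The points of an object at a position. -/
def pt {R : Type} [CommRing R] (β : ν → ℕ) : Kd → Fin 3 → (ν × Fin 3 → R) → ν → R
  | .ord _ I, _, q => msk β I fun s => q (s, 0)
  | .pr i I, x, q => msk β I fun s =>
      if x = 0 then q (s, 0) else if β s = i then - q (s, 0) else q (s, 1)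
  | .tr i I, x, q => msk β I fun s =>
      if x = 2 then (if β s = i then - (q (s, 0) + q (s, 1)) else q (s, 2)) else q (s, x)

/-- The indices of the conditions of a kind. -/
abbrev Rk (ν : Type) [Fintype ν] (k : Kd) : Type :=
  {r : Fin 3 × (ν → ℕ) // ∑ s, r.2 s < mu k r.1}

theorem finite_Rk (k : Kd) : Finite (Rk ν k) := by
  have h0 : {f : ν → ℕ | ∀ i, f i ∈ Set.Iic (∑ x, mu k x)}.Finite :=
    Set.Finite.pi' fun _ => Set.finite_Iic _
  have h1 : {r : Fin 3 × (ν → ℕ) | ∑ s, r.2 s < mu k r.1} ⊆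
      (Set.univ : Set (Fin 3)) ×ˢ {f : ν → ℕ | ∀ i, f i ∈ Set.Iic (∑ x, mu k x)} := by
    rintro ⟨x, b⟩ hb
    refine ⟨Set.mem_univ _, fun i => ?_⟩
    have h2 : b i ≤ ∑ s, b s := single_le_sum (f := b) (fun _ _ => Nat.zero_le _) (mem_univ i)
    have h3 : mu k x ≤ ∑ x, mu k x :=
      single_le_sum (f := mu k) (fun _ _ => Nat.zero_le _) (mem_univ x)
    have h4 : ∑ s, b s < mu k x := hb
    show b i ≤ ∑ x, mu k x
    omega
  exact ((Set.finite_univ.prod h0).subset h1).to_subtype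

/-- The system of the forms with the exponents `A`. -/
noncomputable def LSA (β : ν → ℕ) (A : Finset (ν → ℕ)) : Sys {a // a ∈ A} (ν × Fin 3) Kd where
  R := Rk ν
  fin := finite_Rk
  co := fun k r e => tcr (pt β k r.1.1 fun s => (X s : MvPolynomial (ν × Fin 3) ℂ)) e.1 r.1.2

/-- The system of the level `j`: quartic forms which vanish on `L_0, …, L_{j - 1}`. -/
noncomputable abbrev LS (β : ν → ℕ) (j : ℕ) : Sys {a // a ∈ Ex β 4 j} (ν × Fin 3) Kd :=
  LSA β (Ex β 4 j)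

/-- The conditions of an object of kind `k` at the position `q`. -/
def SatK (β : ν → ℕ) {A : Finset (ν → ℕ)} (k : Kd) (q : ν × Fin 3 → ℂ)
    (f : {a // a ∈ A} → ℂ) : Prop :=
  ∀ x : Fin 3, Fat (fun e : {a // a ∈ A} => e.1) (mu k x) (pt β k x q) f

theorem eval_tcr_pt (β : ν → ℕ) (k : Kd) (x : Fin 3) (q : ν × Fin 3 → ℂ) (e b : ν → ℕ) :
    eval q (tcr (pt β k x fun s => (X s : MvPolynomial (ν × Fin 3) ℂ)) e b) =
      tcr (pt β k x q) e b := by
  unfold tcr
  rw [map_prod]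
  refine prod_congr rfl fun s _ => ?_
  rw [map_mul, map_pow, map_natCast]
  congr 2
  rcases k with ⟨μ, I⟩ | ⟨i, I⟩ | ⟨i, I⟩
  · simp only [pt, msk]
    split_ifs
    · rw [map_zero]
    · rw [eval_X]
  · simp only [pt, msk]
    split_ifs
    · rw [map_zero]
    · rw [eval_X]
    · rw [map_neg, eval_X]
    · rw [eval_X]
  · simp only [pt, msk]
    split_ifs
    · rw [map_zero]
    · rw [map_neg, map_add, eval_X, eval_X]
    · rw [eval_X]
    · rw [eval_X]

theorem mem_LSA (β : ν → ℕ) (A : Finset (ν → ℕ)) {κ : Type} (m : κ → Kd)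
    (p : κ → ν × Fin 3 → ℂ) (f : {a // a ∈ A} → ℂ) :
    f ∈ (LSA β A).V m p ↔ ∀ i, SatK β (m i) (p i) f := by
  rw [Sys.mem_V]
  refine forall_congr' fun i => ?_
  show (∀ r : Rk ν (m i), ∑ e : {a // a ∈ A},
    eval (p i) (tcr (pt β (m i) r.1.1 fun s => X s) e.1 r.1.2) * f e = 0) ↔ _
  simp only [eval_tcr_pt]
  constructor
  · intro h x b hb
    rw [← h ⟨(x, b), hb⟩]
    exact sum_congr rfl fun e _ => mul_comm _ _
  · intro h r
    rw [← h r.1.1 r.1.2 r.2]
    exact sum_congr rfl fun e _ => mul_comm _ _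

end

/-! ### Configurations -/

/-- Numbers of the objects on the level `1`: `t`, `p`, `q` = triple points, pairs, triples off `L_0`
(`ord 3 ∅`, `pr 0 ∅`, `tr 0 ∅`), `u` triple points on `L_0`, `d` double points off `L_0`, `w` double
points on `L_0`, `s` simple points. -/
structure L1 where
  t : ℕ
  p : ℕ
  q : ℕ
  u : ℕ
  d : ℕ
  w : ℕ
  s : ℕ

/-- Numbers of the objects on the level `2`: off `L_0`, `L_1`: `t` triple points, `p` = `pr 0 ∅`,
`q` = `tr 0 ∅`, `r` = `tr 1 ∅`; on `L_0`: `u` triple points, `pu` = `pr 1 {0}`; on `L_1`: `y` triple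
points, `py` = `pr 0 {1}`, `qy` = `tr 0 {1}`; `x` triple points on `L_0` and `L_1`; double points
`d`, `w` (on `L_0`), `z` (on `L_1`). -/
structure L2 where
  t : ℕ
  p : ℕ
  q : ℕ
  r : ℕ
  u : ℕ
  pu : ℕ
  y : ℕ
  py : ℕ
  qy : ℕ
  x : ℕ
  d : ℕ
  w : ℕ
  z : ℕ

/-- The configuration of `t` triple, `d` double and `s` simple points. -/
def ms0 (t d s : ℕ) : Multiset Kd :=
  Multiset.replicate t (.ord 3 ∅) + Multiset.replicate d (.ord 2 ∅) +
    Multiset.replicate s (.ord 1 ∅)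

def L1.ms (a : L1) : Multiset Kd :=
  Multiset.replicate a.t (.ord 3 ∅) + Multiset.replicate a.p (.pr 0 ∅) +
    Multiset.replicate a.q (.tr 0 ∅) + Multiset.replicate a.u (.ord 3 {0}) +
    Multiset.replicate a.d (.ord 2 ∅) + Multiset.replicate a.w (.ord 2 {0}) +
    Multiset.replicate a.s (.ord 1 ∅)

def L2.ms (a : L2) : Multiset Kd :=
  Multiset.replicate a.t (.ord 3 ∅) + Multiset.replicate a.p (.pr 0 ∅) +
    Multiset.replicate a.q (.tr 0 ∅) + Multiset.replicate a.r (.tr 1 ∅) +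
    Multiset.replicate a.u (.ord 3 {0}) + Multiset.replicate a.pu (.pr 1 {0}) +
    Multiset.replicate a.y (.ord 3 {1}) + Multiset.replicate a.py (.pr 0 {1}) +
    Multiset.replicate a.qy (.tr 0 {1}) + Multiset.replicate a.x (.ord 3 {0, 1}) +
    Multiset.replicate a.d (.ord 2 ∅) + Multiset.replicate a.w (.ord 2 {0}) +
    Multiset.replicate a.z (.ord 2 {1})

/-- The general dimensions. -/
noncomputable def H0 (c n t d s : ℕ) : ℕ := gM (LS (blk c n) 0) (ms0 t d s)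

noncomputable def H1 (c n : ℕ) (a : L1) : ℕ := gM (LS (blk c n) 1) a.ms

noncomputable def H2 (c n : ℕ) (a : L2) : ℕ := gM (LS (blk c n) 2) a.ms

/-! ### Virtual dimensions -/

/-- The number of monomials of degree `k` in `n` variables. -/
abbrev mc (n k : ℕ) : ℤ := (Nat.multichoose n k : ℤ)

def v0 (n t d s : ℕ) : ℤ := mc n 4 - t * mc n 2 + (t.choose 2 : ℤ) - d * n - s

/-- The number of all triple points off `L_0`. -/
def L1.T (a : L1) : ℕ := a.t + 2 * a.p + 3 * a.q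

/-- The conditions of a triple point on `L_0`. -/
def dl (c n : ℕ) : ℤ := mc n 2 - mc (n - c) 2

def v1 (c n : ℕ) (a : L1) : ℤ :=
  (mc n 4 - mc (n - c) 4) - a.T * mc n 2 - a.u * dl c n + a.p * ((n : ℤ) - c) + a.q - a.d * n
    - a.w * c - a.s + (a.T.choose 2 : ℤ) + a.T * a.u

/-- The numbers of all triple points off `L_0` and `L_1`, on `L_0` only, on `L_1` only. -/
def L2.T (a : L2) : ℕ := a.t + 2 * a.p + 3 * a.q + 3 * a.r

def L2.U (a : L2) : ℕ := a.u + 2 * a.pu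

def L2.Y (a : L2) : ℕ := a.y + 2 * a.py + 3 * a.qy

def v2 (c n : ℕ) (a : L2) : ℤ :=
  (mc n 4 - 2 * mc (n - c) 4 + mc (n - 2 * c) 4) - a.T * mc n 2 - (a.U + a.Y) * dl c n
    - a.x * (c : ℤ) ^ 2 + a.p * ((n : ℤ) - c) + a.q + a.r + (a.pu + a.py) * c - a.d * n
    - (a.w + a.z) * c + (a.T.choose 2 : ℤ) + a.T * (a.U + a.Y + a.x) + a.U * a.Y

/-! ### Classes -/

/-- `x = 1 - √(2/3)`. -/
noncomputable def xx : ℝ := 1 - Real.sqrt (2 / 3)

/-- The bounds for the numbers of the small kinds on the level `1`. -/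
structure Sm1 (n : ℕ) (a : L1) : Prop where
  p : 50 * a.p ≤ 21 * n
  q : 10 * a.q ≤ 11 * n
  d : 100 * a.d ≤ 43 * n
  w : 10 * a.w ≤ 9 * n

/-- The class on the level `1` (nothing is required for the number `u`). -/
structure Cls1 (c n : ℕ) (e : ℝ) (a : L1) : Prop extends Sm1 n a where
  T : |(a.T : ℝ) - xx * c * n| ≤ e * n

/-- The bounds for the numbers of the small kinds on the level `2`. -/
structure Sm2 (c n : ℕ) (a : L2) : Prop where
  p : 50 * a.p ≤ 21 * c + 50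
  q : 10 * a.q ≤ 11 * c + 10
  r : a.r ≤ c
  d : 100 * a.d ≤ 43 * c + 100
  py : 50 * a.py ≤ 21 * n
  qy : 10 * a.qy ≤ 11 * n
  z : 100 * a.z ≤ 43 * n
  pu : 100 * a.pu ≤ 83 * n
  w : 10 * a.w ≤ 9 * n

/-- The class on the level `2` without the points on `L_0` and `L_1`; `k = 5` or `6`. -/
structure Cls2' (c n : ℕ) (e : ℝ) (k : ℕ) (a : L2) : Prop extends Sm2 c n a where
  T : k * a.T = c ^ 2
  U : |(a.U : ℝ) - (3 * xx - 1 / k) / 2 * c * n| ≤ e * n
  Y : |(a.Y : ℝ) - xx * c * n| ≤ e * n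

/-- The class on the level `2`. -/
structure Cls2 (c n : ℕ) (e : ℝ) (k : ℕ) (a : L2) : Prop extends Cls2' c n e k a where
  x : |(a.x : ℝ) - xx / 2 * (n : ℝ) ^ 2| ≤ e * (n : ℝ) ^ 2

/-! ### The main statements -/

/-- Exactness on the level `2`. -/
def PROP2 (c : ℕ) : Prop := ∃ e : ℝ, 0 < e ∧ ∃ n₀ : ℕ, ∀ n, n₀ ≤ n → ∀ k, (k = 5 ∨ k = 6) →
  ∀ a : L2, Cls2 c n e k a → (H2 c n a : ℤ) ≤ max 0 (v2 c n a)

/-- Exactness on the level `2` without the points on `L_0` and `L_1`. -/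
def ALPHA2 (c : ℕ) : Prop := ∃ e : ℝ, 0 < e ∧ ∃ n₀ : ℕ, ∀ n, n₀ ≤ n → ∀ k, (k = 5 ∨ k = 6) →
  ∀ a : L2, Cls2' c n e k a → a.x = 0 → (H2 c n a : ℤ) ≤ v2 c n a

/-- Exactness on the level `1`. -/
def PROP1 (c : ℕ) : Prop := ∃ e : ℝ, 0 < e ∧ ∃ n₀ : ℕ, ∀ n, n₀ ≤ n →
  ∀ a : L1, Cls1 c n e a → a.s = 0 → (H1 c n a : ℤ) ≤ max 0 (v1 c n a)

/-- Exactness on the level `1` without the triple points on `L_0`. -/
def ALPHA1 (c : ℕ) : Prop := ∃ e : ℝ, 0 < e ∧ ∃ n₀ : ℕ, ∀ n, n₀ ≤ n →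
  ∀ a : L1, Cls1 c n e a → a.u = 0 → a.s = 0 → (H1 c n a : ℤ) ≤ v1 c n a

/-- Exactness on the level `0`. -/
def PROP0 (c : ℕ) : Prop := ∃ n₀ : ℕ, ∀ n, n₀ ≤ n → ∀ t d : ℕ, 50 * d ≤ 21 * n → 6 * t ≤ n ^ 2 →
  (H0 c n t d 0 : ℤ) ≤ max 0 (v0 n t d 0)

/-- The slopes at (and near) some position of a configuration of the level `2` without points on
`L_0` and `L_1`. -/
def BETA (c : ℕ) : Prop := ∃ δ : ℝ, 0 < δ ∧ ∃ e : ℝ, 0 < e ∧ ∃ n₀ : ℕ, ∀ n, n₀ ≤ n →
  ∀ (m : ℕ) (φ : (Fin 2 × Fin c) ⊕ Fin m ≃ Fin n), Pool.Agent.V7.Top.IsB φ (blk c n) →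
  ∀ k, (k = 5 ∨ k = 6) → ∀ a : L2, Cls2' c n e k a → a.x = 0 →
  ∀ (κ : Type) [Fintype κ] (rest : κ → Kd), (univ : Finset κ).val.map rest = a.ms →
    ∃ p₁ : κ → Fin n × Fin 3 → ℂ, ∀ᶠ p in nhds p₁, ∀ F : Submodule ℂ ((Fin 2 → Fin c) → ℂ),
      F ≠ ⊥ → Module.finrank ℂ F + a.T < c ^ 2 →
        (Module.finrank ℂ (Pool.Agent.V7.Top.SF φ ((LS (blk c n) 2).V rest p) F) : ℝ) ≤
          (1 - δ) * Module.finrank ℂ F * (xx / 2 * (n : ℝ) ^ 2)

end Pool.Agent.KZ
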