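import Pool.Agent.KZ.Defs

/-!
# KZ4: simple points, monotonicity, convexity

A general simple point imposes one condition on a nonzero system (`V7`: `Kd.sm`); convexity:
`gM_submod`.
-/

set_option autoImplicit false
set_option linter.unusedSectionVars false

namespace Pool.Agent.KZ

open Finset MvPolynomial Pool.Agent.H51.TB Pool.Agent.H54.V7 Pool.Agent.V7.ST
open Pool.Agent.H18.Ex (tcr)
open Pool.Agent.V7 (msk Ex blk)

section

variable {ν : Type} [Fintype ν] [DecidableEq ν] (β : ν → ℕ) (A : Finset (ν → ℕ))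

theorem fat_zero (q : ν → ℂ) (f : {a // a ∈ A} → ℂ) :
    Fat (fun e : {a // a ∈ A} => e.1) 0 q f := fun _ hb => absurd hb (Nat.not_lt_zero _)

theorem fat_one (q : ν → ℂ) (f : {a // a ∈ A} → ℂ) :
    Fat (fun e : {a // a ∈ A} => e.1) 1 q f ↔ ∑ e : {a // a ∈ A}, f e * ∏ s, q s ^ e.1 s = 0 := by
  have key : ∀ e : {a // a ∈ A}, tcr q e.1 (fun _ => 0) = ∏ s, q s ^ e.1 s := by
    intro e
    unfold tcr
    refine prod_congr rfl fun s _ => ?_
    rw [Nat.choose_zero_right, Nat.cast_one, one_mul, Nat.sub_zero]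
  constructor
  · intro h
    have h1 := h (fun _ => 0) (by simp)
    simp only [key] at h1
    exact h1
  · intro h b hb
    have hb0 : b = fun _ => 0 := by
      funext s
      have h1 : b s ≤ ∑ s, b s := single_le_sum (f := b) (fun _ _ => Nat.zero_le _) (mem_univ s)
      show b s = 0
      omega
    rw [hb0]
    simp only [key]
    exact h

/-- The condition of a simple point. -/
theorem satK_sm (q : ν × Fin 3 → ℂ) (f : {a // a ∈ A} → ℂ) :
    SatK β (.ord 1 ∅) q f ↔ ∑ e : {a // a ∈ A}, f e * ∏ s, q (s, 0) ^ e.1 s = 0 := by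
  have h0 : pt β (.ord 1 ∅) 0 q = fun s => q (s, 0) := by
    funext s
    show msk β ∅ (fun s => q (s, 0)) s = q (s, 0)
    unfold msk
    rw [if_neg (Finset.notMem_empty _)]
  constructor
  · intro h
    have h1 := h 0
    have h2 : mu (.ord 1 ∅) 0 = 1 := rfl
    rw [h2, h0, fat_one] at h1
    exact h1
  · intro h x
    by_cases hx : x = 0
    · subst hx
      have h2 : mu (.ord 1 ∅) 0 = 1 := rfl
      rw [h2, h0, fat_one]
      exact h
    · have h2 : mu (.ord 1 ∅) x = 0 := if_neg hx
      rw [h2]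
      exact fat_zero A _ f

/-- A simple point imposes at most one condition. -/
theorem size_sm_le : (LSA β A).size (.ord 1 ∅) ≤ 1 := by
  obtain ⟨p, hp⟩ := gd_attained (LSA β A) fun _ : Unit => Kd.ord 1 ∅
  let L : ({a // a ∈ A} → ℂ) →ₗ[ℂ] ℂ :=
    ∑ e : {a // a ∈ A}, (∏ s, p () (s, 0) ^ e.1 s) • LinearMap.proj e
  have hL : ∀ f, L f = ∑ e : {a // a ∈ A}, f e * ∏ s, p () (s, 0) ^ e.1 s := by
    intro f
    simp only [L, LinearMap.sum_apply, LinearMap.smul_apply, LinearMap.proj_apply, smul_eq_mul]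
    exact sum_congr rfl fun e _ => mul_comm _ _
  have h1 : LinearMap.ker L ≤ (LSA β A).V (fun _ : Unit => Kd.ord 1 ∅) p := by
    intro f hf
    rw [LinearMap.mem_ker, hL] at hf
    rw [mem_LSA]
    rintro ⟨⟩
    rw [satK_sm]
    exact hf
  have h2 := Submodule.finrank_mono h1
  have h3 := LinearMap.finrank_range_add_finrank_ker L
  have h4 : Module.finrank ℂ (LinearMap.range L) ≤ 1 := by
    refine (Submodule.finrank_le _).trans ?_
    rw [Module.finrank_self]
  rw [Module.finrank_fintype_fun_eq_card] at h3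
  unfold Sys.size
  omega

/-- A nonzero form does not vanish at a general point. -/
theorem exists_ne_zero {f : {a // a ∈ A} → ℂ} (hf : f ≠ 0) :
    ∃ q : ν → ℂ, ∑ e : {a // a ∈ A}, f e * ∏ s, q s ^ e.1 s ≠ 0 := by
  classical
  let P : MvPolynomial ν ℂ :=
    ∑ e : {a // a ∈ A}, monomial (Finsupp.equivFunOnFinite.symm e.1) (f e)
  have hP : P ≠ 0 := by
    intro h0
    apply hf
    funext e₀
    have h1 : coeff (Finsupp.equivFunOnFinite.symm e₀.1) P = f e₀ := by
      simp only [P]
      rw [coeff_sum, sum_eq_single e₀]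
      · rw [coeff_monomial, if_pos rfl]
      · intro e _ he
        rw [coeff_monomial, if_neg]
        intro h
        exact he (Subtype.ext (Finsupp.equivFunOnFinite.symm.injective h))
      · intro h
        exact absurd (mem_univ _) h
    rw [h0, coeff_zero] at h1
    exact h1.symm
  by_contra hcon
  push Not at hcon
  apply hP
  refine MvPolynomial.funext fun q => ?_
  rw [map_zero]
  simp only [P]
  rw [map_sum, ← hcon q]
  refine sum_congr rfl fun e _ => ?_
  rw [eval_monomial, Finsupp.prod_fintype]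
  · rfl
  · intro s
    rw [pow_zero]

/-- A simple point imposes a condition, unless the dimension is `0`. -/
theorem gd_ad_sm_lt {κ : Type} [Fintype κ] (m : κ → Kd) (h : 0 < (LSA β A).gd m) :
    (LSA β A).gd (ad m (.ord 1 ∅)) < (LSA β A).gd m := by
  obtain ⟨p, hp⟩ := gd_attained (LSA β A) m
  have hne : (LSA β A).V m p ≠ ⊥ := by
    intro h0
    rw [h0, finrank_bot] at hp
    omega
  obtain ⟨f, hf, hf0⟩ := Submodule.exists_mem_ne_zero_of_ne_bot hne
  obtain ⟨q, hq⟩ := exists_ne_zero A hf0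
  obtain ⟨r, hr⟩ : ∃ r : Unit → ν × Fin 3 → ℂ, ∀ s, r () (s, 0) = q s :=
    ⟨fun _ x => q x.1, fun s => rfl⟩
  have h1 := gd_le (LSA β A) (ad m (.ord 1 ∅)) (Sum.elim p r)
  refine h1.trans_lt ?_
  rw [← hp]
  refine Submodule.finrank_lt_finrank_of_lt ?_
  unfold ad
  rw [V_elim]
  refine lt_of_le_of_ne inf_le_left fun heq => hq ?_
  have h2 : f ∈ (LSA β A).V (fun _ : Unit => Kd.ord 1 ∅) r := by
    rw [← heq] at hf
    exact (Submodule.mem_inf.1 hf).2
  rw [mem_LSA] at h2
  have h4 := (satK_sm β A _ f).1 (h2 ())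
  simp only [hr] at h4
  exact h4

/-- One simple point. -/
theorem gM_cons_sm (s : Multiset Kd) :
    gM (LSA β A) (.ord 1 ∅ ::ₘ s) = gM (LSA β A) s - 1 := by
  have h1 := gM_cons_le (LSA β A) s (.ord 1 ∅)
  have h2 := gM_le_cons (LSA β A) s (.ord 1 ∅)
  have h3 := size_sm_le β A
  rcases Nat.eq_zero_or_pos (gM (LSA β A) s) with h0 | h0
  · omega
  · obtain ⟨m, hm, h⟩ := exists_conf (LSA β A) s
    have h4 := gd_ad_sm_lt β A m (by rw [h]; exact h0)
    rw [gd_eq_gM (LSA β A) (ad m (.ord 1 ∅)), map_ad, hm, h] at h4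
    omega

/-- `a` simple points impose `a` conditions. -/
theorem gM_add_sm (s : Multiset Kd) (a : ℕ) :
    gM (LSA β A) (s + Multiset.replicate a (.ord 1 ∅)) = gM (LSA β A) s - a := by
  induction a with
  | zero => rw [Multiset.replicate_zero, Multiset.add_zero, Nat.sub_zero]
  | succ a ih =>
    rw [Multiset.replicate_succ, Multiset.add_cons, gM_cons_sm, ih]
    omega

theorem gM_add_le (s t : Multiset Kd) : gM (LSA β A) (s + t) ≤ gM (LSA β A) s := by
  induction t using Multiset.induction_on with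
  | empty => rw [Multiset.add_zero]
  | cons x t ih =>
    rw [Multiset.add_cons]
    exact (gM_cons_le _ _ _).trans ih

end

theorem ms0_s (t d s s' : ℕ) : ms0 t d (s + s') = ms0 t d s + Multiset.replicate s' (.ord 1 ∅) := by
  unfold ms0
  rw [Multiset.replicate_add]
  abel

theorem ms1_s (a : L1) (s' : ℕ) :
    ({ a with s := a.s + s' } : L1).ms = a.ms + Multiset.replicate s' (.ord 1 ∅) := by
  unfold L1.ms
  dsimp only
  rw [Multiset.replicate_add]
  abel

theorem ms0_t (t d s k : ℕ) : ms0 (t + k) d s = ms0 t d s + Multiset.replicate k (.ord 3 ∅) := by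
  unfold ms0
  rw [Multiset.replicate_add]
  abel

theorem ms1_u (a : L1) (k : ℕ) :
    ({ a with u := a.u + k } : L1).ms = a.ms + Multiset.replicate k (.ord 3 {0}) := by
  unfold L1.ms
  dsimp only
  rw [Multiset.replicate_add]
  abel

theorem H0_s (c n t d s s' : ℕ) : H0 c n t d (s + s') = H0 c n t d s - s' := by
  unfold H0
  rw [ms0_s]
  exact gM_add_sm (blk c n) _ _ _

theorem H1_s (c n : ℕ) (a : L1) (s' : ℕ) : H1 c n { a with s := a.s + s' } = H1 c n a - s' := by
  unfold H1
  rw [ms1_s]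
  exact gM_add_sm (blk c n) _ _ _

theorem H0_mono (c n t d s k : ℕ) : H0 c n (t + k) d s ≤ H0 c n t d s := by
  unfold H0
  rw [ms0_t]
  exact gM_add_le (blk c n) _ _ _

theorem H1_mono (c n : ℕ) (a : L1) (k : ℕ) : H1 c n { a with u := a.u + k } ≤ H1 c n a := by
  unfold H1
  rw [ms1_u]
  exact gM_add_le (blk c n) _ _ _

theorem H1_convex (c n : ℕ) (a : L1) :
    2 * H1 c n { a with u := a.u + 1 } ≤ H1 c n a + H1 c n { a with u := a.u + 2 } := by
  have h := gM_submod (LS (blk c n) 1) a.ms (.ord 3 {0}) (.ord 3 {0})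
  have h1 : ({ a with u := a.u + 1 } : L1).ms = .ord 3 {0} ::ₘ a.ms := by
    rw [ms1_u, Multiset.replicate_one, Multiset.add_comm, Multiset.singleton_add]
  have h2 : ({ a with u := a.u + 2 } : L1).ms = .ord 3 {0} ::ₘ .ord 3 {0} ::ₘ a.ms := by
    rw [ms1_u, Multiset.replicate_succ, Multiset.replicate_one, Multiset.add_comm,
      Multiset.cons_add, Multiset.singleton_add]
  unfold H1
  rw [h1, h2]
  omega

end Pool.Agent.KZ
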