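import Pool.Agent.KZ.Defs
import Pool.Agent.XD.Final
import Pool.Agent.H21.NX.Conv

/-!
# KZ4: the base on the level `0` (project XD)
-/

set_option autoImplicit false

namespace Pool.Agent.KZ

open Finset MvPolynomial Pool.Agent.H51.TB Pool.Agent.V7.ST
open Pool.Agent.V7 (msk Ex blk mem_Ex)
open Pool.Agent.H54.V7 (Fat)
open Pool.Agent.H18.Ex (tcr cf sat_of_vanishes)
open Pool.Agent.H18.Fat (fatForms VanishesToOrder mons mem_mons toPoly toPoly_isHomogeneous
  toPoly_injective coeff_shift_toPoly ForGeneralPoints)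
open Pool.Agent.H21.NX (gdim Sx mem_Sx gdim_le)
open Pool.Agent.H21.NX.GenBX (gdim_attained)
open Pool.Agent.H21.NX.ConvX (mem_Sx_coe symm_coe finite_fat')

/-- The exponents of `t` triple points, `d` double points and then simple points (degree `4`). -/
def ee (t d : ℕ) : ℕ → ℕ := fun i => if i < t then 2 else if i < t + d then 3 else 4

theorem b0_mem_Ex {ν : Type} [Fintype ν] [DecidableEq ν] {β : ν → ℕ} {d : ℕ} {a : ν → ℕ} :
    a ∈ Ex β d 0 ↔ ∑ s, a s = d := by
  rw [mem_Ex]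
  constructor
  · exact fun h => h.1
  · exact fun h => ⟨h, fun i hi => absurd hi (Nat.not_lt_zero i)⟩

theorem b0_sat {r : ℕ} (β : Fin (r + 1) → ℕ) {A : Finset (Fin (r + 1) → ℕ)} (μ : ℕ)
    (q : Fin (r + 1) × Fin 3 → ℂ) (f : {a // a ∈ A} → ℂ) :
    SatK β (Kd.ord μ ∅) q f ↔ ∀ b : Fin (r + 1) → ℕ, ∑ s, b s < μ →
      ∑ e : {a // a ∈ A}, f e * tcr (fun s => q (s, 0)) e.1 b = 0 := by
  have h0 : pt β (Kd.ord μ ∅) 0 q = fun s => q (s, 0) := by
    funext s
    simp [pt, msk]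
  constructor
  · intro h b hb
    have h1 := h 0 b (by
      show ∑ i, b i < if (0 : Fin 3) = 0 then μ else 0
      rw [if_pos rfl]
      exact hb)
    rw [h0] at h1
    exact h1
  · intro h x b hb
    by_cases hx : x = 0
    · subst hx
      have hb' : ∑ i, b i < μ := by
        have h2 : ∑ i, b i < if (0 : Fin 3) = 0 then μ else 0 := hb
        rw [if_pos rfl] at h2
        exact h2
      rw [h0]
      exact h b hb'
    · exfalso
      have h2 : ∑ i, b i < if x = 0 then μ else 0 := hb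
      rw [if_neg hx] at h2
      exact absurd h2 (Nat.not_lt_zero _)

/-- The coefficient function on a set of exponents. -/
noncomputable def b0Phi {n : ℕ} (A : Finset (Fin n → ℕ)) :
    MvPolynomial (Fin n) ℂ →ₗ[ℂ] ({a // a ∈ A} → ℂ) where
  toFun F := fun e => cf F e.1
  map_add' F G := by
    funext e
    exact coeff_add _ _ _
  map_smul' c F := by
    funext e
    exact coeff_smul _ _ _

theorem b0_le {r : ℕ} (β : Fin (r + 1) → ℕ) {κ : Type} (m : κ → ℕ)
    (q : κ → Fin (r + 1) × Fin 3 → ℂ) :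
    Module.finrank ℂ (fatForms r 4 (fun i s => q i (s, 0)) m) ≤
      Module.finrank ℂ ((LS β 0).V (fun i => Kd.ord (m i) ∅) q) := by
  classical
  set pos : κ → Fin (r + 1) → ℂ := fun i s => q i (s, 0) with hpos
  have hsupp : ∀ F ∈ fatForms r 4 pos m, ∀ α ∈ F.support,
      (⇑α : Fin (r + 1) → ℕ) ∈ Pool.Agent.H18.Ex.Rg 4 (fun _ => 4) := by
    intro F hF α hα
    rw [MvPolynomial.mem_support_iff] at hα
    have hαd : α ∈ mons (r + 1) 4 := by
      rw [mem_mons]
      by_contra h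
      exact hα (hF.1.coeff_eq_zero h)
    exact mem_Sx_coe.2 hαd
  have hmem : ∀ F ∈ fatForms r 4 pos m,
      b0Phi (Ex β 4 0) F ∈ (LS β 0).V (fun i => Kd.ord (m i) ∅) q := by
    intro F hF
    rw [mem_LSA]
    intro i
    rw [b0_sat]
    intro b hb
    have h2 := sat_of_vanishes (hsupp F hF) (hF.2 i) b hb
    show ∑ e : {a // a ∈ Ex β 4 0}, cf F e.1 * tcr (pos i) e.1 b = 0
    rw [← h2]
    rw [Finset.sum_coe_sort (Ex β 4 0) fun e => cf F e * tcr (pos i) e b]
    refine Finset.sum_congr ?_ fun _ _ => rfl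
    ext a
    rw [b0_mem_Ex]
    exact (mem_Sx (ι := Fin (r + 1))).symm
  let Ψ : fatForms r 4 pos m →ₗ[ℂ] (LS β 0).V (fun i => Kd.ord (m i) ∅) q :=
    ((b0Phi (Ex β 4 0)).comp (fatForms r 4 pos m).subtype).codRestrict _
      fun F => hmem F.1 F.2
  refine LinearMap.finrank_le_finrank_of_injective (f := Ψ) ?_
  rw [← LinearMap.ker_eq_bot, LinearMap.ker_eq_bot']
  intro F hF
  have h4 : ∀ a ∈ Ex β 4 0, cf F.1 a = 0 := by
    intro a ha
    have h5 : (Ψ F : {a // a ∈ Ex β 4 0} → ℂ) ⟨a, ha⟩ = 0 := by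
      rw [hF]
      rfl
    exact h5
  apply Subtype.ext
  by_contra hne
  obtain ⟨α, hα⟩ := MvPolynomial.ne_zero_iff.1 hne
  have h6 := hsupp F.1 F.2 α (MvPolynomial.mem_support_iff.2 hα)
  have h7 := h4 (⇑α) (by
    rw [b0_mem_Ex]
    exact (mem_Sx (ι := Fin (r + 1))).1 h6)
  unfold cf at h7
  rw [symm_coe] at h7
  exact hα h7

theorem b0_memEx {r : ℕ} (β : Fin (r + 1) → ℕ) (α : mons (r + 1) 4) :
    (⇑α.1 : Fin (r + 1) → ℕ) ∈ Ex β 4 0 := by
  rw [b0_mem_Ex]
  exact (mem_Sx (ι := Fin (r + 1))).1 (mem_Sx_coe.2 α.2)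

/-- The form of a coefficient function. -/
noncomputable def b0Th {r : ℕ} (β : Fin (r + 1) → ℕ) :
    ({a // a ∈ Ex β 4 0} → ℂ) →ₗ[ℂ] MvPolynomial (Fin (r + 1)) ℂ :=
  (toPoly (r + 1) 4).comp (LinearMap.funLeft ℂ ℂ fun α : mons (r + 1) 4 =>
    (⟨⇑α.1, b0_memEx β α⟩ : {a // a ∈ Ex β 4 0}))

theorem b0_ge {r : ℕ} (β : Fin (r + 1) → ℕ) {κ : Type} (m : κ → ℕ)
    (q : κ → Fin (r + 1) × Fin 3 → ℂ) :
    Module.finrank ℂ ((LS β 0).V (fun i => Kd.ord (m i) ∅) q) ≤
      Module.finrank ℂ (fatForms r 4 (fun i s => q i (s, 0)) m) := by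
  classical
  have hfin := finite_fat' (d := 4) (fun i s => q i (s, 0)) m
  have hmem : ∀ f ∈ (LS β 0).V (fun i => Kd.ord (m i) ∅) q,
      b0Th β f ∈ fatForms r 4 (fun i s => q i (s, 0)) m := by
    intro f hf
    rw [mem_LSA] at hf
    refine ⟨toPoly_isHomogeneous _, fun i b hb => ?_⟩
    have h1 := (b0_sat β (m i) (q i) f).1 (hf i) (⇑b) (by
      rw [Finsupp.degree_eq_sum] at hb
      exact hb)
    show coeff b (Pool.Agent.H18.Fat.shift _ (toPoly (r + 1) 4 _)) = 0
    rw [coeff_shift_toPoly, ← h1]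
    apply sum_bij (fun (α : mons (r + 1) 4) _ =>
      (⟨⇑α.1, b0_memEx β α⟩ : {a // a ∈ Ex β 4 0}))
    · intro α _
      exact mem_univ _
    · intro α _ α' _ hαα
      exact Subtype.ext (DFunLike.coe_injective (congrArg Subtype.val hαα))
    · intro a _
      refine ⟨⟨Finsupp.equivFunOnFinite.symm a.1, ?_⟩, mem_univ _, rfl⟩
      rw [← mem_Sx_coe]
      exact (mem_Sx (ι := Fin (r + 1))).2 (b0_mem_Ex.1 a.2)
    · intro α _
      rfl
  let Ψ : (LS β 0).V (fun i => Kd.ord (m i) ∅) q →ₗ[ℂ] fatForms r 4 (fun i s => q i (s, 0)) m :=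
    ((b0Th β).comp ((LS β 0).V (fun i => Kd.ord (m i) ∅) q).subtype).codRestrict _
      fun F => hmem F.1 F.2
  refine LinearMap.finrank_le_finrank_of_injective (f := Ψ) ?_
  rw [← LinearMap.ker_eq_bot, LinearMap.ker_eq_bot']
  intro f hf
  have h1 : b0Th β f.1 = 0 := congrArg Subtype.val hf
  have h2 : (LinearMap.funLeft ℂ ℂ fun α : mons (r + 1) 4 =>
      (⟨⇑α.1, b0_memEx β α⟩ : {a // a ∈ Ex β 4 0})) f.1 = 0 := by
    apply toPoly_injective (r + 1) 4
    rw [map_zero]
    exact h1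
  apply Subtype.ext
  funext a
  have h3 : Finsupp.equivFunOnFinite.symm a.1 ∈ mons (r + 1) 4 := by
    rw [← mem_Sx_coe]
    exact (mem_Sx (ι := Fin (r + 1))).2 (b0_mem_Ex.1 a.2)
  exact congrFun h2 ⟨_, h3⟩

theorem b0_gdim {r : ℕ} (β : Fin (r + 1) → ℕ) {κ : Type} [Fintype κ] (m : κ → ℕ) :
    (LS β 0).gd (fun i => Kd.ord (m i) ∅) = gdim r 4 m := by
  apply le_antisymm
  · obtain ⟨p, hp⟩ := gdim_attained r 4 m
    rw [← hp]
    have h1 := b0_ge β m fun i x => p i x.1
    exact (gd_le (LS β 0) _ _).trans h1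
  · obtain ⟨q, hq⟩ := gd_attained (LS β 0) fun i => Kd.ord (m i) ∅
    rw [← hq]
    exact (gdim_le r 4 m _).trans (b0_le β m q)

theorem b0_map (t d s : ℕ) :
    (univ : Finset (Fin (t + d + s))).val.map
      (fun i : Fin (t + d + s) => Kd.ord (4 + 1 - ee t d i) ∅) = ms0 t d s := by
  have h0 : (univ : Finset (Fin (t + d + s))).val.map
      (fun i : Fin (t + d + s) => Kd.ord (4 + 1 - ee t d i) ∅) =
      (Multiset.range (t + d + s)).map fun i => Kd.ord (4 + 1 - ee t d i) ∅ := by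
    have h1 := Fin.univ_val_map (fun i : Fin (t + d + s) => Kd.ord (4 + 1 - ee t d i) ∅)
    rw [h1]
    rw [List.ofFn_eq_map]
    show _ = (((List.range (t + d + s)).map fun i => Kd.ord (4 + 1 - ee t d i) ∅ : List Kd) :
      Multiset Kd)
    rw [← List.map_coe_finRange_eq_range, List.map_map]
    rfl
  rw [h0, Multiset.range_add, Multiset.range_add]
  unfold ms0
  rw [Multiset.map_add, Multiset.map_add, Multiset.map_map, Multiset.map_map]
  congr 1
  · congr 1
    · rw [Multiset.eq_replicate]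
      refine ⟨by rw [Multiset.card_map, Multiset.card_range], fun x hx => ?_⟩
      obtain ⟨i, hi, rfl⟩ := Multiset.mem_map.1 hx
      rw [Multiset.mem_range] at hi
      simp [ee, hi]
    · rw [Multiset.eq_replicate]
      refine ⟨by rw [Multiset.card_map, Multiset.card_range], fun x hx => ?_⟩
      obtain ⟨i, hi, rfl⟩ := Multiset.mem_map.1 hx
      rw [Multiset.mem_range] at hi
      simp [ee, hi]
  · rw [Multiset.eq_replicate]
    refine ⟨by rw [Multiset.card_map, Multiset.card_range], fun x hx => ?_⟩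
    obtain ⟨i, hi, rfl⟩ := Multiset.mem_map.1 hx
    simp only [Function.comp_apply, ee]
    rw [if_neg (by omega), if_neg (by omega)]

/-- The bridge to project XD (`V7/Bridge`). -/
theorem H0_eq_FF (c n t d s : ℕ) (hn : 1 ≤ n) :
    H0 c n t d s = Pool.Agent.XD.FF (ee t d) n (t + d + s) 4 := by
  obtain ⟨r, rfl⟩ : ∃ r, n = r + 1 := ⟨n - 1, by omega⟩
  show gM (LS (blk c (r + 1)) 0) (ms0 t d s) =
    gdim r 4 (fun i : Fin (t + d + s) => 4 + 1 - ee t d i)
  rw [← b0_gdim (blk c (r + 1)), gd_eq_gM, b0_map]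

open Pool.Agent.XD (A A_zero A_succ)

theorem mc_one (n : ℕ) : (Nat.multichoose n 1 : ℤ) = n := by
  rw [Nat.multichoose_one_right]

theorem mc_two (n : ℕ) : 2 * (Nat.multichoose n 2 : ℤ) = n * (n + 1) := by
  induction n with
  | zero => simp
  | succ n ih =>
    rw [show (2 : ℕ) = 1 + 1 from rfl, Nat.multichoose_succ_succ, Nat.multichoose_one_right] at *
    push_cast at *
    linarith

theorem mc_three (n : ℕ) : 6 * (Nat.multichoose n 3 : ℤ) = n * (n + 1) * (n + 2) := by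
  induction n with
  | zero => simp
  | succ n ih =>
    have h2 := mc_two (n + 1)
    have h3 : Nat.multichoose (n + 1) 3 = Nat.multichoose n 3 + Nat.multichoose (n + 1) 2 :=
      Nat.multichoose_succ_succ n 2
    rw [h3]
    push_cast at *
    linarith

/-- The numbers of the triple points. -/
theorem A_trip (n t d : ℕ) (i : ℕ) (hi : i ≤ t) :
    A (ee t d) n i 0 = 1 ∧ A (ee t d) n i 1 = n ∧ A (ee t d) n i 2 = mc n 2 - i ∧
      A (ee t d) n i 3 = mc n 3 - i * n ∧
      A (ee t d) n i 4 = mc n 4 - i * mc n 2 + (i.choose 2 : ℤ) := by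
  induction i with
  | zero => simp [A_zero]
  | succ i ih =>
    obtain ⟨h0, h1, h2, h3, h4⟩ := ih (by omega)
    have he : ee t d i = 2 := by
      unfold ee
      rw [if_pos (by omega)]
    rw [A_succ, A_succ, A_succ, A_succ, A_succ, he, h0, h1, h2, h3, h4]
    rw [if_neg (by norm_num), if_neg (by norm_num), if_pos (by norm_num), if_pos (by norm_num),
      if_pos (by norm_num)]
    refine ⟨by ring, by ring, by push_cast; ring, by push_cast; ring, ?_⟩
    rw [show (i + 1).choose 2 = i + i.choose 2 by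
      rw [Nat.choose_succ_succ' i 1, Nat.choose_one_right]]
    push_cast
    ring

/-- The numbers of the triple and double points. -/
theorem A_doub (n t d : ℕ) (k : ℕ) (hk : k ≤ d) :
    A (ee t d) n (t + k) 0 = 1 ∧ A (ee t d) n (t + k) 1 = n ∧
      A (ee t d) n (t + k) 2 = mc n 2 - t ∧
      A (ee t d) n (t + k) 3 = mc n 3 - t * n - k ∧
      A (ee t d) n (t + k) 4 = mc n 4 - t * mc n 2 + (t.choose 2 : ℤ) - k * n := by
  induction k with
  | zero =>
    have h := A_trip n t d t le_rfl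
    simpa using h
  | succ k ih =>
    obtain ⟨h0, h1, h2, h3, h4⟩ := ih (by omega)
    have he : ee t d (t + k) = 3 := by
      unfold ee
      rw [if_neg (by omega), if_pos (by omega)]
    rw [← add_assoc, A_succ, A_succ, A_succ, A_succ, A_succ, he, h0, h1, h2, h3, h4]
    rw [if_neg (by norm_num), if_neg (by norm_num), if_neg (by norm_num), if_pos (by norm_num),
      if_pos (by norm_num)]
    refine ⟨by ring, by ring, by ring, by push_cast; ring, by push_cast; ring⟩

/-- The numbers of the triple, double and simple points. -/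
theorem A_simp (n t d : ℕ) (k : ℕ) :
    A (ee t d) n (t + d + k) 0 = 1 ∧ A (ee t d) n (t + d + k) 1 = n ∧
      A (ee t d) n (t + d + k) 2 = mc n 2 - t ∧
      A (ee t d) n (t + d + k) 3 = mc n 3 - t * n - d ∧
      A (ee t d) n (t + d + k) 4 = mc n 4 - t * mc n 2 + (t.choose 2 : ℤ) - d * n - k := by
  induction k with
  | zero =>
    have h := A_doub n t d d le_rfl
    simpa using h
  | succ k ih =>
    obtain ⟨h0, h1, h2, h3, h4⟩ := ih
    have he : ee t d (t + d + k) = 4 := by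
      unfold ee
      rw [if_neg (by omega), if_neg (by omega)]
    rw [← add_assoc, A_succ, A_succ, A_succ, A_succ, A_succ, he, h0, h1, h2, h3, h4]
    rw [if_neg (by norm_num), if_neg (by norm_num), if_neg (by norm_num), if_neg (by norm_num),
      if_pos (by norm_num)]
    refine ⟨by ring, by ring, by ring, by ring, by push_cast; ring⟩

theorem A_ee4 (n t d s : ℕ) : A (ee t d) n (t + d + s) 4 = v0 n t d s :=
  (A_simp n t d s).2.2.2.2

theorem base0 (c : ℕ) (η : ℝ) (hη : 0 < η) : ∃ n₀ : ℕ, ∀ n, n₀ ≤ n → ∀ t d : ℕ,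
    50 * d ≤ 21 * n → 6 * t ≤ n ^ 2 → η * (n : ℝ) ^ 4 ≤ (v0 n t d 0 : ℝ) →
      (H0 c n t d 0 : ℤ) ≤ v0 n t d 0 := by
  obtain ⟨c₀, hc₀, n₁, hL⟩ := Pool.Agent.XD.layer 4
  obtain ⟨n₂, hX⟩ := Pool.Agent.XD.xd 4 (min c₀ η) (lt_min hc₀ hη)
  refine ⟨n₁ + n₂ + 1, fun n hn t d hd ht hv => ?_⟩
  have hn1 : 1 ≤ n := by omega
  have he : ∀ s, 2 ≤ ee t d s := by
    intro s
    unfold ee
    split_ifs <;> norm_num
  obtain ⟨a0, a1, a2, a3, a4⟩ := A_doub n t d d le_rfl
  have ha4 : A (ee t d) n (t + d) 4 = v0 n t d 0 := by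
    rw [a4]
    unfold v0
    push_cast
    ring
  have hnZ : (1 : ℤ) ≤ n := by exact_mod_cast hn1
  have htZ : 6 * (t : ℤ) ≤ (n : ℤ) ^ 2 := by exact_mod_cast ht
  have hdZ : 50 * (d : ℤ) ≤ 21 * (n : ℤ) := by exact_mod_cast hd
  have hpos4 : 0 < A (ee t d) n (t + d) 4 := by
    rw [ha4]
    have h1 : (0 : ℝ) < (v0 n t d 0 : ℝ) := lt_of_lt_of_le (by positivity) hv
    exact_mod_cast h1
  have hpos : ∀ j ≤ 4, 0 < A (ee t d) n (t + d) j := by
    intro j hj
    interval_cases j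
    · rw [a0]
      norm_num
    · rw [a1]
      omega
    · rw [a2]
      have h := mc_two n
      nlinarith
    · rw [a3]
      have h := mc_three n
      have h1 : 6 * (t : ℤ) * n ≤ (n : ℤ) ^ 2 * n :=
        mul_le_mul_of_nonneg_right htZ (by omega)
      nlinarith
    · exact hpos4
  have h2 := (hL n (by omega) (ee t d) he (t + d)).1 hpos
  have h3 := hX n (by omega) (ee t d) (Pool.Agent.XD.FF (ee t d)) he
    (Pool.Agent.XD.sys_FF 4 (ee t d) fun s => le_trans (by norm_num) (he s)) n (t + d) le_rfl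
    (fun j hj => by
      rcases lt_or_eq_of_le hj with hj | rfl
      · exact (mul_le_mul_of_nonneg_right (min_le_left _ _) (by positivity)).trans (h2 j hj)
      · rw [ha4]
        exact (mul_le_mul_of_nonneg_right (min_le_right _ _) (by positivity)).trans hv)
  rw [H0_eq_FF c n t d 0 hn1, add_zero, h3, ha4]

end Pool.Agent.KZ
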