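import Mathlib

/-!
# KZ4: certificates for the rank of integer matrices

A certificate consists of dual vectors modulo `p`, packed into natural numbers: to every column (with
the code `k`) belongs a natural number whose fields of `w` bits are the coordinates of the dual vectors.
The rows are sparse lists `(coefficient, code)`.  Rows and columns are divided into stages; a row of the
stage `s` has no entries in columns of later stages and its products with the dual vectors of its own
stage are `0` and `1` modulo `p`.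
-/

set_option autoImplicit false

namespace Pool.Agent.KZ

open Finset

/-- A search tree: key, stage, packed vector. -/
inductive Tri
  | nil : Tri
  | node (l : Tri) (key s v : ℕ) (r : Tri) : Tri

/-- The stage and the packed vector of the key `k`. -/
def Tri.get : Tri → ℕ → ℕ × ℕ
  | .nil, _ => (0, 0)
  | .node l key s v r, k =>
    bif Nat.beq k key then (s, v) else bif Nat.ble k key then l.get k else r.get k

/-- A property of all entries. -/
def Tri.all (f : ℕ → ℕ → ℕ → Bool) : Tri → Bool
  | .nil => true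
  | .node l key s v r => f key s v && (l.all f && r.all f)

theorem Tri.get_all {f : ℕ → ℕ → ℕ → Bool} {t : Tri} (h : t.all f = true) (k : ℕ) :
    t.get k = (0, 0) ∨ f k (t.get k).1 (t.get k).2 = true := by
  induction t with
  | nil => exact Or.inl rfl
  | node l key s v r ihl ihr =>
    have h1 : (f key s v && (l.all f && r.all f)) = true := h
    rw [Bool.and_eq_true, Bool.and_eq_true] at h1
    have h2 : (Tri.node l key s v r).get k =
      bif Nat.beq k key then (s, v) else bif Nat.ble k key then l.get k else r.get k := rfl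
    rw [h2]
    cases hk : Nat.beq k key
    · cases hk' : Nat.ble k key
      · exact ihr h1.2.2
      · exact ihl h1.2.1
    · rw [Nat.beq_eq] at hk
      refine Or.inr ?_
      rw [hk]
      exact h1.1

/-! ### Fields -/

/-- The field `j`. -/
def fld (w j v : ℕ) : ℕ := v / (2 ^ w) ^ j % 2 ^ w

/-- The bits `u ≤ b < w` in each of `r` fields of `w` bits. -/
def hmask (w u r : ℕ) : ℕ := (2 ^ (w - u) - 1) * 2 ^ u * ((2 ^ (w * r) - 1) / (2 ^ w - 1))

private theorem Cert.rep {w : ℕ} (hw : 1 ≤ w) (r : ℕ) :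
    (2 ^ (w * (r + 1)) - 1) / (2 ^ w - 1) = 2 ^ w * ((2 ^ (w * r) - 1) / (2 ^ w - 1)) + 1 := by
  have hB : 2 ≤ 2 ^ w := by
    calc 2 = 2 ^ 1 := rfl
      _ ≤ 2 ^ w := Nat.pow_le_pow_right (by norm_num) hw
  have key : ∀ r, (2 ^ w) ^ r - 1 = (2 ^ w - 1) * ∑ i ∈ range r, (2 ^ w) ^ i := by
    intro r
    rw [Nat.mul_comm, Nat.geomSum_eq hB, Nat.div_mul_cancel]
    exact Nat.sub_one_dvd_pow_sub_one _ _
  have hpos : 0 < 2 ^ w - 1 := by omega
  rw [pow_mul, pow_mul, key, key, Nat.mul_div_cancel_left _ hpos, Nat.mul_div_cancel_left _ hpos,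
    sum_range_succ', mul_sum, pow_zero]
  congr 1
  exact sum_congr rfl fun i _ => pow_succ' _ _

theorem hmask_succ {w : ℕ} (hw : 1 ≤ w) (u r : ℕ) :
    hmask w u (r + 1) = 2 ^ w * hmask w u r + (2 ^ (w - u) - 1) * 2 ^ u := by
  unfold hmask
  rw [Cert.rep hw]
  ring

theorem testBit_hmask {w u : ℕ} (hw : 1 ≤ w) (hu : u ≤ w) {r j b : ℕ} (hj : j < r) (hb : u ≤ b)
    (hb' : b < w) : (hmask w u r).testBit (w * j + b) = true := by
  have hlt : (2 ^ (w - u) - 1) * 2 ^ u < 2 ^ w := by
    have h1 : 2 ^ (w - u) * 2 ^ u = 2 ^ w := by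
      rw [← pow_add]
      congr 1
      omega
    have h2 : 0 < 2 ^ u := Nat.pow_pos (by norm_num)
    have h3 : 0 < 2 ^ (w - u) := Nat.pow_pos (by norm_num)
    rw [Nat.sub_mul, h1, Nat.one_mul]
    have h4 : 0 < 2 ^ w := Nat.pow_pos (by norm_num)
    omega
  induction r generalizing j with
  | zero => omega
  | succ r ih =>
    rw [hmask_succ hw, Nat.testBit_two_pow_mul_add _ hlt]
    rcases Nat.eq_zero_or_pos j with rfl | hj0
    · rw [Nat.mul_zero, Nat.zero_add, if_pos hb']
      rw [← Nat.shiftLeft_eq, Nat.testBit_shiftLeft, Nat.testBit_two_pow_sub_one]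
      simp only [ge_iff_le, hb, decide_true, Bool.true_and, decide_eq_true_eq]
      omega
    · have h1 : ¬ w * j + b < w := by
        have : w * 1 ≤ w * j := Nat.mul_le_mul_left _ hj0
        omega
      rw [if_neg h1]
      have h2 : w * j + b - w = w * (j - 1) + b := by
        obtain ⟨i, rfl⟩ : ∃ i, j = i + 1 := ⟨j - 1, by omega⟩
        rw [Nat.add_sub_cancel, Nat.mul_add, Nat.mul_one]
        omega
      rw [h2]
      exact ih (by omega)

theorem fld_lt_of_mask {w u r v : ℕ} (hw : 1 ≤ w) (hu : u ≤ w) (h : v &&& hmask w u r = 0)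
    {j : ℕ} (hj : j < r) : fld w j v < 2 ^ u := by
  refine Nat.lt_pow_two_of_testBit _ fun b hb => ?_
  unfold fld
  rw [Nat.testBit_mod_two_pow, ← pow_mul, Nat.testBit_div_two_pow]
  by_cases hbw : b < w
  · have h1 := congrArg (fun x : ℕ => x.testBit (w * j + b)) h
    beta_reduce at h1
    rw [Nat.testBit_and, testBit_hmask hw hu hj hb hbw, Nat.zero_testBit, Bool.and_true] at h1
    rw [Nat.add_comm b, h1, Bool.and_false]
  · rw [decide_eq_false hbw, Bool.false_and]

theorem sum_fld (w r v : ℕ) (hv : v < (2 ^ w) ^ r) :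
    ∑ j ∈ range r, fld w j v * (2 ^ w) ^ j = v := by
  have key : ∀ r, ∑ j ∈ range r, fld w j v * (2 ^ w) ^ j = v % (2 ^ w) ^ r := by
    intro r
    induction r with
    | zero => rw [range_zero, sum_empty, pow_zero, Nat.mod_one]
    | succ r ih =>
      rw [sum_range_succ, ih, Nat.mod_pow_succ]
      unfold fld
      ring
  rw [key, Nat.mod_eq_of_lt hv]

theorem digits_uniq {B : ℕ} (r : ℕ) : ∀ a b : ℕ → ℕ, (∀ j < r, a j < B) →
    (∀ j < r, b j < B) → ∑ j ∈ range r, a j * B ^ j = ∑ j ∈ range r, b j * B ^ j →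
    ∀ j < r, a j = b j := by
  induction r with
  | zero =>
    intro a b _ _ _ j hj
    omega
  | succ r ih =>
    intro a b ha hb h j hj
    rw [sum_range_succ', sum_range_succ', pow_zero, Nat.mul_one, Nat.mul_one] at h
    have h1 : ∀ c : ℕ → ℕ, ∑ k ∈ range r, c (k + 1) * B ^ (k + 1) =
        B * ∑ k ∈ range r, c (k + 1) * B ^ k := by
      intro c
      rw [mul_sum]
      refine sum_congr rfl fun k _ => ?_
      rw [pow_succ]
      ring
    rw [h1 a, h1 b] at h
    have ha0 := ha 0 (by omega)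
    have hb0 := hb 0 (by omega)
    have hBpos : 0 < B := by omega
    have h0 : a 0 = b 0 := by
      have h2 := congrArg (fun x => x % B) h
      beta_reduce at h2
      rwa [Nat.mul_add_mod, Nat.mul_add_mod, Nat.mod_eq_of_lt ha0, Nat.mod_eq_of_lt hb0] at h2
    have h3 : ∑ k ∈ range r, a (k + 1) * B ^ k = ∑ k ∈ range r, b (k + 1) * B ^ k := by
      rw [h0] at h
      exact Nat.eq_of_mul_eq_mul_left hBpos (Nat.add_right_cancel h)
    rcases j with _ | j
    · exact h0
    · exact ih (fun k => a (k + 1)) (fun k => b (k + 1)) (fun k hk => ha (k + 1) (by omega))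
        (fun k hk => hb (k + 1) (by omega)) h3 j (by omega)

/-! ### The check -/

/-- The sum of the coefficients. -/
def csum : List (ℕ × ℕ) → ℕ
  | [] => 0
  | e :: L => e.1 + csum L

/-- The product of a row with the packed dual vectors of the stage `s`. -/
def prow (N : Tri) (s : ℕ) : List (ℕ × ℕ) → ℕ
  | [] => 0
  | e :: L => (match N.get e.2 with
    | (a, v) => bif Nat.beq a s then e.1 * v else 0) + prow N s L

/-- There are no entries in later stages. -/
def late (N : Tri) (s : ℕ) : List (ℕ × ℕ) → Bool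
  | [] => true
  | e :: L => Nat.ble (N.get e.2).1 s && late N s L

/-- The check of the row `L`, the row `t` of the stage `s` with `r` rows. -/
def chkRow (w u q p : ℕ) (N : Tri) (s r t : ℕ) (L : List (ℕ × ℕ)) : Bool :=
  Nat.ble (csum L * 2 ^ u) (2 ^ w) && (late N s L &&
    match prow N s L with
    | T => Nat.ble (2 ^ (w * t)) T &&
      match (T - 2 ^ (w * t)) / p with
      | Q => Nat.beq (2 ^ (w * t) + p * Q) T && Nat.beq (Nat.land Q (hmask w q r)) 0)

/-- The check of the rows of a stage, from the row `t`. -/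
def chkRows {Lb : Type} (w u q p : ℕ) (N : Tri) (rw : Lb → List (ℕ × ℕ)) (s r : ℕ) :
    ℕ → List Lb → Bool
  | _, [] => true
  | t, l :: ls => chkRow w u q p N s r t (rw l) && chkRows w u q p N rw s r (t + 1) ls

/-- The check of the stages, from the stage `s`. -/
def chkStages {Lb : Type} (w u q p : ℕ) (N : Tri) (rw : Lb → List (ℕ × ℕ)) :
    ℕ → List (List Lb) → Bool
  | _, [] => true
  | s, ls :: S => chkRows w u q p N rw s ls.length 0 ls && chkStages w u q p N rw (s + 1) S

/-- The number of rows of the stage `s`. -/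
def stlen {Lb : Type} (S : List (List Lb)) (s : ℕ) : ℕ := (S.getD s []).length

/-- The whole check. -/
def chk {Lb : Type} (w u q p : ℕ) (N : Tri) (ok : ℕ → Bool) (rw : Lb → List (ℕ × ℕ))
    (S : List (List Lb)) : Bool :=
  (Nat.ble 2 p && (Nat.ble 1 w && (Nat.ble u w && (Nat.ble q w && Nat.ble (p * 2 ^ q) (2 ^ w))))) &&
    (N.all (fun k s v => ok k && (Nat.beq (Nat.land v (hmask w u (stlen S s))) 0 &&
      Nat.ble (v + 1) (2 ^ (w * stlen S s)))) && chkStages w u q p N rw 0 S)

/-! ### The theorem -/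

/-- The dual vector `(s, j)`. -/
def dv (w : ℕ) (N : Tri) (s j k : ℕ) : ℕ := if (N.get k).1 = s then fld w j (N.get k).2 else 0

/-- The product of a row with the dual vector `(s, j)`. -/
def frow (w : ℕ) (N : Tri) (s j : ℕ) (L : List (ℕ × ℕ)) : ℕ :=
  (L.map fun e => e.1 * dv w N s j e.2).sum

private theorem Cert.prow_cons (N : Tri) (s : ℕ) (e : ℕ × ℕ) (L : List (ℕ × ℕ)) :
    prow N s (e :: L) = (if (N.get e.2).1 = s then e.1 * (N.get e.2).2 else 0) + prow N s L := by
  show (bif Nat.beq (N.get e.2).1 s then e.1 * (N.get e.2).2 else 0) + prow N s L = _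
  congr 1
  by_cases h : (N.get e.2).1 = s
  · rw [if_pos h, h, Nat.beq_refl]
    rfl
  · rw [if_neg h]
    cases hb : Nat.beq (N.get e.2).1 s
    · rfl
    · rw [Nat.beq_eq] at hb
      exact absurd hb h

private theorem Cert.fld_zero (w j : ℕ) : fld w j 0 = 0 := by
  unfold fld
  rw [Nat.zero_div, Nat.zero_mod]

/-- The entries of the tree are small. -/
def Small (w u : ℕ) (N : Tri) (s r : ℕ) : Prop :=
  ∀ k, (N.get k).1 = s → (N.get k).2 &&& hmask w u r = 0 ∧ (N.get k).2 < (2 ^ w) ^ r

private theorem Cert.prow_eq {w u : ℕ} {N : Tri} {s r : ℕ} (hN : Small w u N s r)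
    (L : List (ℕ × ℕ)) : prow N s L = ∑ j ∈ range r, frow w N s j L * (2 ^ w) ^ j := by
  induction L with
  | nil =>
    refine (sum_eq_zero fun j _ => ?_).symm
    unfold frow
    rw [List.map_nil, List.sum_nil, Nat.zero_mul]
  | cons e L ih =>
    rw [Cert.prow_cons, ih]
    have h1 : ∀ j, frow w N s j (e :: L) = e.1 * dv w N s j e.2 + frow w N s j L := fun j => by
      unfold frow
      rw [List.map_cons, List.sum_cons]
    simp only [h1, Nat.add_mul, sum_add_distrib]
    congr 1
    unfold dv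
    split_ifs with h2
    · have h3 := sum_fld w r _ (hN e.2 h2).2
      conv_lhs => rw [← h3]
      rw [mul_sum]
      exact sum_congr rfl fun j _ => by ring
    · refine (sum_eq_zero fun j _ => ?_).symm
      rw [Nat.mul_zero, Nat.zero_mul]

private theorem Cert.frow_le {w u : ℕ} {N : Tri} {s r : ℕ} (hw : 1 ≤ w) (hu : u ≤ w)
    (hN : Small w u N s r) {j : ℕ} (hj : j < r) (L : List (ℕ × ℕ)) :
    frow w N s j L ≤ csum L * (2 ^ u - 1) := by
  have h2 : 0 < 2 ^ u := Nat.pow_pos (by norm_num)
  induction L with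
  | nil => exact Nat.zero_le _
  | cons e L ih =>
    have h1 : frow w N s j (e :: L) = e.1 * dv w N s j e.2 + frow w N s j L := by
      unfold frow
      rw [List.map_cons, List.sum_cons]
    have h3 : csum (e :: L) = e.1 + csum L := rfl
    rw [h1, h3, Nat.add_mul]
    refine Nat.add_le_add (Nat.mul_le_mul_left _ ?_) ih
    unfold dv
    split_ifs with h4
    · have := fld_lt_of_mask hw hu (hN e.2 h4).1 hj
      omega
    · exact Nat.zero_le _

/-- The content of the check of a row. -/
theorem frow_of_chkRow {w u q p : ℕ} {N : Tri} {s r t : ℕ} {L : List (ℕ × ℕ)} (hw : 1 ≤ w)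
    (hu : u ≤ w) (hq : q ≤ w) (hp : 2 ≤ p) (hpq : p * 2 ^ q ≤ 2 ^ w) (hN : Small w u N s r)
    (ht : t < r) (h : chkRow w u q p N s r t L = true) {j : ℕ} (hj : j < r) :
    ∃ a, frow w N s j L = (if j = t then 1 else 0) + p * a := by
  unfold chkRow at h
  rw [Bool.and_eq_true, Bool.and_eq_true] at h
  obtain ⟨h1, -, h2⟩ := h
  have h3 : (Nat.ble (2 ^ (w * t)) (prow N s L) &&
      (Nat.beq (2 ^ (w * t) + p * ((prow N s L - 2 ^ (w * t)) / p)) (prow N s L) &&
        Nat.beq (Nat.land ((prow N s L - 2 ^ (w * t)) / p) (hmask w q r)) 0)) = true := h2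
  rw [Bool.and_eq_true, Bool.and_eq_true] at h3
  obtain ⟨-, h4, h5⟩ := h3
  have h1' : csum L * 2 ^ u ≤ 2 ^ w := Nat.le_of_ble_eq_true h1
  obtain ⟨Q, hQ⟩ : ∃ Q, Q = (prow N s L - 2 ^ (w * t)) / p := ⟨_, rfl⟩
  rw [← hQ] at h4 h5
  rw [Nat.beq_eq] at h4 h5
  have h5' : Q &&& hmask w q r = 0 := h5
  have hB : 0 < 2 ^ w := Nat.pow_pos (by norm_num)
  have hBr : (2 ^ w) ^ t < (2 ^ w) ^ r := Nat.pow_lt_pow_right (by
    calc 1 < 2 ^ 1 := by norm_num
      _ ≤ 2 ^ w := Nat.pow_le_pow_right (by norm_num) hw) ht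
  -- the fields of the product
  have hT := Cert.prow_eq hN L
  have hlt : ∀ j < r, frow w N s j L < 2 ^ w := by
    intro j hj
    have h6 := Cert.frow_le hw hu hN hj L
    have h2 : 0 < 2 ^ u := Nat.pow_pos (by norm_num)
    rcases Nat.eq_zero_or_pos (csum L) with h7 | h7
    · rw [h7, Nat.zero_mul] at h6
      omega
    · rw [Nat.mul_sub_one] at h6
      have h8 : csum L * 1 ≤ csum L * 2 ^ u := Nat.mul_le_mul_left _ h2
      omega
  have hTlt : prow N s L < (2 ^ w) ^ r := by
    rw [hT]
    have key : ∀ r, (∀ j < r, frow w N s j L < 2 ^ w) →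
        ∑ j ∈ range r, frow w N s j L * (2 ^ w) ^ j < (2 ^ w) ^ r := by
      intro r
      induction r with
      | zero => intro _; simp
      | succ r ih =>
        intro h9
        have h10 := ih fun j hj => h9 j (by omega)
        have h11 := h9 r (by omega)
        rw [sum_range_succ, pow_succ']
        have h12 : (frow w N s r L + 1) * (2 ^ w) ^ r ≤ 2 ^ w * (2 ^ w) ^ r :=
          Nat.mul_le_mul_right _ h11
        rw [Nat.add_mul, Nat.one_mul] at h12
        omega
    exact key r hlt
  have hQlt : Q < (2 ^ w) ^ r := by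
    refine lt_of_le_of_lt ?_ hTlt
    rw [← h4]
    have h6 : 1 * Q ≤ p * Q := Nat.mul_le_mul_right _ (by omega)
    rw [Nat.one_mul] at h6
    exact h6.trans (Nat.le_add_left _ _)
  have hQs := sum_fld w r Q hQlt
  have hsum : ∑ j ∈ range r, frow w N s j L * (2 ^ w) ^ j =
      ∑ j ∈ range r, ((if j = t then 1 else 0) + p * fld w j Q) * (2 ^ w) ^ j := by
    rw [← hT, ← h4]
    conv_lhs => rw [← hQs]
    simp only [Nat.add_mul, sum_add_distrib]
    congr 1
    · rw [sum_eq_single_of_mem t (mem_range.2 ht) fun j _ hj => by rw [if_neg hj, Nat.zero_mul],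
        if_pos rfl, Nat.one_mul, pow_mul]
    · rw [mul_sum]
      exact sum_congr rfl fun j _ => by ring
  refine ⟨fld w j Q, digits_uniq r _ _ hlt (fun j hj => ?_) hsum j hj⟩
  have h6 := fld_lt_of_mask hw hq h5' hj
  have h7 : p * (fld w j Q + 1) ≤ p * 2 ^ q := Nat.mul_le_mul_left _ h6
  rw [Nat.mul_add, Nat.mul_one] at h7
  split_ifs <;> omega

theorem frow_late {w : ℕ} {N : Tri} {s s' j : ℕ} {L : List (ℕ × ℕ)} (h : late N s L = true)
    (hs : s < s') : frow w N s' j L = 0 := by
  induction L with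
  | nil => rfl
  | cons e L ih =>
    have h1 : (Nat.ble (N.get e.2).1 s && late N s L) = true := h
    rw [Bool.and_eq_true] at h1
    have h2 : frow w N s' j (e :: L) = e.1 * dv w N s' j e.2 + frow w N s' j L := by
      unfold frow
      rw [List.map_cons, List.sum_cons]
    rw [h2, ih h1.2]
    have h3 := Nat.le_of_ble_eq_true h1.1
    unfold dv
    rw [if_neg (by omega), Nat.mul_zero]

private theorem Cert.of_chkRows {Lb : Type} {w u q p : ℕ} {N : Tri} {rw : Lb → List (ℕ × ℕ)}
    {s r : ℕ} : ∀ (ls : List Lb) (t : ℕ), chkRows w u q p N rw s r t ls = true →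
    ∀ i (hi : i < ls.length), chkRow w u q p N s r (t + i) (rw ls[i]) = true := by
  intro ls
  induction ls with
  | nil =>
    intro t _ i hi
    exact absurd hi (Nat.not_lt_zero i)
  | cons l ls ih =>
    intro t h i hi
    have h1 : (chkRow w u q p N s r t (rw l) && chkRows w u q p N rw s r (t + 1) ls) = true := h
    rw [Bool.and_eq_true] at h1
    rcases i with _ | i
    · exact h1.1
    · have h2 := ih (t + 1) h1.2 i (by simpa using hi)
      rw [show t + 1 + i = t + (i + 1) by omega] at h2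
      exact h2

private theorem Cert.of_chkStages {Lb : Type} {w u q p : ℕ} {N : Tri} {rw : Lb → List (ℕ × ℕ)} :
    ∀ (S : List (List Lb)) (s : ℕ), chkStages w u q p N rw s S = true →
    ∀ i (hi : i < S.length), chkRows w u q p N rw (s + i) (S[i]).length 0 S[i] = true := by
  intro S
  induction S with
  | nil =>
    intro s _ i hi
    exact absurd hi (Nat.not_lt_zero i)
  | cons ls S ih =>
    intro s h i hi
    have h1 : (chkRows w u q p N rw s ls.length 0 ls && chkStages w u q p N rw (s + 1) S) = true := h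
    rw [Bool.and_eq_true] at h1
    rcases i with _ | i
    · exact h1.1
    · have h2 := ih (s + 1) h1.2 i (by simpa using hi)
      rw [show s + 1 + i = s + (i + 1) by omega] at h2
      exact h2

/-- **Rank from a certificate.** -/
theorem rank_of_chk {K : Type} [Field K] [CharZero K] {Lb ρ κ : Type} [Fintype κ] [Fintype ρ]
    (A : Matrix ρ κ ℤ) (code : κ → ℕ) {w u q p : ℕ} {N : Tri}
    {ok : ℕ → Bool} {rw : Lb → List (ℕ × ℕ)} {S : List (List Lb)}
    (h : chk w u q p N ok rw S = true) (hok : ∀ k, ok k = true → k ∈ Set.range code)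
    (hA : ∀ ls ∈ S, ∀ l ∈ ls, ∃ r : ρ, ∀ F : ℕ → ℤ, (∀ k, k ∉ Set.range code → F k = 0) →
      (p : ℤ) ∣ ∑ e, A r e * F (code e) - ((rw l).map fun c => (c.1 : ℤ) * F c.2).sum) :
    (S.map List.length).sum ≤ (A.map (Int.cast : ℤ → K)).rank := by
  classical
  unfold chk at h
  simp only [Bool.and_eq_true] at h
  obtain ⟨⟨h1, h2, h3, h4, h5⟩, h6, h7⟩ := h
  have hp : 2 ≤ p := Nat.le_of_ble_eq_true h1
  have hw : 1 ≤ w := Nat.le_of_ble_eq_true h2
  have hu : u ≤ w := Nat.le_of_ble_eq_true h3
  have hq : q ≤ w := Nat.le_of_ble_eq_true h4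
  have hpq : p * 2 ^ q ≤ 2 ^ w := Nat.le_of_ble_eq_true h5
  have hent : ∀ k, N.get k = (0, 0) ∨ (ok k = true ∧
      ((N.get k).2 &&& hmask w u (stlen S (N.get k).1) = 0) ∧
        (N.get k).2 < (2 ^ w) ^ (stlen S (N.get k).1)) := by
    intro k
    rcases Tri.get_all h6 k with h8 | h8
    · exact Or.inl h8
    · refine Or.inr ?_
      simp only [Bool.and_eq_true] at h8
      obtain ⟨h9, h10, h11⟩ := h8
      rw [Nat.beq_eq] at h10
      have h12 := Nat.le_of_ble_eq_true h11
      rw [pow_mul] at h12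
      exact ⟨h9, h10, h12⟩
  have hsmall : ∀ s, Small w u N s (stlen S s) := by
    intro s k hk
    rcases hent k with h8 | ⟨-, h9, h10⟩
    · rw [h8]
      exact ⟨Nat.zero_and _, Nat.pow_pos (Nat.pow_pos (by norm_num))⟩
    · rw [hk] at h9 h10
      exact ⟨h9, h10⟩
  have hst : ∀ i (hi : i < S.length), stlen S i = (S[i]).length := by
    intro i hi
    unfold stlen
    rw [List.getD_eq_getElem _ _ hi]
  have hrow : ∀ i (hi : i < S.length) t (ht : t < (S[i]).length),
      chkRow w u q p N i (S[i]).length t (rw (S[i])[t]) = true := by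
    intro i hi t ht
    have h8 := Cert.of_chkStages S 0 h7 i hi
    rw [Nat.zero_add] at h8
    have h9 := Cert.of_chkRows _ 0 h8 t ht
    rwa [Nat.zero_add] at h9
  -- the index set
  let I := (s : Fin S.length) × Fin (S[s.1]).length
  let lb : I → Lb := fun i => (S[i.1.1])[i.2.1]
  have hA' : ∀ i : I, ∃ r : ρ, ∀ F : ℕ → ℤ, (∀ k, k ∉ Set.range code → F k = 0) →
      (p : ℤ) ∣ ∑ e, A r e * F (code e) - ((rw (lb i)).map fun c => (c.1 : ℤ) * F c.2).sum :=
    fun i => hA (S[i.1.1]) (List.getElem_mem _) (lb i) (List.getElem_mem _)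
  choose lab hA'' using hA'
  let D : I → ℕ → ℤ := fun j k => (dv w N j.1.1 j.2.1 k : ℤ)
  have hD0 : ∀ j k, k ∉ Set.range code → D j k = 0 := by
    intro j k hk
    show ((dv w N j.1.1 j.2.1 k : ℕ) : ℤ) = 0
    rcases hent k with h8 | h8
    · unfold dv
      rw [h8]
      rw [Cert.fld_zero, ite_self]
      rfl
    · exact absurd (hok k h8.1) hk
  let G : Matrix I I ℤ := fun i j => ∑ e, A (lab i) e * D j (code e)
  have hGf : ∀ i j, ((G i j : ℤ) : ZMod p) = ((frow w N j.1.1 j.2.1 (rw (lb i)) : ℕ) : ZMod p) := by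
    intro i j
    have h8 := hA'' i (D j) (hD0 j)
    have h9 := (ZMod.intCast_zmod_eq_zero_iff_dvd _ p).2 h8
    rw [Int.cast_sub, sub_eq_zero] at h9
    show ((∑ e, A (lab i) e * D j (code e) : ℤ) : ZMod p) = _
    rw [h9]
    have h10 : ∀ L : List (ℕ × ℕ), (L.map fun c => (c.1 : ℤ) * D j c.2).sum =
        ((frow w N j.1.1 j.2.1 L : ℕ) : ℤ) := by
      intro L
      unfold frow
      induction L with
      | nil => rfl
      | cons e L ih =>
        rw [List.map_cons, List.sum_cons, ih, List.map_cons, List.sum_cons, Nat.cast_add,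
          Nat.cast_mul]
    rw [h10]
    exact Int.cast_natCast _
  have hdiag : ∀ i j : I, i.1 = j.1 → ((G i j : ℤ) : ZMod p) = if i = j then 1 else 0 := by
    rintro ⟨i, t⟩ ⟨j, t'⟩ hij
    obtain rfl : i = j := hij
    rw [hGf]
    have hs : Small w u N i.1 (S[i.1]).length := by
      have := hsmall i.1
      rwa [hst i.1 i.2] at this
    obtain ⟨a, ha⟩ := frow_of_chkRow hw hu hq hp hpq hs t.2 (hrow i.1 i.2 t.1 t.2) t'.2
    show ((frow w N i.1 t'.1 (rw (S[i.1])[t.1]) : ℕ) : ZMod p) = _
    rw [ha, Nat.cast_add, Nat.cast_mul, ZMod.natCast_self, zero_mul, add_zero]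
    by_cases htt : t'.1 = t.1
    · rw [if_pos htt, if_pos (by rw [Fin.ext htt]), Nat.cast_one]
    · rw [if_neg htt, if_neg, Nat.cast_zero]
      intro h8
      apply htt
      have h9 := eq_of_heq (Sigma.mk.inj h8).2
      rw [h9]
  have hup : ∀ i j : I, i.1 < j.1 → ((G i j : ℤ) : ZMod p) = 0 := by
    intro i j hij
    rw [hGf]
    have h8 := hrow i.1.1 i.1.2 i.2.1 i.2.2
    unfold chkRow at h8
    rw [Bool.and_eq_true, Bool.and_eq_true] at h8
    rw [show frow w N j.1.1 j.2.1 (rw (lb i)) = 0 from frow_late h8.2.1 hij, Nat.cast_zero]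
  have hdet : G.det ≠ 0 := by
    intro h0
    have h8 : (G.map (Int.cast : ℤ → ZMod p)).det = 0 := by
      have := RingHom.map_det (Int.castRingHom (ZMod p)) G
      rw [h0, map_zero] at this
      exact this.symm
    have h9 : Matrix.BlockTriangular (G.map (Int.cast : ℤ → ZMod p))
        (fun i : I => OrderDual.toDual i.1) := by
      intro i j hij
      exact hup i j (OrderDual.toDual_lt_toDual.1 hij)
    rw [h9.det] at h8
    have h10 : ∀ a, ((G.map (Int.cast : ℤ → ZMod p)).toSquareBlock
        (fun i : I => OrderDual.toDual i.1) a) = 1 := by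
      intro a
      ext i j
      rw [Matrix.toSquareBlock_def, Matrix.of_apply, Matrix.map_apply, Matrix.one_apply]
      have h11 : i.1.1 = j.1.1 := OrderDual.toDual.injective (i.2.trans j.2.symm)
      rw [hdiag _ _ h11]
      by_cases h12 : i = j
      · rw [if_pos h12, if_pos (congrArg Subtype.val h12)]
      · rw [if_neg h12, if_neg fun h13 => h12 (Subtype.ext h13)]
    rw [prod_eq_one fun a _ => by rw [h10, Matrix.det_one]] at h8
    have : Fact (1 < p) := ⟨hp⟩
    exact one_ne_zero h8
  -- the rank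
  have hfac : G.map (Int.cast : ℤ → K) =
      (Matrix.of fun (i : I) (r : ρ) => if lab i = r then (1 : K) else 0) *
        (A.map (Int.cast : ℤ → K)) * Matrix.of fun e j => ((D j (code e) : ℤ) : K) := by
    ext i j
    rw [Matrix.mul_apply, Matrix.map_apply]
    show ((∑ e, A (lab i) e * D j (code e) : ℤ) : K) = _
    rw [Int.cast_sum]
    refine sum_congr rfl fun e _ => ?_
    rw [Matrix.mul_apply, Matrix.of_apply, Int.cast_mul]
    congr 1
    rw [sum_eq_single_of_mem (lab i) (mem_univ _)]
    · rw [Matrix.of_apply, if_pos rfl, one_mul, Matrix.map_apply]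
    · intro r _ hr
      rw [Matrix.of_apply, if_neg (Ne.symm hr), zero_mul]
  have hrk : (G.map (Int.cast : ℤ → K)).rank = Fintype.card I := by
    refine Matrix.rank_of_isUnit _ ?_
    rw [Matrix.isUnit_iff_isUnit_det, isUnit_iff_ne_zero]
    have := RingHom.map_det (Int.castRingHom K) G
    rw [show (G.map (Int.cast : ℤ → K)).det = ((G.det : ℤ) : K) from this.symm]
    exact Int.cast_ne_zero.2 hdet
  have hcard : Fintype.card I = (S.map List.length).sum := by
    rw [Fintype.card_sigma]
    simp only [Fintype.card_fin]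
    rw [← List.sum_ofFn (f := fun i : Fin S.length => (S[i.1]).length)]
    congr 1
    refine List.ext_getElem (by simp) fun n h1 h2 => ?_
    simp
  rw [← hcard, ← hrk, hfac]
  exact (Matrix.rank_mul_le_left _ _).trans (Matrix.rank_mul_le_right _ _)

end Pool.Agent.KZ
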