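import Pool.Agent.KZ.Cl1
import Pool.Agent.KZ.Num.N0
import Pool.Agent.KZ.Base0

/-!
# KZ4: exactness on the level `0`

As (iii), (iv) of `Cl1`: base `base0`, step: if all `(t, d)` of the class (`50 d ≤ 21 n`, `6 t ≤ n^2`) at
`n - c` with `v0 ≥ τ` are exact, then all at `n` with `v0 ≥ τ - 1`, `v0 ≥ 0` are exact: `num0` with
`g = v0 n t d 0 ≤ η n^4`, `step01` with `s = g`, `PROP1` (residual `v1 = 0`), `H0_s`.
`v0 < 0`: `H0_mono`; reduce to `- n^2 ≤ v0 < 0` (the first `t` with `v0 < 0`; `v0` decreases in `t` for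
`6 t ≤ n^2`), `num0` with `g = 0`.
-/

set_option autoImplicit false

namespace Pool.Agent.KZ

open Finset

/-- The black boxes on the level `0` for `n ≥ n₁`. -/
structure Bx0 (c : ℕ) (η : ℝ) (n₁ : ℕ) : Prop where
  hc : 240 ≤ c
  hη : 0 < η
  n₁c : 2 * c + 2 ≤ n₁
  base : ∀ n, n₁ ≤ n → ∀ t d : ℕ, 50 * d ≤ 21 * n → 6 * t ≤ n ^ 2 →
    η * (n : ℝ) ^ 4 ≤ (v0 n t d 0 : ℝ) → (H0 c n t d 0 : ℤ) ≤ v0 n t d 0
  num : ∀ n, n₁ ≤ n → ∀ t d : ℕ, 50 * d ≤ 21 * n → 6 * t ≤ n ^ 2 → ∀ g : ℤ, 0 ≤ g →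
      (g : ℝ) ≤ η * (n : ℝ) ^ 4 → -((n : ℤ) ^ 2) ≤ v0 n t d 0 - g →
      ((v0 n t d 0 - g : ℤ) : ℝ) ≤ η * (n : ℝ) ^ 3 →
      ∃ (t' d' r : ℕ), 50 * d' ≤ 21 * (n - c) ∧ 6 * t' ≤ (n - c) ^ 2 ∧
        v0 (n - c) t' d' 0 = g + r ∧ 1 ≤ r ∧ ∀ s : ℕ, (H0 c n t d 0 : ℤ) ≤
          s + max 0 ((H0 c (n - c) t' d' 0 : ℤ) - s - r) + max 0 (v0 n t d 0 - g)

/-- The step with exactness of the residual. -/
theorem step0_use {c n : ℕ} (hc : 1 ≤ c) (hn : c ≤ n) {t t' d : ℕ} {b : L1} {g : ℤ}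
    (ht : t = t' + b.T) (hu : b.u = t') (hd : b.d = d) (hw : b.w = 0) (hs : b.s = 0)
    (hv : v0 (n - c) t' b.p 0 = g + b.q)
    (h2 : (H1 c n b : ℤ) ≤ max 0 (v1 c n b)) (s : ℕ) :
    (H0 c n t d 0 : ℤ) ≤ s + max 0 ((H0 c (n - c) t' b.p 0 : ℤ) - s - b.q) +
      max 0 (v0 n t d 0 - g) := by
  obtain ⟨bt, bp, bq, bu, bd, bw, bs⟩ := b
  simp only [L1.T] at ht hu hd hw hs hv ⊢
  subst hu hd hw hs
  have ht' : t = bu + bt + 2 * bp + 3 * bq := by rw [ht]; ring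
  subst ht'
  have e1 := step01 c n hc hn bu bt bp bq bd s
  have e2 := add01 c n hn bu bt bp bq bd s
  have f1 := H0_s c n (bu + bt + 2 * bp + 3 * bq) bd 0 s
  have f2 := H0_s c (n - c) bu bp 0 (s + bq)
  have g1 := v0_s n (bu + bt + 2 * bp + 3 * bq) bd 0 s
  have g2 := v0_s (n - c) bu bp 0 (s + bq)
  rw [zero_add] at f1 f2 g1 g2
  rw [f1, f2] at e1
  rw [g1, g2, hv] at e2
  have h5 : v1 c n ⟨bt, bp, bq, bu, bd, 0, 0⟩ = v0 n (bu + bt + 2 * bp + 3 * bq) bd 0 - g := by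
    push_cast at e2
    linarith
  rw [h5] at h2
  generalize H0 c n (bu + bt + 2 * bp + 3 * bq) bd 0 = x at *
  generalize H0 c (n - c) bu bp 0 = y at *
  generalize H1 c n ⟨bt, bp, bq, bu, bd, 0, 0⟩ = z at *
  generalize v0 n (bu + bt + 2 * bp + 3 * bq) bd 0 - g = v at *
  clear hv h5 e2 g1 g2 f1 f2 ht
  rcases le_total (y : ℤ) (s + bq) with h6 | h6
  · have h7 : y - (s + bq) = 0 := by omega
    rw [h7, zero_add] at e1
    have h8 : (0 : ℤ) ≤ max 0 ((y : ℤ) - s - bq) := le_max_left _ _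
    omega
  · have h8 : (y : ℤ) - s - bq ≤ max 0 ((y : ℤ) - s - bq) := le_max_right _ _
    omega

/-- (iii), one step. -/
theorem Bx0.down {c : ℕ} {η : ℝ} {n₁ : ℕ} (B : Bx0 c η n₁) {n : ℕ} (hn : n₁ ≤ n) (T : ℕ)
    (hT : ∀ t d : ℕ, 50 * d ≤ 21 * (n - c) → 6 * t ≤ (n - c) ^ 2 → (T : ℤ) ≤ v0 (n - c) t d 0 →
      (H0 c (n - c) t d 0 : ℤ) ≤ v0 (n - c) t d 0)
    (t d : ℕ) (hd : 50 * d ≤ 21 * n) (ht : 6 * t ≤ n ^ 2)
    (hv : ((T - 1 : ℕ) : ℤ) ≤ v0 n t d 0) : (H0 c n t d 0 : ℤ) ≤ v0 n t d 0 := by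
  have hv0 : (0 : ℤ) ≤ v0 n t d 0 := le_trans (Int.natCast_nonneg _) hv
  by_cases hl : η * (n : ℝ) ^ 4 ≤ (v0 n t d 0 : ℝ)
  · exact B.base n hn t d hd ht hl
  push Not at hl
  have hη := B.hη
  obtain ⟨t', d', r, hd', ht', hvr, hr1, hstep⟩ := B.num n hn t d hd ht (v0 n t d 0) hv0 hl.le
    (by
      have h1 : (0 : ℤ) ≤ (n : ℤ) ^ 2 := by positivity
      omega)
    (by
      rw [sub_self]
      push_cast
      positivity)
  have h1 := hT t' d' hd' ht' (by rw [hvr]; omega)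
  obtain ⟨s, hs⟩ := Int.eq_ofNat_of_zero_le hv0
  have h2 := hstep s
  rw [hs] at h2 hvr ⊢
  rw [hvr] at h1
  rw [sub_self, max_self, max_eq_left (by omega)] at h2
  omega

/-- The number `v0` is less than `n ^ 4`. -/
theorem v0_le {n t d : ℕ} (hn : 3 ≤ n) (ht : 6 * t ≤ n ^ 2) : v0 n t d 0 ≤ (n : ℤ) ^ 4 := by
  have h1 := Nm0.mc4 n
  have h2 := two_mc2 n
  have h3 : 2 * ((t.choose 2 : ℕ) : ℤ) ≤ t * t := by
    have h4 : t.choose 2 * 2 = t * (t - 1) := by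
      rw [Nat.choose_two_right]
      exact Nat.div_mul_cancel (Nat.even_mul_pred_self t).two_dvd
    have h5 : t.choose 2 * 2 ≤ t * t := by
      rw [h4]
      exact Nat.mul_le_mul_left _ (Nat.sub_le _ _)
    have h6 : ((t.choose 2 * 2 : ℕ) : ℤ) ≤ ((t * t : ℕ) : ℤ) := by exact_mod_cast h5
    push_cast at h6
    linarith
  have h7 : (3 : ℤ) ≤ n := by exact_mod_cast hn
  have h8 : (6 : ℤ) * t ≤ (n : ℤ) ^ 2 := by exact_mod_cast ht
  have h9 : (0 : ℤ) ≤ t := Int.natCast_nonneg t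
  have h10 : (0 : ℤ) ≤ (d : ℤ) * n := by positivity
  have h11 : (t : ℤ) * (t - n ^ 2) ≤ 0 := by nlinarith
  have h12 : (n : ℤ) * (n + 1) * (n + 2) * (n + 3) ≤ 24 * (n : ℤ) ^ 4 := by
    have e1 : (n : ℤ) + 1 ≤ 2 * n := by linarith
    have e2 : (n : ℤ) + 2 ≤ 2 * n := by linarith
    have e3 : (n : ℤ) + 3 ≤ 2 * n := by linarith
    calc (n : ℤ) * (n + 1) * (n + 2) * (n + 3) ≤ (n : ℤ) * (2 * n) * (2 * n) * (2 * n) := by
          gcongr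
      _ = 8 * (n : ℤ) ^ 4 := by ring
      _ ≤ 24 * (n : ℤ) ^ 4 := by
          have : (0 : ℤ) ≤ (n : ℤ) ^ 4 := by positivity
          linarith
  unfold v0
  push_cast
  nlinarith

/-- (iii) -/
theorem Bx0.zero {c : ℕ} {η : ℝ} {n₁ : ℕ} (B : Bx0 c η n₁) : ∃ n₃ : ℕ, n₁ ≤ n₃ ∧
    ∀ n, n₃ ≤ n → ∀ t d : ℕ, 50 * d ≤ 21 * n → 6 * t ≤ n ^ 2 → (0 : ℤ) ≤ v0 n t d 0 →
      (H0 c n t d 0 : ℤ) ≤ v0 n t d 0 := by
  have hc := B.hc
  have hn₁c := B.n₁c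
  have hη := B.hη
  have hall : ∀ n, n₁ ≤ n → ∀ i : ℕ, ∀ T : ℕ,
      (∀ t d : ℕ, 50 * d ≤ 21 * n → 6 * t ≤ n ^ 2 → (T : ℤ) ≤ v0 n t d 0 →
        (H0 c n t d 0 : ℤ) ≤ v0 n t d 0) →
      ∀ t d : ℕ, 50 * d ≤ 21 * (n + i * c) → 6 * t ≤ (n + i * c) ^ 2 →
        ((T - i : ℕ) : ℤ) ≤ v0 (n + i * c) t d 0 →
        (H0 c (n + i * c) t d 0 : ℤ) ≤ v0 (n + i * c) t d 0 := by
    intro n hn i
    induction i with
    | zero =>
      intro T hT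
      simpa using hT
    | succ i ih =>
      intro T hT
      have h1 := ih T hT
      have hi : (i + 1) * c = i * c + c := by ring
      have h2 := B.down (n := n + (i + 1) * c) (by omega) (T - i)
      have h3 : n + (i + 1) * c - c = n + i * c := by omega
      rw [h3] at h2
      have h4 : T - i - 1 = T - (i + 1) := by omega
      rw [h4] at h2
      exact h2 h1
  obtain ⟨T₀, hT₀⟩ : ∃ T₀ : ℕ, T₀ = (n₁ + c) ^ 4 + 1 := ⟨_, rfl⟩
  refine ⟨n₁ + c + T₀ * c, by omega, ?_⟩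
  intro n hn t d hd ht hv
  obtain ⟨m, i, hm1, hm2, hi', hmi⟩ : ∃ m i : ℕ, n₁ ≤ m ∧ m < n₁ + c ∧ T₀ ≤ i ∧
      n = m + i * c := by
    refine ⟨n₁ + (n - n₁) % c, (n - n₁) / c, by omega, ?_, ?_, ?_⟩
    · have := Nat.mod_lt (n - n₁) (by omega : 0 < c)
      omega
    · rw [Nat.le_div_iff_mul_le (by omega)]
      omega
    · have := Nat.mod_add_div (n - n₁) c
      have h2 : c * ((n - n₁) / c) = (n - n₁) / c * c := mul_comm _ _
      omega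
  have h1 := hall m hm1 i T₀ (fun t d hd ht hv => by
    exfalso
    have h2 : v0 m t d 0 ≤ (m : ℤ) ^ 4 := v0_le (by omega) ht
    have h3 : m ^ 4 ≤ (n₁ + c) ^ 4 := Nat.pow_le_pow_left hm2.le 4
    have h4 : (m : ℤ) ^ 4 ≤ (((n₁ + c) ^ 4 : ℕ) : ℤ) := by exact_mod_cast h3
    rw [hT₀] at hv
    push_cast at hv h4
    linarith)
  rw [← hmi] at h1
  refine h1 t d hd ht ?_
  have h2 : T₀ - i = 0 := by omega
  rw [h2]
  exact hv

/-- (iv) -/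
theorem Bx0.all {c : ℕ} {η : ℝ} {n₁ : ℕ} (B : Bx0 c η n₁) : ∃ n₄ : ℕ,
    ∀ n, n₄ ≤ n → ∀ t d : ℕ, 50 * d ≤ 21 * n → 6 * t ≤ n ^ 2 →
      (H0 c n t d 0 : ℤ) ≤ max 0 (v0 n t d 0) := by
  obtain ⟨n₃, hn₃, hzero⟩ := B.zero
  have hc := B.hc
  have hn₁c := B.n₁c
  have hη := B.hη
  refine ⟨n₃ + c, fun n hn t d hd ht => ?_⟩
  by_cases hv : 0 ≤ v0 n t d 0
  · rw [max_eq_right hv]
    exact hzero n (by omega) t d hd ht hv
  push Not at hv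
  -- the first negative one
  have hex : ∃ k, v0 n k d 0 < 0 := ⟨t, hv⟩
  have hk := Nat.find_spec hex
  have hkmin : ∀ k' < Nat.find hex, 0 ≤ v0 n k' d 0 := fun k' hk' => by
    have := Nat.find_min hex hk'
    omega
  obtain ⟨k, hkdef⟩ : ∃ k, k = Nat.find hex := ⟨_, rfl⟩
  rw [← hkdef] at hk hkmin
  have hkt : k ≤ t := by
    rw [hkdef]
    exact Nat.find_min' hex hv
  have hn7 : (2 : ℤ) ≤ n := by
    have : 2 ≤ n := by omega
    exact_mod_cast this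
  have hk0 : k ≠ 0 := by
    intro h0
    rw [h0] at hk
    have h1 := Nm0.mc4 n
    have h2 : (50 : ℤ) * d ≤ 21 * n := by exact_mod_cast hd
    have h3 : v0 n 0 d 0 = mc n 4 - d * n := by
      have h5 : ((Nat.choose 0 2 : ℕ) : ℤ) = 0 := by norm_num
      unfold v0
      rw [h5]
      push_cast
      ring
    rw [h3] at hk
    have h4 : 24 * ((d : ℤ) * n) ≤ (n : ℤ) * (n + 1) * (n + 2) * (n + 3) := by
      have e1 : 24 * (d : ℤ) ≤ 12 * n := by linarith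
      have e2 : (12 : ℤ) * n ≤ (n + 1) * (n + 2) * (n + 3) := by nlinarith [mul_self_nonneg (n : ℤ)]
      have e3 : 24 * (d : ℤ) * n ≤ (n + 1) * (n + 2) * (n + 3) * n :=
        mul_le_mul_of_nonneg_right (e1.trans e2) (by linarith)
      linarith
    linarith
  have hk6 : 6 * k ≤ n ^ 2 := le_trans (Nat.mul_le_mul_left _ hkt) ht
  have hk1 : -((n : ℤ) ^ 2) ≤ v0 n k d 0 := by
    obtain ⟨k', hk'⟩ := Nat.exists_eq_succ_of_ne_zero hk0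
    have h1 := hkmin k' (by omega)
    have h2 := v0_t n k' d 0
    have h3 := two_mc2 n
    have h4 : (0 : ℤ) ≤ k' := Int.natCast_nonneg k'
    rw [hk', Nat.succ_eq_add_one, h2]
    nlinarith
  have hk2 : ((v0 n k d 0 : ℤ) : ℝ) ≤ 0 := by exact_mod_cast hk.le
  obtain ⟨t', d', r, hd', ht', hvr, hr1, hstep⟩ := B.num n (by omega) k d hd hk6 0 le_rfl
    (by push_cast; positivity) (by rw [sub_zero]; exact hk1)
    (by rw [sub_zero]; exact hk2.trans (by positivity))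
  have h1 := hzero (n - c) (by omega) t' d' hd' ht' (by rw [hvr]; omega)
  rw [hvr, zero_add] at h1
  have h2 := hstep 0
  rw [sub_zero, max_eq_left hk.le, max_eq_left (by push_cast; omega)] at h2
  have h3 := H0_mono c n k d 0 (t - k)
  have h4 : k + (t - k) = t := by omega
  rw [h4] at h3
  have h6 : H0 c n t d 0 = 0 := by
    push_cast at h2
    omega
  rw [h6]
  exact le_max_left _ _

theorem prop0_of (c : ℕ) (hc : 240 ≤ c) (hP : PROP1 c) : PROP0 c := by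
  obtain ⟨e, he, n₂, hP⟩ := hP
  obtain ⟨η, hη, nη, hnum⟩ := num0 c hc e he
  obtain ⟨nb, hbase⟩ := base0 c η hη
  have hBx : Bx0 c η (n₂ + nη + nb + 2 * c + 2) := by
    refine ⟨hc, hη, by omega, fun n hn => hbase n (by omega), ?_⟩
    intro n hn t d hd ht g hg hg1 hg2 hg3
    obtain ⟨t', b, h1, h2, h3, h4, h5, h6, h7, h8, h9, h10⟩ :=
      hnum n (by omega) t d hd ht g hg hg1 hg2 hg3
    exact ⟨t', b.p, b.q, h6, h7, h8, h9,
      step0_use (by omega) (by omega) h1 h2 h3 h4 h5 h8 (hP n (by omega) b h10 h5)⟩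
  exact hBx.all

end Pool.Agent.KZ
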