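import Pool.Agent.KZ.Tr
import Pool.Agent.KZ.Sim
import Pool.Agent.KZ.Num.N1

/-!
# KZ4: exactness on the level `1`

Fix `e ≤ e₀` (`num1` for `e₂` of `PROP2`; also `≤` the one of `ALPHA1` and `≤ 1`), `η` of `num1`,
`η' = η / (4 c)`.  `Dn n` := all `a` in the class (`e`, `a.s = 0`) with
`η' n^3 ≤ v1 c n a ≤ η' n^3 + c n`.
(i) `H1 c n a - v1 c n a ≤ K` for `a ∈ Dn n`, `n ≥ n₁`: `num1` with `g = ⌈η' (n-c)^3⌉`, `step12` with
`s = 0`, `H1_s`, `PROP2` (residual `v2 = v1 c n a - g ≥ 0`), `add12`.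
(ii) `v1 c n a ≥ 2 η' n^3 → H1 ≤ v1` (`n ≥ n₂`): the differences of `k ↦ H1 (u = k) - v1 (u = k)` are
non-decreasing (`H1_convex`, `v1_u`), the value at `0` is `≤ 0` (`ALPHA1`); if it is `> 0` at `a.u`,
then it grows by `≥ 1` from there on until `v1 ≤ η' n^3 + c n`, more than `K` times.
(iii) if all `a` in the class at `n - c` with `v1 ≥ t` are exact, then all `a` at `n` with
`v1 ≥ t - 1`, `v1 ≥ 0` are exact: if `v1 c n a = g ≤ η n^3`, `num1` with this `g`,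
`step12` with `s = g`: trace `v1 = g + r ≥ t`, exact, minus `g + r` simple points: `0`; residual
`v2 = 0`: `0`; `H1_s`.  Induction: all `v1 ≥ 0` exact for `n` large.
(iv) `v1 < 0`: `H1_mono`, reduce to `- c n ≤ v1 < 0`, `num1` with `g = 0`, the same.
-/

set_option autoImplicit false

namespace Pool.Agent.KZ

open Finset

/-- The step, with all black boxes. -/
theorem step_all {c n : ℕ} (hc : 1 ≤ c) (hn : 2 * c ≤ n) {a a' : L1} {b : L2} (h : Split a a' b)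
    (ha : a.s = 0) (ha' : a'.s = 0) (s : ℕ) :
    H1 c n a - s ≤ (H1 c (n - c) a' - (s + b.r)) + H2 c n b ∧
      v1 c n a = v1 c (n - c) a' - b.r + v2 c n b := by
  obtain ⟨t, p, q, u, d, w, s₀⟩ := a
  obtain ⟨t', p', q', u', d', w', s'⟩ := a'
  obtain ⟨bt, bp, bq, br, bu, bpu, by', bpy, bqy, bx, bd, bw, bz⟩ := b
  obtain ⟨h1, h2, h3, h4, h5, h6, h7, h8, h9, h10, h11, h12⟩ := h
  simp only at h1 h2 h3 h4 h5 h6 h7 h8 h9 h10 h11 h12 ha ha'
  subst h1 h2 h3 h4 h5 h6 h7 h8 h9 h10 h11 h12 ha ha'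
  have e1 := step12 c n hc hn by' bt bpy bp bqy bq bx bu bz bd w s w' br
  have e2 := add12 c n hn by' bt bpy bp bqy bq bx bu bz bd w s w' br
  have f1 := H1_s c n ⟨by' + bt + 3 * br, bpy + bp, bqy + bq, bx + bu + 2 * w', bz + bd, w, 0⟩ s
  have f2 := H1_s c (n - c) ⟨by', bpy, bqy, bx, bz, w', 0⟩ (s + br)
  have g1 := v1_s c n ⟨by' + bt + 3 * br, bpy + bp, bqy + bq, bx + bu + 2 * w', bz + bd, w, 0⟩ s
  have g2 := v1_s c (n - c) ⟨by', bpy, bqy, bx, bz, w', 0⟩ (s + br)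
  simp only [zero_add] at f1 f2 g1 g2
  constructor
  · rw [← f1, ← f2]
    exact e1
  · rw [g1, g2] at e2
    push_cast at e2
    show v1 c n _ = v1 c (n - c) _ - (br : ℤ) + v2 c n _
    linarith

/-- The step with exactness of the residual. -/
theorem step_use {c n : ℕ} (hc : 1 ≤ c) (hn : 2 * c ≤ n) {a a' : L1} {b : L2} (h : Split a a' b)
    (ha : a.s = 0) (ha' : a'.s = 0) {g : ℤ} (hv : v1 c (n - c) a' = g + b.r)
    (h2 : (H2 c n b : ℤ) ≤ max 0 (v2 c n b)) (s : ℕ) :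
    (H1 c n a : ℤ) ≤ s + max 0 ((H1 c (n - c) a' : ℤ) - s - b.r) + max 0 (v1 c n a - g) := by
  obtain ⟨h3, h4⟩ := step_all hc hn h ha ha' s
  have h5 : v2 c n b = v1 c n a - g := by
    rw [hv] at h4
    linarith
  rw [h5] at h2
  generalize H1 c n a = x at *
  generalize H1 c (n - c) a' = y at *
  generalize H2 c n b = z at *
  generalize b.r = r at *
  generalize v1 c n a - g = v at *
  clear hv h4 h5
  rcases le_total (y : ℤ) (s + r) with h6 | h6
  · have h7 : y - (s + r) = 0 := by omega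
    rw [h7, zero_add] at h3
    have h8 : (0 : ℤ) ≤ max 0 ((y : ℤ) - s - r) := le_max_left _ _
    omega
  · have h8 : (y : ℤ) - s - r ≤ max 0 ((y : ℤ) - s - r) := le_max_right _ _
    omega

theorem convex_grow (φ : ℕ → ℤ) (h0 : φ 0 ≤ 0) (hc : ∀ k, 2 * φ (k + 1) ≤ φ k + φ (k + 2))
    (m : ℕ) (hm : 1 ≤ φ m) (j : ℕ) : 1 + j ≤ φ (m + j) := by
  have hmono : Monotone fun k => φ (k + 1) - φ k := monotone_nat_of_le_succ fun k => by
    have := hc k
    show φ (k + 1) - φ k ≤ φ (k + 2) - φ (k + 1)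
    linarith
  have hex : ∃ i < m, 1 ≤ φ (i + 1) - φ i := by
    by_contra hcon
    push Not at hcon
    have h1 : ∀ k ≤ m, φ k ≤ 0 := by
      intro k
      induction k with
      | zero => exact fun _ => h0
      | succ k ih =>
        intro hk
        have h2 := ih (by omega)
        have h3 := hcon k (by omega)
        omega
    have := h1 m le_rfl
    omega
  obtain ⟨i, hi, hi'⟩ := hex
  induction j with
  | zero => simpa using hm
  | succ j ih =>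
    have h1 : φ (i + 1) - φ i ≤ φ (m + j + 1) - φ (m + j) := hmono (by omega : i ≤ m + j)
    rw [← add_assoc]
    push_cast
    linarith

theorem H1_le_card (c n : ℕ) (a : L1) :
    H1 c n a ≤ Fintype.card {x // x ∈ Pool.Agent.V7.Ex (Pool.Agent.V7.blk c n) 4 1} :=
  Pool.Agent.H51.TB.gd_le_card _ _

theorem Cls1.setu {c n : ℕ} {e : ℝ} {a : L1} (h : Cls1 c n e a) (k : ℕ) :
    Cls1 c n e { a with u := k } :=
  ⟨⟨h.p, h.q, h.d, h.w⟩, h.T⟩

/-- The unit. -/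
theorem unit_bd {c n : ℕ} (hc : 240 ≤ c) (hn : 2 * c ≤ n) {e : ℝ} (he : e ≤ 1) {a : L1}
    (h : Cls1 c n e a) : 1 ≤ dl c n - a.T ∧ dl c n - a.T ≤ c * n := by
  have h1 := two_dl c n (by omega)
  have h2 := (abs_le.1 h.T).2
  have h3 := xx_bd.2
  have hcR : (240 : ℝ) ≤ c := by exact_mod_cast hc
  have hnR : (2 : ℝ) * c ≤ n := by exact_mod_cast hn
  have hn0 : (0 : ℝ) ≤ n := Nat.cast_nonneg n
  have hcn : (0 : ℝ) ≤ (c : ℝ) * n := by positivity
  have h4 : (a.T : ℝ) ≤ 0.19 * (c * n) + n := by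
    have h5 : xx * c * n ≤ 0.19 * (c * n) := by
      rw [mul_assoc]
      exact mul_le_mul_of_nonneg_right (by linarith) hcn
    have h6 : e * n ≤ 1 * n := mul_le_mul_of_nonneg_right he hn0
    linarith
  have h1R : 2 * (dl c n : ℝ) = (c : ℝ) * (2 * n - c + 1) := by exact_mod_cast h1
  have hT0 : (0 : ℤ) ≤ a.T := Int.natCast_nonneg _
  constructor
  · have h5 : (0 : ℝ) < (dl c n : ℝ) - a.T := by
      have h6 : (240 : ℝ) * n ≤ c * n := mul_le_mul_of_nonneg_right hcR hn0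
      have h7 : (c : ℝ) * (2 * c) ≤ c * n := mul_le_mul_of_nonneg_left hnR (by linarith)
      nlinarith
    have h6 : (0 : ℤ) < dl c n - a.T := by exact_mod_cast h5
    omega
  · have hcZ : (240 : ℤ) ≤ c := by exact_mod_cast hc
    nlinarith

/-- The black boxes for `n ≥ n₁`. -/
structure Bx (c : ℕ) (e η η' : ℝ) (n₁ : ℕ) : Prop where
  hc : 240 ≤ c
  he1 : e ≤ 1
  hη : 0 < η'
  hηη : 4 * c * η' = η
  n₁c : 2 * c + 2 ≤ n₁
  n₁η : 4 * (c : ℝ) ≤ n₁ * η
  n₁η' : 1 ≤ n₁ * η'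
  alpha : ∀ n, n₁ ≤ n → ∀ a : L1, Cls1 c n e a → a.u = 0 → a.s = 0 → (H1 c n a : ℤ) ≤ v1 c n a
  num : ∀ n, n₁ ≤ n → ∀ a : L1, Cls1 c n e a → a.s = 0 → ∀ g : ℤ, 0 ≤ g →
      (g : ℝ) ≤ η * (n : ℝ) ^ 3 → -((c : ℤ) * n) ≤ v1 c n a - g →
      ((v1 c n a - g : ℤ) : ℝ) ≤ η * (n : ℝ) ^ 2 →
      ∃ (a' : L1) (r : ℕ), a'.s = 0 ∧ Cls1 c (n - c) e a' ∧ v1 c (n - c) a' = g + r ∧ 1 ≤ r ∧
        r ≤ c ∧ ∀ s : ℕ, (H1 c n a : ℤ) ≤
          s + max 0 ((H1 c (n - c) a' : ℤ) - s - r) + max 0 (v1 c n a - g)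

theorem cubes {c n η η' : ℝ} (hc : 240 ≤ c) (hn : 2 * c + 2 ≤ n) (hη' : 0 < η')
    (hηη : 4 * c * η' = η) (h1 : 4 * c ≤ n * η) (h2 : 1 ≤ n * η') :
    1 ≤ η' * n ^ 3 - η' * (n - c) ^ 3 ∧
      η' * n ^ 3 + c * n - η' * (n - c) ^ 3 ≤ η * n ^ 2 ∧
      η' * n ^ 3 + c * n ≤ η * n ^ 3 ∧ c + 1 ≤ c * (n - c) := by
  have hη : 0 < η := by
    rw [← hηη]
    positivity
  have hn0 : 0 ≤ n := by linarith
  have hncpos : (0 : ℝ) ≤ n - c := by linarith
  have e1 : n ^ 3 - (n - c) ^ 3 = 3 * c * n ^ 2 - c ^ 2 * (3 * n - c) := by ring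
  have e2 : n ^ 3 - (n - c) ^ 3 = c * (n ^ 2 + n * (n - c) + (n - c) ^ 2) := by ring
  have h3 : (0 : ℝ) ≤ c ^ 2 * (3 * n - c) := by
    apply mul_nonneg (by positivity)
    linarith
  have h4 : n ≤ n ^ 2 := by
    have : 1 * n ≤ n * n := mul_le_mul_of_nonneg_right (by linarith) hn0
    linarith
  have h5 : (0 : ℝ) ≤ n * (n - c) := mul_nonneg hn0 hncpos
  have h6 : n ≤ n ^ 2 + n * (n - c) + (n - c) ^ 2 := by
    have := sq_nonneg (n - c)
    linarith
  have h7 : n ≤ n ^ 3 - (n - c) ^ 3 := by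
    rw [e2]
    have h8 : 1 * n ≤ c * (n ^ 2 + n * (n - c) + (n - c) ^ 2) :=
      mul_le_mul (by linarith) h6 hn0 (by linarith)
    linarith
  have h9 : c * n ≤ η / 4 * n ^ 2 := by
    have h10 : 4 * c * n ≤ n * η * n := mul_le_mul_of_nonneg_right h1 hn0
    linarith
  refine ⟨?_, ?_, ?_, ?_⟩
  · have h8 := mul_le_mul_of_nonneg_left h7 hη'.le
    linarith
  · have h8 : η' * (n ^ 3 - (n - c) ^ 3) ≤ η' * (3 * c * n ^ 2) :=
      mul_le_mul_of_nonneg_left (by rw [e1]; linarith) hη'.le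
    have h10 : η' * (3 * c * n ^ 2) = 3 / 4 * η * n ^ 2 := by
      rw [← hηη]
      ring
    linarith
  · have h8 : η' ≤ η / 4 := by
      have : 1 * η' ≤ c * η' := mul_le_mul_of_nonneg_right (by linarith) hη'.le
      linarith
    have h10 : η' * n ^ 3 ≤ η / 4 * n ^ 3 := mul_le_mul_of_nonneg_right h8 (by positivity)
    have h11 : n ^ 2 ≤ n ^ 3 := by
      have : 1 * n ^ 2 ≤ n * n ^ 2 := mul_le_mul_of_nonneg_right (by linarith) (by positivity)
      linarith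
    have h12 : η / 4 * n ^ 2 ≤ η / 4 * n ^ 3 := mul_le_mul_of_nonneg_left h11 (by linarith)
    have h13 : 0 ≤ η * n ^ 3 := by positivity
    linarith
  · have h8 : c * 2 ≤ c * (n - c) := mul_le_mul_of_nonneg_left (by linarith) (by linarith)
    linarith

/-- (i) -/
theorem Bx.bounded {c : ℕ} {e η η' : ℝ} {n₁ : ℕ} (B : Bx c e η η' n₁) : ∃ K : ℕ,
    ∀ n, n₁ ≤ n → ∀ a : L1, Cls1 c n e a → a.s = 0 → η' * (n : ℝ) ^ 3 ≤ v1 c n a →
      (v1 c n a : ℝ) ≤ η' * (n : ℝ) ^ 3 + c * n → (H1 c n a : ℤ) - v1 c n a ≤ K := by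
  classical
  have hc := B.hc
  have hη' := B.hη
  have hn₁c := B.n₁c
  obtain ⟨K, hKdef⟩ : ∃ K : ℕ, K = ∑ m ∈ range (n₁ + c),
      Fintype.card {x // x ∈ Pool.Agent.V7.Ex (Pool.Agent.V7.blk c m) 4 1} := ⟨_, rfl⟩
  refine ⟨K, ?_⟩
  intro n
  induction n using Nat.strong_induction_on with
  | _ n ih =>
    intro hn a ha has hv1 hv2
    have hv0 : (0 : ℤ) ≤ v1 c n a := by
      have h1 : (0 : ℝ) ≤ v1 c n a := le_trans (by positivity) hv1
      exact_mod_cast h1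
    by_cases hlt : n < n₁ + c
    · have h1 := H1_le_card c n a
      have h2 : Fintype.card {x // x ∈ Pool.Agent.V7.Ex (Pool.Agent.V7.blk c n) 4 1} ≤ K := by
        rw [hKdef]
        exact single_le_sum (f := fun m => Fintype.card
          {x // x ∈ Pool.Agent.V7.Ex (Pool.Agent.V7.blk c m) 4 1}) (fun _ _ => Nat.zero_le _)
          (mem_range.2 hlt)
      omega
    push Not at hlt
    have hnc : ((n - c : ℕ) : ℝ) = n - c := by
      rw [Nat.cast_sub (by omega)]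
    have hnn : (n₁ : ℝ) ≤ n := by exact_mod_cast hn
    have hη : 0 < η := by
      rw [← B.hηη]
      have : (240 : ℝ) ≤ c := by exact_mod_cast hc
      positivity
    obtain ⟨c1, c2, c3, c4⟩ := cubes (c := c) (n := n) (by exact_mod_cast hc)
      (by
        have h1 : 2 * c + 2 ≤ n := by omega
        exact_mod_cast h1) hη' B.hηη
      (B.n₁η.trans (mul_le_mul_of_nonneg_right hnn hη.le))
      (B.n₁η'.trans (mul_le_mul_of_nonneg_right hnn hη'.le))
    obtain ⟨g, hgdef⟩ : ∃ g : ℤ, g = ⌈η' * ((n - c : ℕ) : ℝ) ^ 3⌉ := ⟨_, rfl⟩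
    have hg1 : η' * ((n - c : ℕ) : ℝ) ^ 3 ≤ g := by rw [hgdef]; exact Int.le_ceil _
    have hg2 : (g : ℝ) < η' * ((n - c : ℕ) : ℝ) ^ 3 + 1 := by
      rw [hgdef]
      exact Int.ceil_lt_add_one _
    rw [hnc] at hg1 hg2
    have hg0 : (0 : ℤ) ≤ g := by
      have h1 : (0 : ℝ) ≤ g := by
        refine le_trans ?_ hg1
        rw [← hnc]
        positivity
      exact_mod_cast h1
    have hvg : (0 : ℤ) ≤ v1 c n a - g := by
      have h1 : (0 : ℝ) < (v1 c n a : ℝ) - g := by linarith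
      have h2 : (0 : ℤ) < v1 c n a - g := by exact_mod_cast h1
      omega
    have hgη : (g : ℝ) ≤ η * (n : ℝ) ^ 3 := by
      have h1 : (g : ℝ) ≤ v1 c n a := by
        have h2 : g ≤ v1 c n a := by omega
        exact_mod_cast h2
      linarith
    obtain ⟨a', r, ha's, ha', hv, hr1, hr2, hstep⟩ := B.num n hn a ha has g hg0 hgη
      (by
        have h1 : (0 : ℤ) ≤ (c : ℤ) * n := by positivity
        omega)
      (by
        push_cast
        linarith)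
    have h1 := hstep 0
    have h2 := ih (n - c) (by omega) (by omega) a' ha' ha's (by
      rw [hv, hnc]
      push_cast
      have h3 : (0 : ℝ) ≤ r := Nat.cast_nonneg r
      linarith) (by
      rw [hv, hnc]
      push_cast
      have h3 : (r : ℝ) ≤ c := by exact_mod_cast hr2
      linarith)
    rw [hv] at h2
    rw [max_eq_right hvg] at h1
    have h3 : (0 : ℤ) ≤ K := Int.natCast_nonneg K
    rcases le_total ((H1 c (n - c) a' : ℤ) - (0 : ℕ) - r) 0 with h4 | h4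
    · rw [max_eq_left h4] at h1
      push_cast at h1
      linarith
    · rw [max_eq_right h4] at h1
      push_cast at h1
      linarith

theorem Bx.base {c : ℕ} {e η η' : ℝ} {n₁ : ℕ} (B : Bx c e η η' n₁) {n : ℕ} (hn : n₁ ≤ n)
    {a : L1} (ha : Cls1 c n e a) (has : a.s = 0) :
    (H1 c n { a with u := 0 } : ℤ) ≤ v1 c n { a with u := 0 } :=
  B.alpha n hn _ (ha.setu 0) rfl has

/-- The numbers for (ii). -/
theorem num_ii {c n η' : ℝ} {K D δ v g : ℝ} (hη' : 0 < η') (hK : 0 ≤ K)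
    (hD : (c * (K + 1) + 1) / η' ≤ D) (hDn : D ≤ n) (hn : 1 ≤ n) (hδ : δ ≤ c * n)
    (hv : 2 * η' * n ^ 3 ≤ v) (hg : g < η' * n ^ 3 + 1) : (K + 1) * δ ≤ v - g := by
  have h3 : (K + 1) * δ ≤ (K + 1) * (c * n) := mul_le_mul_of_nonneg_left hδ (by positivity)
  have h4 : (c * (K + 1) + 1) ≤ D * η' := by
    rwa [div_le_iff₀ hη'] at hD
  have h5 : D * η' ≤ n * η' := mul_le_mul_of_nonneg_right hDn hη'.le
  have h6 : (c * (K + 1) + 1) * n ≤ (n * η') * n :=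
    mul_le_mul_of_nonneg_right (h4.trans h5) (by linarith)
  have h7 : n * η' * n ≤ η' * n ^ 3 := by
    have h8 : n ^ 2 ≤ n ^ 3 := pow_le_pow_right₀ hn (by norm_num)
    have h9 := mul_le_mul_of_nonneg_left h8 hη'.le
    linarith
  linarith

/-- (ii) -/
theorem Bx.large {c : ℕ} {e η η' : ℝ} {n₁ : ℕ} (B : Bx c e η η' n₁) : ∃ n₂ : ℕ, n₁ ≤ n₂ ∧
    ∀ n, n₂ ≤ n → ∀ a : L1, Cls1 c n e a → a.s = 0 →
      2 * η' * (n : ℝ) ^ 3 ≤ v1 c n a → (H1 c n a : ℤ) ≤ v1 c n a := by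
  obtain ⟨K, hi⟩ := B.bounded
  have hc := B.hc
  have hη' := B.hη
  have hn₁c := B.n₁c
  obtain ⟨D, hD⟩ := exists_nat_ge ((c * ((K : ℝ) + 1) + 1) / η')
  refine ⟨n₁ + D, by omega, ?_⟩
  intro n hn a ha has hv
  by_contra hcon
  push Not at hcon
  have hnR : (n₁ : ℝ) + D ≤ n := by exact_mod_cast hn
  have hn1R : (1 : ℝ) ≤ n₁ := by
    have : 1 ≤ n₁ := by omega
    exact_mod_cast this
  have hD0 : (0 : ℝ) ≤ D := Nat.cast_nonneg D
  obtain ⟨hδ1, hδ2⟩ := unit_bd hc (by omega : 2 * c ≤ n) B.he1 ha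
  obtain ⟨δ, hδdef⟩ : ∃ δ : ℤ, δ = dl c n - a.T := ⟨_, rfl⟩
  rw [← hδdef] at hδ1 hδ2
  have hvu : ∀ k, v1 c n { a with u := k } = v1 c n { a with u := 0 } - k * δ := by
    intro k
    have h1 := v1_u c n { a with u := 0 } k
    simp only [zero_add] at h1
    rw [h1, hδdef]
    rfl
  obtain ⟨φ, hφ⟩ : ∃ φ : ℕ → ℤ, ∀ k, φ k = (H1 c n { a with u := k } : ℤ) -
      v1 c n { a with u := k } := ⟨_, fun _ => rfl⟩
  have hφ0 : φ 0 ≤ 0 := by
    rw [hφ]
    have h1 := B.base (by omega : n₁ ≤ n) ha has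
    linarith
  have hφc : ∀ k, 2 * φ (k + 1) ≤ φ k + φ (k + 2) := by
    intro k
    have h1 := H1_convex c n { a with u := k }
    simp only at h1
    have h2 : 2 * (H1 c n { a with u := k + 1 } : ℤ) ≤ H1 c n { a with u := k } +
        H1 c n { a with u := k + 2 } := by exact_mod_cast h1
    rw [hφ, hφ, hφ, hvu (k + 1), hvu k, hvu (k + 2)]
    push_cast
    linarith
  have hφm : 1 ≤ φ a.u := by
    rw [hφ]
    have h1 : 1 ≤ (H1 c n a : ℤ) - v1 c n a := by omega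
    exact h1
  have hgrow := convex_grow φ hφ0 hφc a.u hφm
  -- the number of further points
  obtain ⟨g, hgdef⟩ : ∃ g : ℤ, g = ⌈η' * (n : ℝ) ^ 3⌉ := ⟨_, rfl⟩
  have hg1 : η' * (n : ℝ) ^ 3 ≤ g := by rw [hgdef]; exact Int.le_ceil _
  have hg2 : (g : ℝ) < η' * (n : ℝ) ^ 3 + 1 := by
    rw [hgdef]
    exact Int.ceil_lt_add_one _
  have hvg : ((K : ℤ) + 1) * δ ≤ v1 c n a - g := by
    have h1 : ((K : ℝ) + 1) * δ ≤ (v1 c n a : ℝ) - g :=
      num_ii hη' (Nat.cast_nonneg K) hD (by linarith) (by linarith)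
        (by exact_mod_cast hδ2) hv hg2
    exact_mod_cast h1
  obtain ⟨j, hj⟩ : ∃ j : ℕ, (j : ℤ) = (v1 c n a - g) / δ := by
    refine ⟨((v1 c n a - g) / δ).toNat, ?_⟩
    rw [Int.toNat_of_nonneg]
    apply Int.ediv_nonneg _ (by omega)
    have : (0 : ℤ) ≤ ((K : ℤ) + 1) * δ := mul_nonneg (by omega) (by omega)
    omega
  have hjK : (K : ℤ) + 1 ≤ j := by
    rw [hj]
    exact (Int.le_ediv_iff_mul_le (by omega)).2 hvg
  have hmod1 := Int.emod_nonneg (v1 c n a - g) (by omega : δ ≠ 0)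
  have hmod2 := Int.emod_lt_of_pos (v1 c n a - g) (by omega : 0 < δ)
  have hdiv := Int.emod_add_mul_ediv (v1 c n a - g) δ
  rw [← hj] at hdiv
  have hvj : v1 c n { a with u := a.u + j } = v1 c n a - j * δ := by
    have h1 := v1_u c n a j
    rw [h1, hδdef]
  have hvj2 : v1 c n { a with u := a.u + j } = g + (v1 c n a - g) % δ := by
    rw [hvj]
    linarith
  have h1 := hi n (by omega) { a with u := a.u + j } (ha.setu _) has
    (by
      rw [hvj2]
      push_cast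
      have h2 : (0 : ℝ) ≤ (((v1 c n a - g) % δ : ℤ) : ℝ) := by exact_mod_cast hmod1
      linarith)
    (by
      rw [hvj2]
      push_cast
      have h2 : (((v1 c n a - g) % δ : ℤ) : ℝ) + 1 ≤ δ := by exact_mod_cast hmod2
      have h3 : (δ : ℝ) ≤ c * n := by exact_mod_cast hδ2
      linarith)
  have h2 := hgrow j
  rw [hφ] at h2
  omega

/-- (iii), one step. -/
theorem Bx.down {c : ℕ} {e η η' : ℝ} {n₁ : ℕ} (B : Bx c e η η' n₁) {n : ℕ} (hn : n₁ ≤ n)
    (t : ℕ) (hlarge : ∀ a : L1, Cls1 c n e a → a.s = 0 →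
      2 * η' * (n : ℝ) ^ 3 ≤ v1 c n a → (H1 c n a : ℤ) ≤ v1 c n a)
    (ht : ∀ a : L1, Cls1 c (n - c) e a → a.s = 0 → (t : ℤ) ≤ v1 c (n - c) a →
      (H1 c (n - c) a : ℤ) ≤ v1 c (n - c) a)
    (a : L1) (ha : Cls1 c n e a) (has : a.s = 0) (hv : ((t - 1 : ℕ) : ℤ) ≤ v1 c n a) :
    (H1 c n a : ℤ) ≤ v1 c n a := by
  have hv0 : (0 : ℤ) ≤ v1 c n a := le_trans (Int.natCast_nonneg _) hv
  by_cases hl : 2 * η' * (n : ℝ) ^ 3 ≤ v1 c n a
  · exact hlarge a ha has hl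
  push Not at hl
  have hn0 : (0 : ℝ) ≤ (n : ℝ) ^ 3 := by positivity
  have hη' := B.hη
  have h2η : 2 * η' ≤ η := by
    rw [← B.hηη]
    have h1 : (240 : ℝ) ≤ c := by exact_mod_cast B.hc
    have h2 : 2 * η' ≤ (4 * c) * η' := mul_le_mul_of_nonneg_right (by linarith) hη'.le
    exact h2
  have hη : 0 < η := lt_of_lt_of_le (by linarith) h2η
  obtain ⟨a', r, ha's, ha', hvr, hr1, hr2, hstep⟩ := B.num n hn a ha has (v1 c n a) hv0
    (hl.le.trans (mul_le_mul_of_nonneg_right h2η hn0))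
    (by
      have h1 : (0 : ℤ) ≤ (c : ℤ) * n := by positivity
      omega)
    (by
      rw [sub_self]
      push_cast
      positivity)
  have h1 := ht a' ha' ha's (by rw [hvr]; omega)
  obtain ⟨s, hs⟩ := Int.eq_ofNat_of_zero_le hv0
  have h2 := hstep s
  rw [hs] at h2 hvr ⊢
  rw [hvr] at h1
  rw [sub_self, max_self, max_eq_left (by omega)] at h2
  omega

/-- (iii) -/
theorem Bx.zero {c : ℕ} {e η η' : ℝ} {n₁ : ℕ} (B : Bx c e η η' n₁) : ∃ n₃ : ℕ, n₁ ≤ n₃ ∧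
    ∀ n, n₃ ≤ n → ∀ a : L1, Cls1 c n e a → a.s = 0 → (0 : ℤ) ≤ v1 c n a →
      (H1 c n a : ℤ) ≤ v1 c n a := by
  obtain ⟨n₂, hn₂, hii⟩ := B.large
  have hc := B.hc
  have hη' := B.hη
  have hall : ∀ n, n₂ ≤ n → ∀ i : ℕ, ∀ T : ℕ,
      (∀ a : L1, Cls1 c n e a → a.s = 0 → (T : ℤ) ≤ v1 c n a → (H1 c n a : ℤ) ≤ v1 c n a) →
      ∀ a : L1, Cls1 c (n + i * c) e a → a.s = 0 → ((T - i : ℕ) : ℤ) ≤ v1 c (n + i * c) a →
        (H1 c (n + i * c) a : ℤ) ≤ v1 c (n + i * c) a := by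
    intro n hn i
    induction i with
    | zero =>
      intro T hT
      simpa using hT
    | succ i ih =>
      intro T hT
      have h1 := ih T hT
      have hi : (i + 1) * c = i * c + c := by ring
      have h2 := B.down (n := n + (i + 1) * c) (by omega) (T - i)
        (hii (n + (i + 1) * c) (by omega))
      have h3 : n + (i + 1) * c - c = n + i * c := by omega
      rw [h3] at h2
      have h4 : T - i - 1 = T - (i + 1) := by omega
      rw [h4] at h2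
      exact h2 h1
  obtain ⟨T₀, hT₀⟩ := exists_nat_ge (2 * η' * ((n₂ + c : ℕ) : ℝ) ^ 3)
  refine ⟨n₂ + c + T₀ * c, by omega, ?_⟩
  intro n hn a ha has hv
  obtain ⟨m, i, hm1, hm2, hi', hmi⟩ : ∃ m i : ℕ, n₂ ≤ m ∧ m < n₂ + c ∧ T₀ ≤ i ∧
      n = m + i * c := by
    refine ⟨n₂ + (n - n₂) % c, (n - n₂) / c, by omega, ?_, ?_, ?_⟩
    · have := Nat.mod_lt (n - n₂) (by omega : 0 < c)
      omega
    · rw [Nat.le_div_iff_mul_le (by omega)]
      omega
    · have := Nat.mod_add_div (n - n₂) c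
      have h2 : c * ((n - n₂) / c) = (n - n₂) / c * c := mul_comm _ _
      omega
  have h1 := hall m hm1 i T₀ (fun a ha has hv => hii m hm1 a ha has (by
    have h2 : ((m : ℕ) : ℝ) ≤ ((n₂ + c : ℕ) : ℝ) := by exact_mod_cast hm2.le
    have h3 : (m : ℝ) ^ 3 ≤ ((n₂ + c : ℕ) : ℝ) ^ 3 :=
      pow_le_pow_left₀ (Nat.cast_nonneg m) h2 3
    have h4 : 2 * η' * (m : ℝ) ^ 3 ≤ 2 * η' * ((n₂ + c : ℕ) : ℝ) ^ 3 :=
      mul_le_mul_of_nonneg_left h3 (by positivity)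
    have h5 : (T₀ : ℝ) ≤ v1 c m a := by exact_mod_cast hv
    linarith))
  rw [← hmi] at h1
  refine h1 a ha has ?_
  have h2 : T₀ - i = 0 := by omega
  rw [h2]
  exact hv

/-- (iv) -/
theorem Bx.all {c : ℕ} {e η η' : ℝ} {n₁ : ℕ} (B : Bx c e η η' n₁) : ∃ n₄ : ℕ,
    ∀ n, n₄ ≤ n → ∀ a : L1, Cls1 c n e a → a.s = 0 → (H1 c n a : ℤ) ≤ max 0 (v1 c n a) := by
  obtain ⟨n₃, hn₃, hzero⟩ := B.zero
  have hc := B.hc
  have hη' := B.hη
  have hn₁c := B.n₁c
  have hη : 0 < η := by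
    rw [← B.hηη]
    have : (240 : ℝ) ≤ c := by exact_mod_cast hc
    positivity
  refine ⟨n₃ + c, fun n hn a ha has => ?_⟩
  by_cases hv : 0 ≤ v1 c n a
  · rw [max_eq_right hv]
    exact hzero n (by omega) a ha has hv
  push Not at hv
  -- the first negative one
  have hex : ∃ k, v1 c n { a with u := k } < 0 := ⟨a.u, hv⟩
  have hk := Nat.find_spec hex
  have hkmin : ∀ k' < Nat.find hex, 0 ≤ v1 c n { a with u := k' } := fun k' hk' => by
    have := Nat.find_min hex hk'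
    omega
  obtain ⟨k, hkdef⟩ : ∃ k, k = Nat.find hex := ⟨_, rfl⟩
  rw [← hkdef] at hk hkmin
  have hku : k ≤ a.u := by
    rw [hkdef]
    exact Nat.find_min' hex hv
  obtain ⟨hδ1, hδ2⟩ := unit_bd hc (by omega : 2 * c ≤ n) B.he1 ha
  have hk0 : k ≠ 0 := by
    intro h0
    have h1 := B.base (by omega : n₁ ≤ n) ha has
    have h2 : (0 : ℤ) ≤ H1 c n { a with u := 0 } := Int.natCast_nonneg _
    rw [h0] at hk
    omega
  have hk1 : -((c : ℤ) * n) ≤ v1 c n { a with u := k } := by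
    obtain ⟨k', hk'⟩ := Nat.exists_eq_succ_of_ne_zero hk0
    have h1 := hkmin k' (by omega)
    have h2 := v1_u c n { a with u := k' } 1
    simp only at h2
    have h3 : ({ a with u := k' + 1 } : L1) = { a with u := k } := by rw [hk']
    rw [← h3, h2]
    have h4 : (({ a with u := k' } : L1).T : ℤ) = a.T := rfl
    rw [h4]
    push_cast
    linarith
  have hk2 : ((v1 c n { a with u := k } : ℤ) : ℝ) ≤ 0 := by exact_mod_cast hk.le
  obtain ⟨a', r, ha's, ha', hvr, hr1, hr2, hstep⟩ := B.num n (by omega) { a with u := k }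
    (ha.setu k) has 0 le_rfl (by push_cast; positivity) (by rw [sub_zero]; exact hk1)
    (by rw [sub_zero]; exact hk2.trans (by positivity))
  have h1 := hzero (n - c) (by omega) a' ha' ha's (by rw [hvr]; omega)
  rw [hvr, zero_add] at h1
  have h2 := hstep 0
  rw [sub_zero, max_eq_left hk.le, max_eq_left (by push_cast; omega)] at h2
  have h3 := H1_mono c n { a with u := k } (a.u - k)
  simp only at h3
  have h4 : k + (a.u - k) = a.u := by omega
  rw [h4] at h3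
  have h5 : H1 c n a ≤ H1 c n { a with u := k } := h3
  have h6 : H1 c n a = 0 := by
    push_cast at h2
    omega
  rw [h6]
  exact le_max_left _ _

theorem prop1_of (c : ℕ) (hc : 240 ≤ c) (h60 : 60 ∣ c) (hA : ALPHA1 c) (hP : PROP2 c) :
    PROP1 c := by
  obtain ⟨e₂, he₂, n₂, hP⟩ := hP
  obtain ⟨eA, heA, nA, hA⟩ := hA
  obtain ⟨e₀, he₀, hnum⟩ := num1 c hc h60 e₂ he₂
  obtain ⟨e, he_def⟩ : ∃ e, e = min e₀ (min eA 1) := ⟨_, rfl⟩
  have he : 0 < e := by rw [he_def]; exact lt_min he₀ (lt_min heA one_pos)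
  have hee₀ : e ≤ e₀ := by rw [he_def]; exact min_le_left _ _
  have heeA : e ≤ eA := by rw [he_def]; exact (min_le_right _ _).trans (min_le_left _ _)
  have he1 : e ≤ 1 := by rw [he_def]; exact (min_le_right _ _).trans (min_le_right _ _)
  obtain ⟨η, hη, nη, hnum⟩ := hnum e he hee₀
  have hcR : (240 : ℝ) ≤ c := by exact_mod_cast hc
  have hc0 : (0 : ℝ) < c := by linarith
  have hη' : 0 < η / (4 * c) := by positivity
  obtain ⟨B, hB⟩ := exists_nat_ge (4 * c / η + 1 / (η / (4 * c)))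
  have hB1 : 4 * c / η ≤ B := by
    have : 0 < 1 / (η / (4 * c)) := by positivity
    linarith
  have hB2 : 1 / (η / (4 * c)) ≤ B := by
    have : 0 < 4 * c / η := by positivity
    linarith
  rw [div_le_iff₀ hη] at hB1
  rw [div_le_iff₀ hη'] at hB2
  have hBn : (B : ℝ) ≤ ((n₂ + nA + nη + 2 * c + 2 + B : ℕ) : ℝ) := by
    have : B ≤ n₂ + nA + nη + 2 * c + 2 + B := by omega
    exact_mod_cast this
  have hBx : Bx c e η (η / (4 * c)) (n₂ + nA + nη + 2 * c + 2 + B) := by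
    refine ⟨hc, he1, hη', by field_simp, by omega,
      hB1.trans (mul_le_mul_of_nonneg_right hBn hη.le),
      hB2.trans (mul_le_mul_of_nonneg_right hBn hη'.le), ?_, ?_⟩
    · intro n hn a ha hau has
      exact hA n (by omega) a ⟨⟨ha.p, ha.q, ha.d, ha.w⟩, ha.T.trans
        (mul_le_mul_of_nonneg_right heeA (Nat.cast_nonneg n))⟩ hau has
    · intro n hn a ha has g hg hg1 hg2 hg3
      obtain ⟨k, hk, a', b, hs, ha's, ha', hv, hr, hb⟩ :=
        hnum n (by omega) a ha has g hg hg1 hg2 hg3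
      exact ⟨a', b.r, ha's, ha', hv, hr, hb.r,
        step_use (by omega) (by omega) hs has ha's hv (hP n (by omega) k hk b hb)⟩
  obtain ⟨n₄, hn₄⟩ := hBx.all
  exact ⟨e, he, n₄, hn₄⟩

end Pool.Agent.KZ
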