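import Pool.Agent.KZ.Cl0
import Pool.Agent.KZ.AL.Fin
import Pool.Agent.KZ.BE.Beta
import Pool.Agent.KZ.Top.Fin

/-!
# KZ4: exactness on the level `0`
-/

set_option autoImplicit false

namespace Pool.Agent.KZ

theorem prop0 : ∃ c, 1 ≤ c ∧ PROP0 c :=
  ⟨240, by norm_num, prop0_of 240 le_rfl (prop1_of 240 le_rfl (by norm_num)
    (alpha1 240 dvd_rfl le_rfl)
    (prop2_of 240 le_rfl (alpha2 240 dvd_rfl le_rfl) (BE.beta (by norm_num) le_rfl)))⟩

end Pool.Agent.KZ
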