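import Pool.Agent.KZ.Cert
import Pool.Agent.V7.Defs

/-!
# KZ4: the finite systems and their certificates

Quartic forms as symmetric tensors `h` (functions of exponents, `h e = e! f e`).

* `rowT p x y h`: the condition of a triple point `p`;
* `rowD p x h`: the condition of a double point `p`;
* `Sol A T D`: the solutions with the exponents `A` (extended by `0`);
* `finrank_sol_of_chk`: a certificate gives an upper bound for the dimension.
-/

set_option autoImplicit false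
set_option linter.unusedSectionVars false

namespace Pool.Agent.KZ

open Finset
open Pool.Agent.V7 (Ex mem_Ex)

section

variable {ν : Type} [Fintype ν] [DecidableEq ν] {R : Type} [CommRing R]

/-- The condition of a triple point `p`. -/
def rowT (p : ν → R) (x y : ν) (h : (ν → ℕ) → R) : R :=
  ∑ a, ∑ b, p a * p b * h (Pi.single a 1 + Pi.single b 1 + Pi.single x 1 + Pi.single y 1)

/-- The condition of a double point `p`. -/
def rowD (p : ν → R) (x : ν) (h : (ν → ℕ) → R) : R :=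
  ∑ a, ∑ b, ∑ c, p a * p b * p c *
    h (Pi.single a 1 + Pi.single b 1 + Pi.single c 1 + Pi.single x 1)

/-- Extension by `0`. -/
def ez (A : Finset (ν → ℕ)) (h : {e // e ∈ A} → R) (e : ν → ℕ) : R :=
  if he : e ∈ A then h ⟨e, he⟩ else 0

theorem ez_coe (A : Finset (ν → ℕ)) (h : {e // e ∈ A} → R) (e : {e // e ∈ A}) :
    ez A h e.1 = h e := dif_pos e.2

theorem ez_of_notMem {A : Finset (ν → ℕ)} (h : {e // e ∈ A} → R) {e : ν → ℕ} (he : e ∉ A) :
    ez A h e = 0 := dif_neg he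

theorem ez_add (A : Finset (ν → ℕ)) (h h' : {e // e ∈ A} → R) (e : ν → ℕ) :
    ez A (h + h') e = ez A h e + ez A h' e := by
  unfold ez
  split_ifs
  · rfl
  · rw [add_zero]

theorem ez_smul (A : Finset (ν → ℕ)) (c : R) (h : {e // e ∈ A} → R) (e : ν → ℕ) :
    ez A (c • h) e = c * ez A h e := by
  unfold ez
  split_ifs
  · rfl
  · rw [mul_zero]

theorem ez_zero (A : Finset (ν → ℕ)) (e : ν → ℕ) : ez A (0 : {e // e ∈ A} → R) e = 0 := by
  unfold ez
  split_ifs <;> rfl

theorem rowT_add (p : ν → R) (x y : ν) (h h' : (ν → ℕ) → R) :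
    rowT p x y (fun e => h e + h' e) = rowT p x y h + rowT p x y h' := by
  unfold rowT
  simp only [mul_add, sum_add_distrib]

theorem rowT_smul (p : ν → R) (x y : ν) (c : R) (h : (ν → ℕ) → R) :
    rowT p x y (fun e => c * h e) = c * rowT p x y h := by
  unfold rowT
  rw [mul_sum]
  refine sum_congr rfl fun a _ => ?_
  rw [mul_sum]
  exact sum_congr rfl fun b _ => by ring

theorem rowT_zero (p : ν → R) (x y : ν) : rowT p x y (fun _ => 0) = 0 := by
  unfold rowT
  simp only [mul_zero, sum_const_zero]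

theorem rowT_sum {ι : Type*} (p : ν → R) (x y : ν) (s : Finset ι) (h : ι → (ν → ℕ) → R) :
    rowT p x y (fun e => ∑ i ∈ s, h i e) = ∑ i ∈ s, rowT p x y (h i) := by
  classical
  induction s using Finset.induction_on with
  | empty =>
    simp only [sum_empty]
    exact rowT_zero p x y
  | insert i s hi ih =>
    simp only [sum_insert hi]
    rw [rowT_add, ih]

theorem rowD_add (p : ν → R) (x : ν) (h h' : (ν → ℕ) → R) :
    rowD p x (fun e => h e + h' e) = rowD p x h + rowD p x h' := by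
  unfold rowD
  simp only [mul_add, sum_add_distrib]

theorem rowD_smul (p : ν → R) (x : ν) (c : R) (h : (ν → ℕ) → R) :
    rowD p x (fun e => c * h e) = c * rowD p x h := by
  unfold rowD
  rw [mul_sum]
  refine sum_congr rfl fun a _ => ?_
  rw [mul_sum]
  refine sum_congr rfl fun b _ => ?_
  rw [mul_sum]
  exact sum_congr rfl fun d _ => by ring

theorem rowD_zero (p : ν → R) (x : ν) : rowD p x (fun _ => 0) = 0 := by
  unfold rowD
  simp only [mul_zero, sum_const_zero]

theorem rowD_sum {ι : Type*} (p : ν → R) (x : ν) (s : Finset ι) (h : ι → (ν → ℕ) → R) :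
    rowD p x (fun e => ∑ i ∈ s, h i e) = ∑ i ∈ s, rowD p x (h i) := by
  classical
  induction s using Finset.induction_on with
  | empty =>
    simp only [sum_empty]
    exact rowD_zero p x
  | insert i s hi ih =>
    simp only [sum_insert hi]
    rw [rowD_add, ih]

/-- The solutions. -/
def Sol (A : Finset (ν → ℕ)) (T D : Set (ν → R)) : Submodule R ({e // e ∈ A} → R) where
  carrier := {h | (∀ p ∈ T, ∀ x y, rowT p x y (ez A h) = 0) ∧ ∀ p ∈ D, ∀ x, rowD p x (ez A h) = 0}
  zero_mem' := by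
    have h0 : ez A (0 : {e // e ∈ A} → R) = fun _ => 0 := funext fun e => ez_zero A e
    refine ⟨fun p _ x y => ?_, fun p _ x => ?_⟩
    · rw [h0, rowT_zero]
    · rw [h0, rowD_zero]
  add_mem' := by
    rintro a b ⟨ha, ha'⟩ ⟨hb, hb'⟩
    have h0 : ez A (a + b) = fun e => ez A a e + ez A b e := funext fun e => ez_add A a b e
    refine ⟨fun p hp x y => ?_, fun p hp x => ?_⟩
    · rw [h0, rowT_add, ha p hp, hb p hp, add_zero]
    · rw [h0, rowD_add, ha' p hp, hb' p hp, add_zero]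
  smul_mem' := by
    rintro c a ⟨ha, ha'⟩
    have h0 : ez A (c • a) = fun e => c * ez A a e := funext fun e => ez_smul A c a e
    refine ⟨fun p hp x y => ?_, fun p hp x => ?_⟩
    · rw [h0, rowT_smul, ha p hp, mul_zero]
    · rw [h0, rowD_smul, ha' p hp, mul_zero]

theorem mem_Sol {A : Finset (ν → ℕ)} {T D : Set (ν → R)} {h : {e // e ∈ A} → R} :
    h ∈ Sol A T D ↔ (∀ p ∈ T, ∀ x y, rowT p x y (ez A h) = 0) ∧
      ∀ p ∈ D, ∀ x, rowD p x (ez A h) = 0 := Iff.rfl

/-- The matrix of the system. -/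
def Mx (A : Finset (ν → ℕ)) {m n : ℕ} (T : Fin m → ν → R) (D : Fin n → ν → R) :
    Matrix ((Fin m × ν × ν) ⊕ (Fin n × ν)) {e // e ∈ A} R :=
  Matrix.of fun i e => match i with
    | .inl (i, x, y) => rowT (T i) x y fun e' => if e' = e.1 then 1 else 0
    | .inr (i, x) => rowD (D i) x fun e' => if e' = e.1 then 1 else 0

private theorem Fs.ez_eq (A : Finset (ν → ℕ)) (h : {e // e ∈ A} → R) (e' : ν → ℕ) :
    ez A h e' = ∑ e : {e // e ∈ A}, h e * if e' = e.1 then 1 else 0 := by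
  by_cases he : e' ∈ A
  · rw [sum_eq_single_of_mem (⟨e', he⟩ : {e // e ∈ A}) (mem_univ _)]
    · rw [if_pos rfl, mul_one]
      exact dif_pos he
    · intro e _ hne
      rw [if_neg, mul_zero]
      intro h1
      exact hne (Subtype.ext h1.symm)
  · rw [ez_of_notMem h he]
    refine (sum_eq_zero fun e _ => ?_).symm
    rw [if_neg, mul_zero]
    rintro rfl
    exact he e.2

theorem Mx_inl (A : Finset (ν → ℕ)) {m n : ℕ} (T : Fin m → ν → R) (D : Fin n → ν → R)
    (h : {e // e ∈ A} → R) (i : Fin m) (x y : ν) :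
    ∑ e, Mx A T D (.inl (i, x, y)) e * h e = rowT (T i) x y (ez A h) := by
  have h1 : ez A h = fun e' => ∑ e : {e // e ∈ A}, h e * if e' = e.1 then 1 else 0 :=
    funext fun e' => Fs.ez_eq A h e'
  rw [h1, rowT_sum]
  refine sum_congr rfl fun e _ => ?_
  rw [rowT_smul, mul_comm]
  rfl

theorem Mx_inr (A : Finset (ν → ℕ)) {m n : ℕ} (T : Fin m → ν → R) (D : Fin n → ν → R)
    (h : {e // e ∈ A} → R) (i : Fin n) (x : ν) :
    ∑ e, Mx A T D (.inr (i, x)) e * h e = rowD (D i) x (ez A h) := by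
  have h1 : ez A h = fun e' => ∑ e : {e // e ∈ A}, h e * if e' = e.1 then 1 else 0 :=
    funext fun e' => Fs.ez_eq A h e'
  rw [h1, rowD_sum]
  refine sum_congr rfl fun e _ => ?_
  rw [rowD_smul, mul_comm]
  rfl

/-- The rank of the matrix and the dimension of the solutions. -/
theorem finrank_sol {K : Type} [Field K] (A : Finset (ν → ℕ)) {m n : ℕ} (T : Fin m → ν → K)
    (D : Fin n → ν → K) :
    Module.finrank K (Sol A (Set.range T) (Set.range D)) + (Mx A T D).rank = A.card := by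
  have h1 : Sol A (Set.range T) (Set.range D) = LinearMap.ker (Mx A T D).mulVecLin := by
    ext h
    rw [mem_Sol, LinearMap.mem_ker, Matrix.mulVecLin_apply]
    constructor
    · rintro ⟨h1, h2⟩
      funext i
      rcases i with ⟨i, x, y⟩ | ⟨i, x⟩
      · exact (Mx_inl A T D h i x y).trans (h1 (T i) ⟨i, rfl⟩ x y)
      · exact (Mx_inr A T D h i x).trans (h2 (D i) ⟨i, rfl⟩ x)
    · intro h1
      refine ⟨?_, ?_⟩
      · rintro _ ⟨i, rfl⟩ x y
        rw [← Mx_inl A T D]
        exact congrFun h1 (.inl (i, x, y))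
      · rintro _ ⟨i, rfl⟩ x
        rw [← Mx_inr A T D]
        exact congrFun h1 (.inr (i, x))
  rw [h1, Nat.add_comm]
  have h2 := LinearMap.finrank_range_add_finrank_ker (Mx A T D).mulVecLin
  rw [Module.finrank_fintype_fun_eq_card, Fintype.card_coe] at h2
  exact h2

theorem Mx_map {S : Type} [CommRing S] (φ : R →+* S) (A : Finset (ν → ℕ)) {m n : ℕ}
    (T : Fin m → ν → R) (D : Fin n → ν → R) :
    (Mx A T D).map φ = Mx A (fun i s => φ (T i s)) fun i s => φ (D i s) := by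
  ext i e
  rcases i with ⟨i, x, y⟩ | ⟨i, x⟩
  · show φ (rowT (T i) x y fun e' => if e' = e.1 then 1 else 0) =
      rowT (fun s => φ (T i s)) x y fun e' => if e' = e.1 then 1 else 0
    unfold rowT
    rw [map_sum]
    refine sum_congr rfl fun a _ => ?_
    rw [map_sum]
    refine sum_congr rfl fun b _ => ?_
    rw [map_mul, map_mul]
    congr 1
    beta_reduce
    split_ifs
    · exact map_one φ
    · exact map_zero φ
  · show φ (rowD (D i) x fun e' => if e' = e.1 then 1 else 0) =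
      rowD (fun s => φ (D i s)) x fun e' => if e' = e.1 then 1 else 0
    unfold rowD
    rw [map_sum]
    refine sum_congr rfl fun a _ => ?_
    rw [map_sum]
    refine sum_congr rfl fun b _ => ?_
    rw [map_sum]
    refine sum_congr rfl fun c _ => ?_
    rw [map_mul, map_mul, map_mul]
    congr 1
    beta_reduce
    split_ifs
    · exact map_one φ
    · exact map_zero φ

end

/-! ### Certificates -/

/-- The exponent code. -/
def cde {m : ℕ} (e : Fin m → ℕ) : ℕ := ∑ s, e s * 8 ^ s.1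

/-- Products of pairs of coordinates. -/
def sqL (L : List (ℕ × ℕ)) : List (ℕ × ℕ) :=
  L.flatMap fun a => L.map fun b => (a.2 * b.2, 8 ^ a.1 + 8 ^ b.1)

/-- Products of triples of coordinates. -/
def cuL (L : List (ℕ × ℕ)) : List (ℕ × ℕ) :=
  L.flatMap fun a => L.flatMap fun b => L.map fun c =>
    (a.2 * b.2 * c.2, 8 ^ a.1 + 8 ^ b.1 + 8 ^ c.1)

/-- The rows: `(i, x, y)` with `i < T.length` is the row `x, y` of the triple point `i`, the others are
the rows of the double points. -/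
def rwS (T D : List (List (ℕ × ℕ))) (l : ℕ × ℕ × ℕ) : List (ℕ × ℕ) :=
  bif Nat.blt l.1 T.length then
    (sqL (T.getD l.1 [])).map fun c => (c.1, c.2 + 8 ^ l.2.1 + 8 ^ l.2.2)
  else (cuL (D.getD (l.1 - T.length) [])).map fun c => (c.1, c.2 + 8 ^ l.2.1)

/-- The labels are in range. -/
def okLab (m a b : ℕ) (l : ℕ × ℕ × ℕ) : Bool :=
  Nat.blt l.1 (a + b) && (Nat.blt l.2.1 m && Nat.blt l.2.2 m)

/-- The digit of the variable `s`. -/
def dig (k s : ℕ) : ℕ := k / 8 ^ s % 8

/-- The number `k` is the code of an exponent of degree `d` which meets the blocks `0, …, j - 1`. -/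
def okCode (m d j : ℕ) (bt : ℕ → ℕ) (k : ℕ) : Bool :=
  Nat.blt k (8 ^ m) && (Nat.beq ((List.range m).map (dig k)).sum d &&
    (List.range j).all fun i => (List.range m).any fun s => Nat.beq (bt s) i && !Nat.beq (dig k s) 0)

/-- The list `L` represents the vector `q` modulo `p`. -/
def Rep {m : ℕ} (p : ℕ) (q : Fin m → ℤ) (L : List (ℕ × ℕ)) : Prop :=
  ∀ G : ℕ → ℤ, (p : ℤ) ∣ ∑ s, q s * G s.1 - (L.map fun e => (e.2 : ℤ) * G e.1).sum

private theorem Fs.cde_add {m : ℕ} (e e' : Fin m → ℕ) : cde (e + e') = cde e + cde e' := by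
  unfold cde
  simp only [Pi.add_apply, Nat.add_mul, sum_add_distrib]

private theorem Fs.cde_single {m : ℕ} (s : Fin m) : cde (Pi.single s 1 : Fin m → ℕ) = 8 ^ s.1 := by
  unfold cde
  rw [sum_eq_single_of_mem s (mem_univ s) fun t _ ht => by rw [Pi.single_eq_of_ne ht, Nat.zero_mul],
    Pi.single_eq_same, Nat.one_mul]

private theorem Fs.cde_eq {m : ℕ} (e : Fin m → ℕ) :
    cde e = ∑ j ∈ range m, (if h : j < m then e ⟨j, h⟩ else 0) * 8 ^ j := by
  unfold cde
  rw [← Fin.sum_univ_eq_sum_range (fun j => (if h : j < m then e ⟨j, h⟩ else 0) * 8 ^ j) m]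
  refine sum_congr rfl fun s _ => ?_
  rw [dif_pos s.2]

theorem cde_inj {m : ℕ} {e e' : Fin m → ℕ} (he : ∀ s, e s < 8) (he' : ∀ s, e' s < 8)
    (h : cde e = cde e') : e = e' := by
  rw [Fs.cde_eq, Fs.cde_eq] at h
  funext s
  have h1 := digits_uniq m _ _ (fun j hj => by rw [dif_pos hj]; exact he _)
    (fun j hj => by rw [dif_pos hj]; exact he' _) h s.1 s.2
  rwa [dif_pos s.2, dif_pos s.2] at h1

private theorem Fs.sum_range {m : ℕ} (f : ℕ → ℕ) :
    ((List.range m).map f).sum = ∑ s : Fin m, f s.1 := by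
  rw [Fin.sum_univ_eq_sum_range]
  induction m with
  | zero => rfl
  | succ m ih =>
    rw [List.range_succ, List.map_append, List.sum_append, ih, sum_range_succ]
    simp

theorem cde_of_okCode {m d j : ℕ} {bt : ℕ → ℕ} {k : ℕ} (h : okCode m d j bt k = true) :
    ∃ e : {e // e ∈ Ex (fun s : Fin m => bt s.1) d j}, cde e.1 = k := by
  unfold okCode at h
  rw [Bool.and_eq_true, Bool.and_eq_true] at h
  obtain ⟨h1, h2, h3⟩ := h
  have h1' : k < 8 ^ m := by
    have := Nat.le_of_ble_eq_true h1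
    omega
  rw [Nat.beq_eq, Fs.sum_range] at h2
  refine ⟨⟨fun s => dig k s.1, mem_Ex.2 ⟨h2, fun i hi => ?_⟩⟩, ?_⟩
  · rw [List.all_eq_true] at h3
    have h4 := h3 i (List.mem_range.2 hi)
    rw [List.any_eq_true] at h4
    obtain ⟨s, hs, h5⟩ := h4
    rw [List.mem_range] at hs
    rw [Bool.and_eq_true] at h5
    refine ⟨⟨s, hs⟩, ?_, ?_⟩
    · have := h5.1
      rw [Nat.beq_eq] at this
      exact this
    · intro h6
      have h7 := h5.2
      have h8 : dig k s = 0 := h6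
      rw [h8] at h7
      exact absurd h7 (by decide)
  · have h4 := sum_fld 3 m k (by
      rw [show (2 : ℕ) ^ 3 = 8 by norm_num]
      exact h1')
    rw [← Fin.sum_univ_eq_sum_range (fun j => fld 3 j k * (2 ^ 3) ^ j) m] at h4
    exact h4

section

variable {m : ℕ}

theorem rowT_rep {p : ℕ} {q : Fin m → ℤ} {L : List (ℕ × ℕ)} (hL : Rep p q L) (x y : Fin m)
    (F : ℕ → ℤ) : (p : ℤ) ∣ rowT q x y (fun e => F (cde e)) -
      (((sqL L).map fun c => (c.1, c.2 + 8 ^ x.1 + 8 ^ y.1)).map fun c => (c.1 : ℤ) * F c.2).sum := by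
  have h1 : rowT q x y (fun e => F (cde e)) =
      ∑ a : Fin m, q a * ∑ b : Fin m, q b * F (8 ^ a.1 + 8 ^ b.1 + 8 ^ x.1 + 8 ^ y.1) := by
    unfold rowT
    refine sum_congr rfl fun a _ => ?_
    rw [mul_sum]
    refine sum_congr rfl fun b _ => ?_
    beta_reduce
    rw [Fs.cde_add, Fs.cde_add, Fs.cde_add, Fs.cde_single, Fs.cde_single, Fs.cde_single,
      Fs.cde_single, mul_assoc]
  have h2 : (((sqL L).map fun c => (c.1, c.2 + 8 ^ x.1 + 8 ^ y.1)).map
      fun c => (c.1 : ℤ) * F c.2).sum = (L.map fun a => (a.2 : ℤ) *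
        (L.map fun b => (b.2 : ℤ) * F (8 ^ a.1 + 8 ^ b.1 + 8 ^ x.1 + 8 ^ y.1)).sum).sum := by
    unfold sqL
    rw [List.map_map]
    have key : ∀ L' : List (ℕ × ℕ), ((L'.flatMap fun a => L.map fun b =>
        (a.2 * b.2, 8 ^ a.1 + 8 ^ b.1)).map ((fun c => ((c.1 : ℕ) : ℤ) * F c.2) ∘ fun c : ℕ × ℕ =>
          (c.1, c.2 + 8 ^ x.1 + 8 ^ y.1))).sum = (L'.map fun a => (a.2 : ℤ) *
        (L.map fun b => (b.2 : ℤ) * F (8 ^ a.1 + 8 ^ b.1 + 8 ^ x.1 + 8 ^ y.1)).sum).sum := by
      intro L'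
      induction L' with
      | nil => rfl
      | cons a L' ih =>
        rw [List.flatMap_cons, List.map_append, List.sum_append, ih, List.map_cons, List.sum_cons]
        congr 1
        rw [List.map_map, ← List.sum_map_mul_left]
        refine congrArg List.sum (List.map_congr_left fun b _ => ?_)
        show ((a.2 * b.2 : ℕ) : ℤ) * _ = _
        rw [Nat.cast_mul, mul_assoc]
    exact key L
  rw [h1, h2]
  have h3 := hL fun a => ∑ b : Fin m, q b * F (8 ^ a + 8 ^ b.1 + 8 ^ x.1 + 8 ^ y.1)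
  have h4 : (p : ℤ) ∣ (L.map fun a => (a.2 : ℤ) *
      ∑ b : Fin m, q b * F (8 ^ a.1 + 8 ^ b.1 + 8 ^ x.1 + 8 ^ y.1)).sum - (L.map fun a => (a.2 : ℤ) *
        (L.map fun b => (b.2 : ℤ) * F (8 ^ a.1 + 8 ^ b.1 + 8 ^ x.1 + 8 ^ y.1)).sum).sum := by
    have key : ∀ L' : List (ℕ × ℕ), (p : ℤ) ∣ (L'.map fun a => (a.2 : ℤ) *
      ∑ b : Fin m, q b * F (8 ^ a.1 + 8 ^ b.1 + 8 ^ x.1 + 8 ^ y.1)).sum - (L'.map fun a => (a.2 : ℤ) *
        (L.map fun b => (b.2 : ℤ) * F (8 ^ a.1 + 8 ^ b.1 + 8 ^ x.1 + 8 ^ y.1)).sum).sum := by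
      intro L'
      induction L' with
      | nil => exact ⟨0, by simp⟩
      | cons a L' ih =>
        rw [List.map_cons, List.sum_cons, List.map_cons, List.sum_cons]
        have h5 := hL fun b => F (8 ^ a.1 + 8 ^ b + 8 ^ x.1 + 8 ^ y.1)
        obtain ⟨u, hu⟩ := h5
        obtain ⟨v, hv⟩ := ih
        exact ⟨a.2 * u + v, by linear_combination (a.2 : ℤ) * hu + hv⟩
    exact key L
  have h5 := dvd_add h3 h4
  rwa [sub_add_sub_cancel] at h5

private theorem Fs.rep_map {p : ℕ} {q : Fin m → ℤ} {L : List (ℕ × ℕ)} (hL : Rep p q L)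
    {ι : Type*} (L' : List ι) (f : ι → ℤ) (g : ι → ℕ → ℤ) :
    (p : ℤ) ∣ (L'.map fun a => f a * ∑ s, q s * g a s.1).sum -
      (L'.map fun a => f a * (L.map fun e => (e.2 : ℤ) * g a e.1).sum).sum := by
  induction L' with
  | nil => exact ⟨0, by simp⟩
  | cons a L' ih =>
    rw [List.map_cons, List.sum_cons, List.map_cons, List.sum_cons]
    obtain ⟨u, hu⟩ := hL (g a)
    obtain ⟨v, hv⟩ := ih
    exact ⟨f a * u + v, by linear_combination f a * hu + hv⟩

private theorem Fs.sum_flatMap {ι κ : Type*} (L : List ι) (f : ι → List κ) (g : κ → ℤ) :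
    ((L.flatMap f).map g).sum = (L.map fun a => ((f a).map g).sum).sum := by
  induction L with
  | nil => rfl
  | cons a L ih =>
    rw [List.flatMap_cons, List.map_append, List.sum_append, ih, List.map_cons, List.sum_cons]

theorem rowD_rep {p : ℕ} {q : Fin m → ℤ} {L : List (ℕ × ℕ)} (hL : Rep p q L) (x : Fin m)
    (F : ℕ → ℤ) : (p : ℤ) ∣ rowD q x (fun e => F (cde e)) -
      (((cuL L).map fun c => (c.1, c.2 + 8 ^ x.1)).map fun c => (c.1 : ℤ) * F c.2).sum := by
  have h1 : rowD q x (fun e => F (cde e)) = ∑ a : Fin m, q a * ∑ b : Fin m, q b *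
      ∑ c : Fin m, q c * F (8 ^ a.1 + 8 ^ b.1 + 8 ^ c.1 + 8 ^ x.1) := by
    unfold rowD
    refine sum_congr rfl fun a _ => ?_
    rw [mul_sum]
    refine sum_congr rfl fun b _ => ?_
    rw [mul_sum, mul_sum]
    refine sum_congr rfl fun c _ => ?_
    beta_reduce
    rw [Fs.cde_add, Fs.cde_add, Fs.cde_add, Fs.cde_single, Fs.cde_single, Fs.cde_single,
      Fs.cde_single]
    ring
  have h2 : (((cuL L).map fun c => (c.1, c.2 + 8 ^ x.1)).map fun c => (c.1 : ℤ) * F c.2).sum =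
      (L.map fun a => (a.2 : ℤ) * (L.map fun b => (b.2 : ℤ) *
        (L.map fun c => (c.2 : ℤ) * F (8 ^ a.1 + 8 ^ b.1 + 8 ^ c.1 + 8 ^ x.1)).sum).sum).sum := by
    unfold cuL
    rw [List.map_map, Fs.sum_flatMap]
    refine congrArg List.sum (List.map_congr_left fun a _ => ?_)
    rw [Fs.sum_flatMap, ← List.sum_map_mul_left]
    refine congrArg List.sum (List.map_congr_left fun b _ => ?_)
    rw [List.map_map, ← List.sum_map_mul_left, ← List.sum_map_mul_left]
    refine congrArg List.sum (List.map_congr_left fun c _ => ?_)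
    show ((a.2 * b.2 * c.2 : ℕ) : ℤ) * _ = _
    push_cast
    ring
  rw [h1, h2]
  obtain ⟨u, hu⟩ := hL fun a => ∑ b : Fin m, q b *
      ∑ c : Fin m, q c * F (8 ^ a + 8 ^ b.1 + 8 ^ c.1 + 8 ^ x.1)
  obtain ⟨v, hv⟩ := Fs.rep_map hL L (fun a => (a.2 : ℤ)) fun a b =>
      ∑ c : Fin m, q c * F (8 ^ a.1 + 8 ^ b + 8 ^ c.1 + 8 ^ x.1)
  have h3 : (p : ℤ) ∣ (L.map fun a => (a.2 : ℤ) * (L.map fun b => (b.2 : ℤ) *
      ∑ c : Fin m, q c * F (8 ^ a.1 + 8 ^ b.1 + 8 ^ c.1 + 8 ^ x.1)).sum).sum -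
      (L.map fun a => (a.2 : ℤ) * (L.map fun b => (b.2 : ℤ) *
        (L.map fun c => (c.2 : ℤ) * F (8 ^ a.1 + 8 ^ b.1 + 8 ^ c.1 + 8 ^ x.1)).sum).sum).sum := by
    have key : ∀ L' : List (ℕ × ℕ), (p : ℤ) ∣ (L'.map fun a => (a.2 : ℤ) * (L.map fun b =>
      (b.2 : ℤ) * ∑ c : Fin m, q c * F (8 ^ a.1 + 8 ^ b.1 + 8 ^ c.1 + 8 ^ x.1)).sum).sum -
      (L'.map fun a => (a.2 : ℤ) * (L.map fun b => (b.2 : ℤ) *
        (L.map fun c => (c.2 : ℤ) * F (8 ^ a.1 + 8 ^ b.1 + 8 ^ c.1 + 8 ^ x.1)).sum).sum).sum := by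
      intro L'
      induction L' with
      | nil => exact ⟨0, by simp⟩
      | cons a L' ih =>
        rw [List.map_cons, List.sum_cons, List.map_cons, List.sum_cons]
        obtain ⟨u', hu'⟩ := Fs.rep_map hL L (fun b => (b.2 : ℤ)) fun b c =>
          F (8 ^ a.1 + 8 ^ b.1 + 8 ^ c + 8 ^ x.1)
        obtain ⟨v', hv'⟩ := ih
        exact ⟨a.2 * u' + v', by linear_combination (a.2 : ℤ) * hu' + hv'⟩
    exact key L
  obtain ⟨z, hz⟩ := h3
  exact ⟨u + v + z, by linear_combination hu + hv + hz⟩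

/-- The elements of the range of the codes of a set of exponents of small degree. -/
private theorem Fs.ez_F {d j : ℕ} (hd : d < 8) (β : Fin m → ℕ) (F : ℕ → ℤ)
    (hF : ∀ k, k ∉ Set.range (fun e : {e // e ∈ Ex β d j} => cde e.1) → F k = 0)
    {e' : Fin m → ℕ} (he' : ∀ s, e' s < 8) :
    ez (Ex β d j) (fun e => F (cde e.1)) e' = F (cde e') := by
  by_cases he : e' ∈ Ex β d j
  · exact dif_pos he
  · rw [ez_of_notMem _ he]
    refine (hF _ ?_).symm
    rintro ⟨e, h1⟩
    apply he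
    have h2 : e.1 = e' := by
      refine cde_inj (fun s => ?_) he' h1
      have h3 := (mem_Ex.1 e.2).1
      have h4 := single_le_sum (f := e.1) (fun _ _ => Nat.zero_le _) (mem_univ s)
      omega
    rw [← h2]
    exact e.2

private theorem Fs.lt8 (a b x y s : Fin m) :
    (Pi.single a 1 + Pi.single b 1 + Pi.single x 1 + Pi.single y 1 : Fin m → ℕ) s < 8 := by
  have h1 : ∀ t : Fin m, (Pi.single t 1 : Fin m → ℕ) s ≤ 1 := by
    intro t
    by_cases h : s = t
    · rw [h, Pi.single_eq_same]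
    · rw [Pi.single_eq_of_ne h]
      exact Nat.zero_le _
  have := h1 a
  have := h1 b
  have := h1 x
  have := h1 y
  simp only [Pi.add_apply]
  omega

end

/-- **The dimension of the solutions from a certificate.** -/
theorem finrank_sol_of_chk {K : Type} [Field K] [CharZero K] {m d j w u q p : ℕ} (hd : d < 8)
    (bt : ℕ → ℕ) {a b : ℕ} (T : Fin a → Fin m → ℤ) (D : Fin b → Fin m → ℤ)
    (Lt Ld : List (List (ℕ × ℕ))) (ha : Lt.length = a)
    (hT : ∀ i : Fin a, Rep p (T i) (Lt.getD i.1 [])) (hD : ∀ i : Fin b, Rep p (D i) (Ld.getD i.1 []))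
    {N : Tri} {S : List (List (ℕ × ℕ × ℕ))}
    (h : chk w u q p N (okCode m d j bt) (rwS Lt Ld) S = true)
    (hS : (S.all fun ls => ls.all (okLab m a b)) = true) :
    Module.finrank K (Sol (Ex (fun s : Fin m => bt s.1) d j)
      (Set.range fun i s => ((T i s : ℤ) : K)) (Set.range fun i s => ((D i s : ℤ) : K))) +
      (S.map List.length).sum ≤ (Ex (fun s : Fin m => bt s.1) d j).card := by
  classical
  rw [← finrank_sol (Ex (fun s : Fin m => bt s.1) d j) (fun i s => ((T i s : ℤ) : K))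
    fun i s => ((D i s : ℤ) : K)]
  refine Nat.add_le_add_left ?_ _
  have h0 := Mx_map (Int.castRingHom K) (Ex (fun s : Fin m => bt s.1) d j) T D
  have h0' : Mx (Ex (fun s : Fin m => bt s.1) d j) (fun i s => ((T i s : ℤ) : K))
      (fun i s => ((D i s : ℤ) : K)) =
      (Mx (Ex (fun s : Fin m => bt s.1) d j) T D).map (Int.cast : ℤ → K) := h0.symm
  rw [h0']
  refine rank_of_chk _ (fun e : {e // e ∈ Ex (fun s : Fin m => bt s.1) d j} => cde e.1) h
    (fun k hk => ?_) fun ls hls l hl => ?_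
  · obtain ⟨e, he⟩ := cde_of_okCode hk
    exact ⟨e, he⟩
  · have h1 := List.all_eq_true.1 (List.all_eq_true.1 hS _ hls) l hl
    unfold okLab at h1
    rw [Bool.and_eq_true, Bool.and_eq_true] at h1
    obtain ⟨h2, h3, h4⟩ := h1
    have h2' : l.1 < a + b := Nat.le_of_ble_eq_true h2
    have h3' : l.2.1 < m := Nat.le_of_ble_eq_true h3
    have h4' : l.2.2 < m := Nat.le_of_ble_eq_true h4
    by_cases hl1 : l.1 < a
    · refine ⟨.inl (⟨l.1, hl1⟩, ⟨l.2.1, h3'⟩, ⟨l.2.2, h4'⟩), fun F hF => ?_⟩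
      rw [Mx_inl _ _ _ (fun e => F (cde e.1))]
      have h5 : rowT (T ⟨l.1, hl1⟩) ⟨l.2.1, h3'⟩ ⟨l.2.2, h4'⟩
          (ez (Ex (fun s : Fin m => bt s.1) d j) fun e => F (cde e.1)) =
          rowT (T ⟨l.1, hl1⟩) ⟨l.2.1, h3'⟩ ⟨l.2.2, h4'⟩ fun e => F (cde e) := by
        unfold rowT
        refine sum_congr rfl fun a' _ => sum_congr rfl fun b' _ => ?_
        rw [Fs.ez_F hd _ F hF (Fs.lt8 _ _ _ _)]
      rw [h5]
      have h6 : rwS Lt Ld l = (sqL (Lt.getD l.1 [])).map
          fun c => (c.1, c.2 + 8 ^ l.2.1 + 8 ^ l.2.2) := by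
        unfold rwS
        rw [show Nat.blt l.1 Lt.length = true from Nat.ble_eq_true_of_le (by rw [ha]; exact hl1)]
        rfl
      rw [h6]
      exact rowT_rep (hT ⟨l.1, hl1⟩) ⟨l.2.1, h3'⟩ ⟨l.2.2, h4'⟩ F
    · refine ⟨.inr (⟨l.1 - a, by omega⟩, ⟨l.2.1, h3'⟩), fun F hF => ?_⟩
      rw [Mx_inr _ _ _ (fun e => F (cde e.1))]
      have h5 : rowD (D ⟨l.1 - a, by omega⟩) ⟨l.2.1, h3'⟩
          (ez (Ex (fun s : Fin m => bt s.1) d j) fun e => F (cde e.1)) =
          rowD (D ⟨l.1 - a, by omega⟩) ⟨l.2.1, h3'⟩ fun e => F (cde e) := by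
        unfold rowD
        refine sum_congr rfl fun a' _ => sum_congr rfl fun b' _ => sum_congr rfl fun c' _ => ?_
        rw [Fs.ez_F hd _ F hF (Fs.lt8 _ _ _ _)]
      rw [h5]
      have h6 : rwS Lt Ld l = (cuL (Ld.getD (l.1 - a) [])).map
          fun c => (c.1, c.2 + 8 ^ l.2.1) := by
        unfold rwS
        have h7 : Nat.blt l.1 Lt.length = false := by
          cases h8 : Nat.blt l.1 Lt.length
          · rfl
          · have := Nat.le_of_ble_eq_true h8
            omega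
        rw [h7, ha]
        rfl
      rw [h6]
      exact rowD_rep (hD ⟨l.1 - a, by omega⟩) ⟨l.2.1, h3'⟩ F

/-! ### Shapes -/

/-- The point `∑ c * w k`, `(c, k) ∈ L`, where the vector `w k` is in the block `bv k`. -/
def ptL {ν R : Type} [CommRing R] (β : ν → ℕ) (bv : ℕ → ℕ) (w : ℕ → ν → R) (L : List (ℤ × ℕ)) :
    ν → R := fun s => (L.map fun c => (c.1 : R) * if β s = bv c.2 then w c.2 s else 0).sum

/-- The points with the combinations `T`. -/
def ptS {ν R : Type} [CommRing R] (β : ν → ℕ) (bv : ℕ → ℕ) (w : ℕ → ν → R)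
    (T : List (List (ℤ × ℕ))) : Set (ν → R) := {p | ∃ L ∈ T, p = ptL β bv w L}

/-- The statement of a check: for some position the system of the triple points `T` and the double
points `D` has at least `r` independent conditions. -/
def FsOk (m : ℕ) (bt : ℕ → ℕ) (d j : ℕ) (bv : ℕ → ℕ) (T D : List (List (ℤ × ℕ))) (r : ℕ) : Prop :=
  ∃ W : ℕ → Fin m → ℤ, Module.finrank ℂ (Sol (Ex (fun s : Fin m => bt s.1) d j)
    (ptS (fun s : Fin m => bt s.1) bv (fun k s => ((W k s : ℤ) : ℂ)) T)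
    (ptS (fun s : Fin m => bt s.1) bv (fun k s => ((W k s : ℤ) : ℂ)) D)) + r ≤
      (Ex (fun s : Fin m => bt s.1) d j).card

/-- The coordinate `s` of the point `L`. -/
def ptZ (bt bv : ℕ → ℕ) (W : List (List ℤ)) (L : List (ℤ × ℕ)) (s : ℕ) : ℤ :=
  (L.map fun c => c.1 * if bt s = bv c.2 then (W.getD c.2 []).getD s 0 else 0).sum

/-- The coefficient of `s` in the list. -/
def cfL (L : List (ℕ × ℕ)) (s : ℕ) : ℕ := (L.map fun e => bif Nat.beq e.1 s then e.2 else 0).sum

/-- The list `L'` represents the point `L` modulo `p`. -/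
def repOk (p m : ℕ) (bt bv : ℕ → ℕ) (W : List (List ℤ)) (L : List (ℤ × ℕ)) (L' : List (ℕ × ℕ)) :
    Bool :=
  (L'.all fun e => Nat.blt e.1 m) &&
    (List.range m).all fun s => (ptZ bt bv W L s - (cfL L' s : ℤ)) % (p : ℤ) == 0

/-- All lists represent the points. -/
def repAll (p m : ℕ) (bt bv : ℕ → ℕ) (W : List (List ℤ)) :
    List (List (ℤ × ℕ)) → List (List (ℕ × ℕ)) → Bool
  | [], [] => true
  | L :: T, L' :: T' => repOk p m bt bv W L L' && repAll p m bt bv W T T'
  | _, _ => false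

private theorem Fs.cfL_cons (e : ℕ × ℕ) (L : List (ℕ × ℕ)) (s : ℕ) :
    cfL (e :: L) s = (if e.1 = s then e.2 else 0) + cfL L s := by
  unfold cfL
  rw [List.map_cons, List.sum_cons]
  congr 1
  by_cases h6 : e.1 = s
  · rw [if_pos h6, h6, Nat.beq_refl]
    rfl
  · rw [if_neg h6]
    cases h7 : Nat.beq e.1 s
    · rfl
    · rw [Nat.beq_eq] at h7
      exact absurd h7 h6

private theorem Fs.sum_cfL {m : ℕ} (G : ℕ → ℤ) (L : List (ℕ × ℕ)) (h : ∀ e ∈ L, e.1 < m) :
    (L.map fun e => (e.2 : ℤ) * G e.1).sum = ∑ s : Fin m, (cfL L s.1 : ℤ) * G s.1 := by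
  induction L with
  | nil =>
    refine (sum_eq_zero fun s _ => ?_).symm
    show (((([] : List (ℕ × ℕ)).map fun e => bif Nat.beq e.1 s.1 then e.2 else 0).sum : ℕ) : ℤ) *
      G s.1 = 0
    rw [List.map_nil, List.sum_nil, Nat.cast_zero, zero_mul]
  | cons e L ih =>
    have h4 : e.1 < m := h e List.mem_cons_self
    rw [List.map_cons, List.sum_cons, ih fun f hf => h f (List.mem_cons_of_mem _ hf)]
    simp only [Fs.cfL_cons, Nat.cast_add, add_mul, sum_add_distrib]
    congr 1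
    rw [sum_eq_single_of_mem (⟨e.1, h4⟩ : Fin m) (mem_univ _)]
    · rw [if_pos rfl]
    · intro s _ hs
      rw [if_neg, Nat.cast_zero, zero_mul]
      intro h5
      exact hs (Fin.ext h5.symm)

private theorem Fs.rep_of_repOk {p m : ℕ} {bt bv : ℕ → ℕ} {W : List (List ℤ)} {L : List (ℤ × ℕ)}
    {L' : List (ℕ × ℕ)} (h : repOk p m bt bv W L L' = true) :
    Rep p (fun s : Fin m => ptZ bt bv W L s.1) L' := by
  unfold repOk at h
  rw [Bool.and_eq_true, List.all_eq_true, List.all_eq_true] at h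
  obtain ⟨h1, h2⟩ := h
  intro G
  rw [Fs.sum_cfL (m := m) G L' fun e he => Nat.le_of_ble_eq_true (h1 e he), ← sum_sub_distrib]
  refine dvd_sum fun s _ => ?_
  have h3 := h2 s.1 (List.mem_range.2 s.2)
  rw [beq_iff_eq] at h3
  rw [← sub_mul]
  exact Dvd.dvd.mul_right (Int.dvd_of_emod_eq_zero h3) _

private theorem Fs.repAll_spec {p m : ℕ} {bt bv : ℕ → ℕ} {W : List (List ℤ)} :
    ∀ {T : List (List (ℤ × ℕ))} {T' : List (List (ℕ × ℕ))}, repAll p m bt bv W T T' = true →
    T'.length = T.length ∧ ∀ i (hi : i < T.length),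
      Rep p (fun s : Fin m => ptZ bt bv W T[i] s.1) (T'.getD i []) := by
  intro T
  induction T with
  | nil =>
    intro T' h
    rcases T' with _ | ⟨L', T'⟩
    · exact ⟨rfl, fun i hi => absurd hi (Nat.not_lt_zero i)⟩
    · exact absurd h (by simp [repAll])
  | cons L T ih =>
    intro T' h
    rcases T' with _ | ⟨L', T'⟩
    · exact absurd h (by simp [repAll])
    · have h1 : (repOk p m bt bv W L L' && repAll p m bt bv W T T') = true := h
      rw [Bool.and_eq_true] at h1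
      obtain ⟨h2, h3⟩ := ih h1.2
      refine ⟨by rw [List.length_cons, List.length_cons, h2], fun i hi => ?_⟩
      rcases i with _ | i
      · exact Fs.rep_of_repOk h1.1
      · exact h3 i (by simpa using hi)

private theorem Fs.ptS_eq {m : ℕ} {bt bv : ℕ → ℕ} {W : List (List ℤ)} (T : List (List (ℤ × ℕ))) :
    ptS (fun s : Fin m => bt s.1) bv (fun k s => (((W.getD k []).getD s.1 0 : ℤ) : ℂ)) T =
      Set.range fun (i : Fin T.length) (s : Fin m) => ((ptZ bt bv W T[i.1] s.1 : ℤ) : ℂ) := by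
  have key : ∀ L : List (ℤ × ℕ), ptL (fun s : Fin m => bt s.1) bv
      (fun k s => (((W.getD k []).getD s.1 0 : ℤ) : ℂ)) L =
      fun s : Fin m => ((ptZ bt bv W L s.1 : ℤ) : ℂ) := by
    intro L
    funext s
    unfold ptL ptZ
    induction L with
    | nil =>
      rw [List.map_nil, List.sum_nil, List.map_nil, List.sum_nil, Int.cast_zero]
    | cons c L ih =>
      rw [List.map_cons, List.sum_cons, ih, List.map_cons, List.sum_cons, Int.cast_add,
        Int.cast_mul]
      congr 2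
      split_ifs
      · rfl
      · rw [Int.cast_zero]
  ext p
  constructor
  · rintro ⟨L, hL, rfl⟩
    obtain ⟨i, hi, rfl⟩ := List.getElem_of_mem hL
    exact ⟨⟨i, hi⟩, (key _).symm⟩
  · rintro ⟨i, rfl⟩
    exact ⟨T[i.1], List.getElem_mem _, (key _).symm⟩

/-- **A check.** -/
theorem fsOk_of_chk {m d j w u q p r : ℕ} (bt bv : ℕ → ℕ) (T D : List (List (ℤ × ℕ)))
    (W : List (List ℤ)) (Lt Ld : List (List (ℕ × ℕ))) (N : Tri) (S : List (List (ℕ × ℕ × ℕ)))
    (hd : Nat.blt d 8 = true) (h : chk w u q p N (okCode m d j bt) (rwS Lt Ld) S = true)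
    (hT : repAll p m bt bv W T Lt = true) (hD : repAll p m bt bv W D Ld = true)
    (hS : (S.all fun ls => ls.all (okLab m T.length D.length)) = true)
    (hr : Nat.beq (S.map List.length).sum r = true) : FsOk m bt d j bv T D r := by
  obtain ⟨hT1, hT2⟩ := Fs.repAll_spec hT
  obtain ⟨hD1, hD2⟩ := Fs.repAll_spec hD
  rw [Nat.beq_eq] at hr
  refine ⟨fun k s => (W.getD k []).getD s.1 0, ?_⟩
  have h1 := finrank_sol_of_chk (K := ℂ) (Nat.le_of_ble_eq_true hd) bt
    (fun (i : Fin T.length) s => ptZ bt bv W T[i.1] s.1)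
    (fun (i : Fin D.length) s => ptZ bt bv W D[i.1] s.1) Lt Ld hT1
    (fun i => hT2 i.1 i.2) (fun i => hD2 i.1 i.2) h hS
  rw [hr] at h1
  rw [Fs.ptS_eq, Fs.ptS_eq]
  exact h1

end Pool.Agent.KZ
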