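import Pool.Agent.KZ.Defs
import Pool.Agent.H18.Ex.Gen

/-!
# KZ4: secants

`q, q'` triple points of a quartic form: it vanishes doubly at `q + q'`; `q, q', q''` triple points:
it vanishes at `q + q' + q''`.  Proof: `fat_addG`: for points `q, q'` of multiplicities `m, m' ≤ D` of a
form of degree `D` the sum `q + q'` has multiplicity `m + m' - D`.  The `c`-th Taylor coefficient at
`q + X q'` is a polynomial in `X`; expansion at `q` shows that its coefficients of degree
`< m - |c|` vanish, expansion at `X q'` that its coefficients of degree `> D - m'` vanish.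
-/

set_option autoImplicit false
set_option linter.unusedSectionVars false

namespace Pool.Agent.KZ

open Finset Pool.Agent.H54.V7
open Pool.Agent.H18.Ex (tcr tcr_map)

variable {E ν : Type} [Fintype E] [Fintype ν] [DecidableEq ν]

open Polynomial in
theorem tcr_XC (q : ν → ℂ) (e a : ν → ℕ) :
    tcr (fun i => (X : ℂ[X]) * C (q i)) e a = X ^ (∑ i, e i - ∑ i, a i) * C (tcr q e a) := by
  by_cases h : ∀ i, a i ≤ e i
  · rw [tcr_smul _ _ _ _ h, tcr_C]
  · rw [tcr_eq_zero _ _ _ h, tcr_eq_zero _ _ _ h, C_0, mul_zero]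

open Polynomial in
theorem fat_addG (ex : E → ν → ℕ) (D : ℕ) (hd : ∀ e, ∑ s, ex e s = D) (f : E → ℂ) (m m' : ℕ)
    (hm : m' ≤ D) (q q' : ν → ℂ) (h : Fat ex m q f) (h' : Fat ex m' q' f) :
    Fat ex (m + m' - D) (fun s => q s + q' s) f := by
  intro c hc
  have hN : ∀ e, ∀ i, ex e i < D + 1 := by
    intro e i
    have h1 : ex e i ≤ ∑ s, ex e s :=
      single_le_sum (f := ex e) (fun _ _ => Nat.zero_le _) (mem_univ i)
    rw [hd e] at h1
    omega
  set P : ℂ[X] := ∑ e, C (f e) * tcr (fun i => C (q i) + X * C (q' i)) (ex e) c with hP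
  have h1 : P = ∑ a ∈ bx ν (D + 1), C (∑ e, f e * tcr q (ex e) a) *
      (X ^ (∑ i, a i - ∑ i, c i) * C (tcr q' a c)) := by
    have h2 : ∀ e, C (f e) * tcr (fun i => C (q i) + X * C (q' i)) (ex e) c =
        ∑ a ∈ bx ν (D + 1), C (f e * tcr q (ex e) a) *
          (X ^ (∑ i, a i - ∑ i, c i) * C (tcr q' a c)) := by
      intro e
      rw [tcr_add _ _ (ex e) c (D + 1) (hN e), mul_sum]
      refine sum_congr rfl fun a _ => ?_
      rw [tcr_C, tcr_XC, C_mul]
      ring
    rw [hP, sum_congr rfl fun e _ => h2 e, sum_comm]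
    refine sum_congr rfl fun a _ => ?_
    rw [map_sum, sum_mul]
  have h2 : P = ∑ a ∈ bx ν (D + 1), C (∑ e, f e * tcr q' (ex e) a) *
      (X ^ (D - ∑ i, a i) * C (tcr q a c)) := by
    have h3 : ∀ e, C (f e) * tcr (fun i => C (q i) + X * C (q' i)) (ex e) c =
        ∑ a ∈ bx ν (D + 1), C (f e * tcr q' (ex e) a) *
          (X ^ (D - ∑ i, a i) * C (tcr q a c)) := by
      intro e
      have h4 : (fun i => C (q i) + X * C (q' i)) = fun i => X * C (q' i) + C (q i) := by
        funext i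
        rw [add_comm]
      rw [h4, tcr_add _ _ (ex e) c (D + 1) (hN e), mul_sum]
      refine sum_congr rfl fun a _ => ?_
      rw [tcr_C, tcr_XC, C_mul, hd e]
      ring
    rw [hP, sum_congr rfl fun e _ => h3 e, sum_comm]
    refine sum_congr rfl fun a _ => ?_
    rw [map_sum, sum_mul]
  have h3 : P = 0 := by
    ext k
    rw [coeff_zero]
    by_cases hk : k + ∑ i, c i < m
    · rw [h1, finsetSum_coeff]
      refine sum_eq_zero fun a _ => ?_
      by_cases ha : ∑ i, a i < m
      · rw [h a ha, C_0, zero_mul, coeff_zero]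
      · rw [coeff_C_mul, coeff_mul_C, coeff_X_pow, if_neg (by omega), zero_mul, mul_zero]
    · rw [h2, finsetSum_coeff]
      refine sum_eq_zero fun a _ => ?_
      by_cases ha : ∑ i, a i < m'
      · rw [h' a ha, C_0, zero_mul, coeff_zero]
      · rw [coeff_C_mul, coeff_mul_C, coeff_X_pow, if_neg (by omega), zero_mul, mul_zero]
  have h4 : P.eval 1 = ∑ e, f e * tcr (fun s => q s + q' s) (ex e) c := by
    rw [hP, eval_finsetSum]
    refine sum_congr rfl fun e _ => ?_
    rw [eval_mul, eval_C]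
    congr 1
    have h5 := tcr_map (evalRingHom (1 : ℂ)) (fun i => C (q i) + X * C (q' i)) (ex e) c
    rw [coe_evalRingHom] at h5
    rw [h5]
    congr 1
    funext i
    simp
  rw [← h4, h3, eval_zero]

theorem fat_add2 (ex : E → ν → ℕ) (hd : ∀ e, ∑ s, ex e s = 4) (f : E → ℂ) (q q' : ν → ℂ)
    (h : Fat ex 3 q f) (h' : Fat ex 3 q' f) : Fat ex 2 (fun s => q s + q' s) f :=
  fat_addG ex 4 hd f 3 3 (by norm_num) q q' h h'

theorem fat_add3 (ex : E → ν → ℕ) (hd : ∀ e, ∑ s, ex e s = 4) (f : E → ℂ) (q q' q'' : ν → ℂ)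
    (h : Fat ex 3 q f) (h' : Fat ex 3 q' f) (h'' : Fat ex 3 q'' f) :
    Fat ex 1 (fun s => q s + q' s + q'' s) f :=
  fat_addG ex 4 hd f 2 3 (by norm_num) (fun s => q s + q' s) q'' (fat_add2 ex hd f q q' h h') h''

end Pool.Agent.KZ
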