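import Pool.Agent.KZ.Base0
import Pool.Agent.KZ.Sim
import Pool.Agent.H74.V9.Fixed

/-!
# KZ4: degree `4`, at most `21 N / 50` double points: the exact dimension

`N = r + 1 - #{i | m i = 4}`; the points of multiplicity `4` lower the number of variables by one.
-/

set_option autoImplicit false

namespace Pool.Agent.KZ

open Finset Pool.Agent.H18.Fat Pool.Agent.H21.HD Pool.Agent.H21.NX

/-- A bijection between two families with the same multiset of values. -/
theorem exists_equiv_map {κ κ' T : Type} [Fintype κ] [Fintype κ'] (m : κ → T) (n : κ' → T)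
    (h : (univ : Finset κ).val.map m = (univ : Finset κ').val.map n) :
    ∃ e : κ ≃ κ', ∀ a, n (e a) = m a := by
  classical
  have hc : ∀ τ : T, Nonempty ({a : κ // m a = τ} ≃ {b : κ' // n b = τ}) := by
    intro τ
    refine ⟨Fintype.equivOfCardEq ?_⟩
    have h1 := congrArg (Multiset.count τ) h
    rw [Multiset.count_map, Multiset.count_map] at h1
    have e1 : (Multiset.filter (fun a => τ = m a) (univ : Finset κ).val).card =
        Fintype.card {a : κ // m a = τ} := by
      rw [Fintype.card_subtype, ← Finset.filter_val, Finset.card_val]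
      exact congrArg Finset.card (Finset.filter_congr fun a _ => eq_comm)
    have e2 : (Multiset.filter (fun a => τ = n a) (univ : Finset κ').val).card =
        Fintype.card {a : κ' // n a = τ} := by
      rw [Fintype.card_subtype, ← Finset.filter_val, Finset.card_val]
      exact congrArg Finset.card (Finset.filter_congr fun a _ => eq_comm)
    rw [← e1, ← e2, h1]
  exact ⟨Equiv.ofFiberEquiv fun τ => (hc τ).some, fun a => Equiv.ofFiberEquiv_map _ _⟩

/-- The general dimension depends only on the multiset of the multiplicities. -/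
theorem gdim_perm (r d : ℕ) {κ κ' : Type} [Fintype κ] [Fintype κ'] (m : κ → ℕ) (n : κ' → ℕ)
    (h : (univ : Finset κ).val.map m = (univ : Finset κ').val.map n) :
    gdim r d m = gdim r d n := by
  obtain ⟨e, he⟩ := exists_equiv_map m n h
  rw [← gdim_comp_equiv r d e n]
  congr 1
  funext a
  exact (he a).symm

/-- Without the points of multiplicity `d`. -/
theorem cone_strip (d : ℕ) (r k : ℕ) (m : Fin k → ℕ) (hm : ∀ i, 1 ≤ m i ∧ m i ≤ d)
    (c : ℕ) (hc : (univ.filter fun i => m i = d).card = c) (hcr : c ≤ r) :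
    ∃ (k' : ℕ) (m' : Fin k' → ℕ), (∀ i, 1 ≤ m' i ∧ m' i ≤ d) ∧
      (univ : Finset (Fin k')).val.map m' = ((univ : Finset (Fin k)).val.map m).filter (· ≠ d) ∧
      gdim r d m = gdim (r - c) d m' := by
  classical
  induction c generalizing r k m with
  | zero =>
    refine ⟨k, m, hm, ?_, rfl⟩
    symm
    rw [Multiset.filter_eq_self]
    intro x hx
    obtain ⟨i, _, rfl⟩ := Multiset.mem_map.1 hx
    rw [card_eq_zero, filter_eq_empty_iff] at hc
    exact hc (mem_univ i)
  | succ c ih =>
    obtain ⟨i, hi⟩ : (univ.filter fun i => m i = d).Nonempty := by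
      rw [← card_pos]
      omega
    have hi2 : m i = d := (mem_filter.1 hi).2
    obtain ⟨n, rfl⟩ : ∃ n, k = n + 1 := by
      rcases k with _ | n
      · exact i.elim0
      · exact ⟨n, rfl⟩
    obtain ⟨s, rfl⟩ : ∃ s, r = s + 1 := ⟨r - 1, by omega⟩
    have huniv : (univ : Finset (Fin (n + 1))).val = i ::ₘ (univ : Finset (Fin n)).val.map i.succAbove := by
      rw [Fin.univ_succAbove n i]
      rfl
    have hc' : (univ.filter fun j => m (i.succAbove j) = d).card = c := by
      have h1 : (univ.filter fun j => m j = d).card =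
          (if m i = d then 1 else 0) + (univ.filter fun j => m (i.succAbove j) = d).card := by
        rw [Finset.card_filter, Finset.card_filter, Fin.sum_univ_succAbove _ i]
      rw [hc, if_pos hi2] at h1
      omega
    obtain ⟨k', m', hm', hms, hg⟩ := ih s n (fun j => m (i.succAbove j)) (fun j => hm _) hc' (by omega)
    refine ⟨k', m', hm', ?_, ?_⟩
    · rw [hms, huniv, Multiset.map_cons, Multiset.filter_cons_of_neg _ (by simpa using hi2),
        Multiset.map_map]
      rfl
    · rw [show s + 1 - (c + 1) = s - c by omega, ← hg,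
        ← Pool.Agent.XD.gdim_one s d n (fun j => m (i.succAbove j)) fun j => hm _]
      refine gdim_perm (s + 1) d _ _ ?_
      rw [huniv, Multiset.map_cons, hi2, Multiset.map_map]
      have h1 : (univ : Finset (Fin n ⊕ Unit)).val.map
          (Sum.elim (fun j => m (i.succAbove j)) fun _ : Unit => d) =
          (univ : Finset (Fin n)).val.map (fun j => m (i.succAbove j)) +
            (univ : Finset Unit).val.map fun _ => d :=
        Pool.Agent.V7.ST.map_elim _ _
      rw [h1]
      have h2 : (univ : Finset Unit).val.map (fun _ => d) = {d} := rfl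
      rw [h2, ← Multiset.singleton_add, add_comm]
      rfl

/-- The coefficients in degree `≤ 4`. -/
theorem fro_counts {P : Type} [DecidableEq P] (r : ℕ) (m : P → ℕ) (I : Finset P)
    (hm : ∀ i ∈ I, 1 ≤ m i ∧ m i ≤ 4) (N : ℕ) (hN : N + (I.filter fun i => m i = 4).card = r + 1) :
    fro r (fun i => 4 + 1 - m i) I 0 = 1 ∧ fro r (fun i => 4 + 1 - m i) I 1 = N ∧
    fro r (fun i => 4 + 1 - m i) I 2 = mc N 2 - (I.filter fun i => m i = 3).card ∧
    fro r (fun i => 4 + 1 - m i) I 3 = mc N 3 - (I.filter fun i => m i = 3).card * N -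
      (I.filter fun i => m i = 2).card ∧
    fro r (fun i => 4 + 1 - m i) I 4 = v0 N (I.filter fun i => m i = 3).card
      (I.filter fun i => m i = 2).card (I.filter fun i => m i = 1).card := by
  induction I using Finset.induction_on generalizing N with
  | empty =>
    have hN' : N = r + 1 := by simpa using hN
    subst hN'
    have h1 : ∀ j, fro r (fun i : P => 4 + 1 - m i) ∅ j = mc (r + 1) j := by
      intro j
      unfold fro mc
      simp only [Finset.powerset_empty, Finset.sum_singleton, Finset.card_empty, pow_zero,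
        Finset.sum_empty, Nat.zero_le, if_true, Nat.sub_zero, one_mul]
      rw [Nat.multichoose_eq, show r + 1 + j - 1 = r + j by omega]
      congr 1
      rw [← Nat.choose_symm (show r ≤ r + j by omega)]
      congr 1
      omega
    rw [h1, h1, h1, h1, h1]
    simp [v0, mc]
  | insert b s hb ih =>
    have hb4 := hm b (mem_insert_self b s)
    have hms : ∀ i ∈ s, 1 ≤ m i ∧ m i ≤ 4 := fun i hi => hm i (mem_insert_of_mem hi)
    have hcard : ∀ μ : ℕ, ((insert b s).filter fun i => m i = μ).card =
        (s.filter fun i => m i = μ).card + if m b = μ then 1 else 0 := by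
      intro μ
      rw [filter_insert]
      split_ifs with h
      · rw [card_insert_of_notMem fun h2 => hb (mem_filter.1 h2).1]
      · rw [add_zero]
    have hr : ∀ j, fro r (fun i => 4 + 1 - m i) (insert b s) j = fro r (fun i => 4 + 1 - m i) s j -
        (if 4 + 1 - m b ≤ j then fro r (fun i => 4 + 1 - m i) s (j - (4 + 1 - m b)) else 0) :=
      fun j => fro_insert' r (fun i => 4 + 1 - m i) s b hb j
    rw [hcard 4] at hN
    obtain ⟨t, ht⟩ : ∃ t, t = (s.filter fun i => m i = 3).card := ⟨_, rfl⟩
    obtain ⟨u, hu⟩ : ∃ u, u = (s.filter fun i => m i = 2).card := ⟨_, rfl⟩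
    obtain ⟨w, hw⟩ : ∃ w, w = (s.filter fun i => m i = 1).card := ⟨_, rfl⟩
    rw [hcard 3, hcard 2, hcard 1, hr 0, hr 1, hr 2, hr 3, hr 4, ← ht, ← hu, ← hw]
    rcases (by omega : m b = 1 ∨ m b = 2 ∨ m b = 3 ∨ m b = 4) with h | h | h | h
    · rw [h] at hN ⊢
      obtain ⟨h0, h1, h2, h3, h4⟩ := ih hms N (by simpa using hN)
      rw [← ht] at h2 h3
      rw [← hu] at h3
      rw [← ht, ← hu, ← hw] at h4
      norm_num
      rw [h0, h1, h2, h3, h4]
      refine ⟨rfl, rfl, rfl, rfl, ?_⟩
      unfold v0
      push_cast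
      ring
    · rw [h] at hN ⊢
      obtain ⟨h0, h1, h2, h3, h4⟩ := ih hms N (by simpa using hN)
      rw [← ht] at h2 h3
      rw [← hu] at h3
      rw [← ht, ← hu, ← hw] at h4
      norm_num
      rw [h0, h1, h2, h3, h4]
      refine ⟨rfl, rfl, rfl, by ring, ?_⟩
      unfold v0
      push_cast
      ring
    · rw [h] at hN ⊢
      obtain ⟨h0, h1, h2, h3, h4⟩ := ih hms N (by simpa using hN)
      rw [← ht] at h2 h3
      rw [← hu] at h3
      rw [← ht, ← hu, ← hw] at h4
      norm_num
      rw [h0, h1, h2, h3, h4]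
      refine ⟨rfl, rfl, by ring, by ring, ?_⟩
      unfold v0
      have h5 : ((t + 1).choose 2 : ℤ) = (t.choose 2 : ℤ) + t := by
        have h6 := Nat.choose_succ_succ' t 1
        rw [Nat.choose_one_right] at h6
        have h7 : (t + 1).choose 2 = t + t.choose 2 := h6
        rw [h7]
        push_cast
        ring
      rw [h5]
      push_cast
      ring
    · rw [h] at hN ⊢
      obtain ⟨h0, h1, h2, h3, h4⟩ := ih hms (N + 1) (by
        simp only [if_true] at hN
        omega)
      rw [← ht] at h2 h3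
      rw [← hu] at h3
      rw [← ht, ← hu, ← hw] at h4
      norm_num
      rw [h0, h1, h2, h3, h4]
      have h5 : ∀ j, mc (N + 1) (j + 1) = mc N (j + 1) + mc (N + 1) j := by
        intro j
        unfold mc
        rw [Nat.multichoose_succ_succ]
        push_cast
        rfl
      have h6 : mc (N + 1) 1 = N + 1 := by simp [mc]
      refine ⟨rfl, by push_cast; ring, ?_, ?_, ?_⟩
      · rw [h5 1, h6]
        push_cast
        ring
      · rw [h5 2]
        push_cast
        ring
      · unfold v0
        rw [h5 3, h5 1, h6]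
        push_cast
        ring

theorem ee_ms (t u w : ℕ) : (univ : Finset (Fin (t + u + w))).val.map
    (fun s : Fin (t + u + w) => 4 + 1 - ee t u s) =
      Multiset.replicate t 3 + Multiset.replicate u 2 + Multiset.replicate w 1 := by
  have h0 : (univ : Finset (Fin (t + u + w))).val.map
      (fun s : Fin (t + u + w) => 4 + 1 - ee t u s) =
      (Multiset.range (t + u + w)).map fun s => 4 + 1 - ee t u s := by
    have h1 : (univ : Finset (Fin (t + u + w))).val.map Fin.val = Multiset.range (t + u + w) := by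
      have h2 := congrArg Finset.val (Fin.map_valEmbedding_univ (n := t + u + w))
      rw [Finset.map_val, Nat.Iio_eq_range] at h2
      exact h2
    rw [← h1, Multiset.map_map]
    rfl
  rw [h0, Multiset.range_add, Multiset.range_add, Multiset.map_add, Multiset.map_add,
    Multiset.map_map, Multiset.map_map]
  congr 1
  · congr 1
    · rw [← Multiset.card_range t, ← Multiset.map_const', Multiset.card_range]
      refine Multiset.map_congr rfl fun x hx => ?_
      rw [Multiset.mem_range] at hx
      unfold ee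
      rw [if_pos hx]
    · conv_rhs => rw [← Multiset.card_range u, ← Multiset.map_const']
      refine Multiset.map_congr rfl fun x hx => ?_
      rw [Multiset.mem_range] at hx
      show 4 + 1 - ee t u (t + x) = 2
      unfold ee
      rw [if_neg (by omega), if_pos (by omega)]
  · conv_rhs => rw [← Multiset.card_range w, ← Multiset.map_const']
    refine Multiset.map_congr rfl fun x hx => ?_
    show 4 + 1 - ee t u (t + u + x) = 1
    unfold ee
    rw [if_neg (by omega), if_neg (by omega)]

/-- The general dimension in terms of the system of the level `0`. -/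
theorem gdim_eq_H0 (c r k : ℕ) (m : Fin k → ℕ) (hm : ∀ i, 1 ≤ m i ∧ m i ≤ 4) (N : ℕ)
    (hN : N + (univ.filter fun i => m i = 4).card = r + 1) (hN1 : 1 ≤ N) :
    gdim r 4 m = H0 c N (univ.filter fun i => m i = 3).card (univ.filter fun i => m i = 2).card
      (univ.filter fun i => m i = 1).card := by
  classical
  obtain ⟨k', m', hm', hms, hg⟩ := cone_strip 4 r k m hm _ rfl (by omega)
  obtain ⟨N', rfl⟩ : ∃ N', N = N' + 1 := ⟨N - 1, by omega⟩
  rw [hg, H0_eq_FF c (N' + 1) _ _ _ hN1,
    show r - (univ.filter fun i => m i = 4).card = N' by omega]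
  refine gdim_perm N' 4 _ _ ?_
  rw [hms]
  refine Eq.trans ?_ (ee_ms _ _ _).symm
  ext x
  have h1 : ∀ x, ((univ : Finset (Fin k)).val.map m).count x = (univ.filter fun i => m i = x).card := by
    intro x
    rw [Multiset.count_map, ← Finset.filter_val, Finset.card_val]
    exact congrArg Finset.card (Finset.filter_congr fun a _ => eq_comm)
  rw [Multiset.count_filter, Multiset.count_add, Multiset.count_add, Multiset.count_replicate,
    Multiset.count_replicate, Multiset.count_replicate, h1]
  by_cases hx : 1 ≤ x ∧ x ≤ 4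
  · rcases (by omega : x = 1 ∨ x = 2 ∨ x = 3 ∨ x = 4) with h | h | h | h <;> subst h <;> simp
  · have h2 : (univ.filter fun i => m i = x) = ∅ := by
      rw [filter_eq_empty_iff]
      intro i _ h
      have := hm i
      omega
    have k1 : ¬ (1 = x) := by omega
    have k2 : ¬ (2 = x) := by omega
    have k3 : ¬ (3 = x) := by omega
    rw [h2, card_empty, if_neg k1, if_neg k2, if_neg k3]
    split_ifs <;> rfl

private theorem Text_mc_two (N : ℕ) : 2 * mc N 2 = N * (N + 1) := by
  have h := Nat.ascFactorial_eq_factorial_mul_choose' N 2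
  rw [← Nat.multichoose_eq] at h
  simp only [Nat.ascFactorial, Nat.factorial] at h
  unfold mc
  have h2 : ((2 * Nat.multichoose N 2 : ℕ) : ℤ) = ((N * (N + 1) : ℕ) : ℤ) := by
    congr 1
    nlinarith
  push_cast at h2
  exact h2

private theorem Text_mc_three (N : ℕ) : 6 * mc N 3 = N * (N + 1) * (N + 2) := by
  have h := Nat.ascFactorial_eq_factorial_mul_choose' N 3
  rw [← Nat.multichoose_eq] at h
  simp only [Nat.ascFactorial, Nat.factorial] at h
  unfold mc
  have h2 : ((6 * Nat.multichoose N 3 : ℕ) : ℤ) = ((N * (N + 1) * (N + 2) : ℕ) : ℤ) := by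
    congr 1
    nlinarith
  push_cast at h2
  exact h2

private theorem Text_mc_four (N : ℕ) : 24 * mc N 4 = N * (N + 1) * (N + 2) * (N + 3) := by
  have h := Nat.ascFactorial_eq_factorial_mul_choose' N 4
  rw [← Nat.multichoose_eq] at h
  simp only [Nat.ascFactorial, Nat.factorial] at h
  unfold mc
  have h2 : ((24 * Nat.multichoose N 4 : ℕ) : ℤ) = ((N * (N + 1) * (N + 2) * (N + 3) : ℕ) : ℤ) := by
    congr 1
    nlinarith
  push_cast at h2
  exact h2

/-- Many triple points: the virtual dimension is negative. -/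
theorem v0_many (N t u w : ℕ) (hN : 30 ≤ N) (h : N ^ 2 < 6 * t)
    (h3 : 0 < mc N 3 - t * N - u) : (v0 N t u w : ℝ) ≤ -(1 / 100 * (N : ℝ) ^ 4) := by
  have hn : (30 : ℝ) ≤ N := by exact_mod_cast hN
  have e2 : 2 * (mc N 2 : ℝ) = N * (N + 1) := by exact_mod_cast Text_mc_two N
  have e3 : 6 * (mc N 3 : ℝ) = N * (N + 1) * (N + 2) := by exact_mod_cast Text_mc_three N
  have e4 : 24 * (mc N 4 : ℝ) = N * (N + 1) * (N + 2) * (N + 3) := by exact_mod_cast Text_mc_four N
  have h3' : (0 : ℝ) < (mc N 3 : ℝ) - t * N - u := by exact_mod_cast h3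
  have hu : (0 : ℝ) ≤ u := Nat.cast_nonneg _
  have hw : (0 : ℝ) ≤ w := Nat.cast_nonneg _
  have ht0 : (0 : ℝ) ≤ t := Nat.cast_nonneg _
  have ht1 : (N : ℝ) ^ 2 < 6 * t := by exact_mod_cast h
  have ht2 : 6 * (t : ℝ) ≤ (N + 1) * (N + 2) := by
    have h4 : 6 * (t : ℝ) * N ≤ (N + 1) * (N + 2) * N := by nlinarith
    have h5 : (0 : ℝ) < N := by linarith
    exact le_of_mul_le_mul_right h4 h5
  have hch : 2 * ((t.choose 2 : ℕ) : ℝ) ≤ (t : ℝ) ^ 2 := by
    have h4 : 2 * t.choose 2 ≤ t ^ 2 := by
      rw [Nat.choose_two_right]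
      have h5 := Nat.div_mul_le_self (t * (t - 1)) 2
      have h6 : t * (t - 1) ≤ t ^ 2 := by
        rw [sq]
        exact Nat.mul_le_mul_left _ (Nat.sub_le _ _)
      omega
    exact_mod_cast h4
  have hv : (v0 N t u w : ℝ) = (mc N 4 : ℝ) - t * mc N 2 + (t.choose 2 : ℕ) - u * N - w := by
    unfold v0
    push_cast
    ring
  rw [hv]
  have huN : 0 ≤ (u : ℝ) * N := by positivity
  have hsq : 36 * (t : ℝ) ^ 2 ≤ ((N + 1) * (N + 2)) ^ 2 := by nlinarith
  have htm : (N : ℝ) ^ 2 * (N * (N + 1)) ≤ 12 * (t * mc N 2) := by nlinarith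
  have hNpos : (0 : ℝ) < N := by linarith
  have hN3 : (30 : ℝ) * (N : ℝ) ^ 3 ≤ (N : ℝ) ^ 4 := by
    have : (0 : ℝ) ≤ (N : ℝ) ^ 3 := by positivity
    nlinarith
  have hN2 : (30 : ℝ) * (N : ℝ) ^ 2 ≤ (N : ℝ) ^ 3 := by
    have : (0 : ℝ) ≤ (N : ℝ) ^ 2 := by positivity
    nlinarith
  have hN1 : (30 : ℝ) * (N : ℝ) ≤ (N : ℝ) ^ 2 := by nlinarith
  nlinarith

/-- The exact dimension in degree `4`. -/
theorem exact4_of (c : ℕ) (hP : PROP0 c) : ∃ n₀ : ℕ, ∀ (r k : ℕ) (m : Fin k → ℕ),
    (∀ i, 1 ≤ m i ∧ m i ≤ 4) → ∀ N : ℕ, N + (univ.filter fun i => m i = 4).card = r + 1 → n₀ ≤ N →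
      50 * (univ.filter fun i => m i = 2).card ≤ 21 * N →
      (∀ j < 4, 0 < fro r (fun i => 4 + 1 - m i) univ j) →
      ForGeneralPoints r k fun p => (Module.finrank ℂ (fatForms r 4 p m) : ℤ) =
        max (fro r (fun i => 4 + 1 - m i) univ 4) 0 := by
  classical
  obtain ⟨n₁, h₁⟩ := hP
  obtain ⟨n₂, h₂⟩ := Pool.Agent.XD.classify 4 (1 / 100) (by norm_num)
  refine ⟨n₁ + n₂ + 30, fun r k m hm N hN hn hu hpos => ?_⟩
  obtain ⟨f0, f1, f2, f3, f4⟩ := fro_counts r m univ (fun i _ => hm i) N hN
  obtain ⟨t, ht⟩ : ∃ t, t = (univ.filter fun i => m i = 3).card := ⟨_, rfl⟩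
  obtain ⟨u, hu'⟩ : ∃ u, u = (univ.filter fun i => m i = 2).card := ⟨_, rfl⟩
  obtain ⟨w, hw⟩ : ∃ w, w = (univ.filter fun i => m i = 1).card := ⟨_, rfl⟩
  have hgd := gdim_eq_H0 c r k m hm N hN (by omega)
  rw [← ht, ← hu', ← hw] at f4 hgd
  rw [← ht, ← hu'] at f3
  rw [← hu'] at hu
  obtain ⟨hX1, hX2, hX3⟩ := h₂ r k m hm (by rw [f1]; exact_mod_cast (by omega))
  have hgen : Gen r (Fin k) fun p => Module.finrank ℂ (fatForms r 4 p m) = gdim r 4 m :=
    gen_gdim r 4 m
  rcases Nat.lt_or_ge (N ^ 2) (6 * t) with h6 | h6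
  · -- many triple points
    have h7 := v0_many N t u w (by omega) h6 (by rw [← f3]; exact hpos 3 (by norm_num))
    rw [← f4] at h7
    have h8 := hX1 (Or.inr (by
      rw [f1]
      exact_mod_cast h7))
    refine h8.mono fun p hp => ?_
    have h9 : fro r (fun i => 4 + 1 - m i) univ 4 ≤ 0 := by
      have h10 : (fro r (fun i => 4 + 1 - m i) univ 4 : ℝ) ≤ 0 := by
        have : 0 ≤ 1 / 100 * (N : ℝ) ^ 4 := by positivity
        linarith
      exact_mod_cast h10
    rw [hp, max_eq_right h9]
    rfl
  · have h7 := h₁ N (by omega) t u hu h6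
    have h8 := H0_s c N t u 0 w
    rw [zero_add] at h8
    have h9 : v0 N t u w = v0 N t u 0 - w := by
      unfold v0
      push_cast
      ring
    rw [h9] at f4
    rcases lt_or_ge 0 (fro r (fun i => 4 + 1 - m i) univ 4) with h10 | h10
    · have h11 : Gen r (Fin k) fun p => fro r (fun i => 4 + 1 - m i) univ 4 ≤
          (Module.finrank ℂ (fatForms r 4 p m) : ℤ) := hX2 fun j hj => by
        rcases lt_or_eq_of_le hj with hj | rfl
        · exact hpos j hj
        · exact h10
      have h12 : Gen r (Fin k) fun p => (Module.finrank ℂ (fatForms r 4 p m) : ℤ) =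
          max (fro r (fun i => 4 + 1 - m i) univ 4) 0 := by
        refine (hgen.and h11).mono ?_
        rintro p ⟨hp1, hp2⟩
        omega
      exact h12
    · have h12 : Gen r (Fin k) fun p => (Module.finrank ℂ (fatForms r 4 p m) : ℤ) =
          max (fro r (fun i => 4 + 1 - m i) univ 4) 0 := by
        refine hgen.mono ?_
        intro p hp1
        omega
      exact h12

end Pool.Agent.KZ
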